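import Pool.Agent.N831.SX.B
import Pool.Agent.R838.TW.Pl

set_option autoImplicit false

/-!
# L-functions near and to the left of the critical line

`SD κ B H X Z`: `X w = H w * Z (1/2 + w)` for `Im w > 0`, with `X` the completed function (critical line = imaginary axis),
and `H` the gamma factor, with a positive real part of the logarithmic derivative for `Im w ≥ B`, `Re w ≤ 1`.
-/

namespace Pool.Agent.N831.SX

open Complex Filter Topology Set MeasureTheory
open scoped ComplexConjugate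
open Pool.Agent.N831.SP (re_le_of_left logderiv_mul_of logderiv_pow)
open Pool.Agent.R838.TW (Sy)
open Pool.Agent.Y22.RX (Bad)
open Pool.Agent.Y693.GL (GoodY)

noncomputable section

/-- Most points are good at all scales. -/
def GoodE (κ : ℝ) (X : ℂ → ℂ) : Prop := ∃ c C a0 T0 : ℝ, 0 < c ∧ 0 < C ∧ 1 ≤ a0 ∧ 2 ≤ T0 ∧
  ∀ T a r : ℝ, T0 ≤ T → a0 ≤ a → 0 < r → r ≤ 1 / 200 → κ * r ≤ 1 / 200 → κ * r * Real.log T = a →
    volume {t0 : ℝ | T / 2 ≤ t0 ∧ t0 ≤ 3 * T ∧ ¬ Pool.Agent.H24R2.DZ.NN a (1 / 10) (fun z => X (I * t0 + r * z))} ≤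
      ENNReal.ofReal (C * T * Real.exp (-(c * a)))

structure SD (κ B : ℝ) (H X Z : ℂ → ℂ) : Prop where
  κ_pos : 0 < κ
  B_one : 1 ≤ B
  sy : Sy X
  strip : ∀ s : ℂ, X s = 0 → |s.re| ≤ 1 / 2
  zero : ∃ z, X z = 0
  eq : ∀ w : ℂ, 0 < w.im → X w = H w * Z (1 / 2 + w)
  Hne : ∀ w : ℂ, 0 < w.im → H w ≠ 0
  dZ : ∀ s : ℂ, 0 < s.im → DifferentiableAt ℂ Z s
  left : ∀ w : ℂ, B ≤ w.im → w.re ≤ 1 → AnalyticAt ℂ H w ∧ H w ≠ 0 ∧ 0 < (deriv H w / H w).re
  gam : ∀ R : ℝ, 1 ≤ R → ∃ K T0 : ℝ, 0 < K ∧ 2 ≤ T0 ∧ ∀ (t : ℝ) (u : ℂ), T0 ≤ t → ‖u‖ ≤ R →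
    DifferentiableAt ℂ H (I * t + u) ∧ H (I * t + u) ≠ 0 ∧
    ‖logDeriv H (I * t + u) - ((κ * Real.log t : ℝ) : ℂ)‖ ≤ K ∧
    Real.exp (κ * Real.log t * u.re - K) * ‖H (I * t)‖ ≤ ‖H (I * t + u)‖ ∧
    ‖H (I * t + u)‖ ≤ Real.exp (κ * Real.log t * u.re + K) * ‖H (I * t)‖
  gro : ∀ R : ℝ, 1 ≤ R → ∃ K T0 : ℝ, 0 < K ∧ 2 ≤ T0 ∧ ∀ (t : ℝ) (u : ℂ), T0 ≤ t → ‖u‖ ≤ R →
    ‖Z (1 / 2 + (I * t + u))‖ ≤ t ^ K
  rgt : ∃ c A : ℝ, 0 < c ∧ 1 ≤ A ∧ ∀ s : ℂ, A ≤ s.re → c ≤ ‖Z s‖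
  good : GoodE κ X
  dens : ∃ c C : ℝ, 0 < c ∧ 0 < C ∧ ∀ δ T : ℝ, 0 ≤ δ → 2 ≤ T → (Pool.Agent.Y22.RX.S X δ T).Finite ∧
    ((Pool.Agent.Y22.RX.S X δ T).ncard : ℝ) ≤ C * T ^ (1 - c * δ) * Real.log T

variable {κ B : ℝ} {H X Z : ℂ → ℂ}

lemma an_upper {F : ℂ → ℂ} (h : ∀ s : ℂ, 0 < s.im → DifferentiableAt ℂ F s) {s : ℂ} (hs : 0 < s.im) :
    AnalyticAt ℂ F s := by
  rw [Complex.analyticAt_iff_eventually_differentiableAt]
  filter_upwards [(isOpen_lt continuous_const Complex.continuous_im).mem_nhds hs] with w hw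
  exact h w hw

lemma deriv_symm {X : ℂ → ℂ} (hd : Differentiable ℂ X) (hs : ∀ z : ℂ, X (-(conj z)) = conj (X z)) (z : ℂ) :
    deriv X (-(conj z)) = -(conj (deriv X z)) := by
  have e : X = (conj ∘ (fun w => X (-w)) ∘ conj : ℂ → ℂ) := by
    funext w
    simp only [Function.comp_apply]
    rw [hs, Complex.conj_conj]
  have h1 : HasDerivAt (fun w => X (-w)) (-deriv X (-(conj (-(conj z))))) (conj (-(conj z))) := by
    have h2 := (hd (-(conj (-(conj z))))).hasDerivAt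
    have h3 : HasDerivAt (fun w : ℂ => -w) (-1) (conj (-(conj z))) := (hasDerivAt_id _).neg
    exact (h2.comp (conj (-(conj z))) h3).congr_deriv (by ring)
  have h4 := h1.conj_conj
  rw [Complex.conj_conj] at h4
  have h5 : HasDerivAt X (conj (-deriv X (-(conj (-(conj z)))))) (-(conj z)) :=
    h4.congr_of_eventuallyEq (Filter.Eventually.of_forall fun w => congrFun e w)
  rw [h5.deriv]
  simp only [map_neg, Complex.conj_conj, neg_neg]

lemma ld_symm {X : ℂ → ℂ} (hd : Differentiable ℂ X) (hs : ∀ z : ℂ, X (-(conj z)) = conj (X z)) (z : ℂ) :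
    deriv X (-(conj z)) / X (-(conj z)) = -(conj (deriv X z / X z)) := by
  rw [deriv_symm hd hs, hs, map_div₀, neg_div]

lemma ld_axis {X : ℂ → ℂ} (hd : Differentiable ℂ X) (hs : ∀ z : ℂ, X (-(conj z)) = conj (X z)) (u : ℝ) :
    (deriv X ((u : ℂ) * I) / X ((u : ℂ) * I)).re = 0 := by
  have h1 := ld_symm hd hs ((u : ℂ) * I)
  have e : -(conj ((u : ℂ) * I)) = (u : ℂ) * I := by simp
  rw [e] at h1
  have h2 := congrArg Complex.re h1
  simp only [Complex.neg_re, Complex.conj_re] at h2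
  linarith

namespace SD

/-- the heights at which the modulus is not monotone -/
theorem shad (h : SD κ B H X Z) : ∃ c C : ℝ, 0 < c ∧ 0 < C ∧ ∀ r T : ℝ, 0 ≤ r → 2 ≤ T →
    volume (Bad X (r / Real.log T) T ∩ Ioi 1) ≤ ENNReal.ofReal (C * Real.exp (-(c * r)) * T) := by
  obtain ⟨c, C, hc, hC, hD⟩ := h.dens
  obtain ⟨C', hC', h1⟩ := Pool.Agent.R838.TW.bad_meas h.sy h.zero h.strip hc hC hD
  refine ⟨c / 2, C' * (1 + 2 / c), by positivity, by positivity, fun r T hr hT => ?_⟩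
  have h2 := h1 r T hr hT
  have e1 : max (1 / 2 : ℝ) 1 = 1 := by norm_num
  rw [e1] at h2
  refine h2.trans (ENNReal.ofReal_le_ofReal ?_)
  have h3 : 1 + r ≤ (1 + 2 / c) * Real.exp (c / 2 * r) := by
    have h4 : c / 2 * r + 1 ≤ Real.exp (c / 2 * r) := Real.add_one_le_exp _
    have h5 : 1 ≤ Real.exp (c / 2 * r) := Real.one_le_exp (by positivity)
    have h6 : r ≤ 2 / c * Real.exp (c / 2 * r) := by
      have h7 : 2 / c * (c / 2 * r) = r := by field_simp
      have h8 : 2 / c * (c / 2 * r) ≤ 2 / c * Real.exp (c / 2 * r) := by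
        apply mul_le_mul_of_nonneg_left _ (by positivity)
        linarith
      linarith
    linarith
  have h5 : Real.exp (-(c * r)) = Real.exp (-(c / 2 * r)) * Real.exp (-(c / 2 * r)) := by
    rw [← Real.exp_add]; congr 1; ring
  have hT0 : 0 ≤ T := by linarith
  calc C' * (1 + r) * Real.exp (-(c * r)) * T
      ≤ C' * ((1 + 2 / c) * Real.exp (c / 2 * r)) * Real.exp (-(c * r)) * T := by gcongr
    _ = C' * (1 + 2 / c) * (Real.exp (c / 2 * r) * Real.exp (-(c / 2 * r))) * Real.exp (-(c / 2 * r)) * T := by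
        rw [h5]; ring
    _ = C' * (1 + 2 / c) * Real.exp (-(c / 2 * r)) * T := by
        rw [← Real.exp_add, add_neg_cancel, Real.exp_zero, mul_one]

lemma x_top (h : SD κ B H X Z) (z : ℂ) : analyticOrderAt X z ≠ ⊤ := by
  obtain ⟨z0, h0⟩ := h.sy.ne
  exact Pool.Agent.R838.TW.top_ne h.sy.diff h0 z

lemma z_ne (h : SD κ B H X Z) {w : ℂ} (hw : 0 < w.im) (hX : X w ≠ 0) : Z (1 / 2 + w) ≠ 0 := by
  intro h0
  rw [h.eq w hw, h0, mul_zero] at hX
  exact hX rfl

lemma split (h : SD κ B H X Z) {w : ℂ} (hw : B ≤ w.im) (hw1 : w.re ≤ 1) (hX : X w ≠ 0) :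
    deriv X w / X w = deriv H w / H w + deriv Z (1 / 2 + w) / Z (1 / 2 + w) := by
  have hw0 : 0 < w.im := by linarith [h.B_one]
  have h0 := h.z_ne hw0 hX
  have h2 : X =ᶠ[𝓝 w] fun w => H w * (fun w : ℂ => Z (1 / 2 + w)) w := by
    filter_upwards [(isOpen_lt continuous_const Complex.continuous_im).mem_nhds hw0] with v hv
    exact h.eq v hv
  have hd : DifferentiableAt ℂ (fun w : ℂ => Z (1 / 2 + w)) w := by
    have h3 : DifferentiableAt ℂ Z (1 / 2 + w) := h.dZ _ (by simpa using hw0)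
    exact h3.comp w (by fun_prop)
  obtain ⟨h4, h5, -⟩ := h.left w hw hw1
  have h3 := logderiv_mul_of h2 h4.differentiableAt hd h5 h0
  rw [h3, deriv_comp_const_add]

/-- just to the left of the critical line -/
theorem near (h : SD κ B H X Z) {t : ℝ} (ht : B ≤ t) : ∀ᶠ w : ℂ in 𝓝 (t * I), w.re < 0 → w.im ≥ B →
    Z (1 / 2 + w) ≠ 0 ∧ (deriv Z (1 / 2 + w) / Z (1 / 2 + w)).re < 0 := by
  set z0 : ℂ := t * I with hz0
  have hz0i : z0.im = t := by simp [hz0]
  have hz0r : z0.re = 0 := by simp [hz0]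
  have ht0 : 0 < t := by linarith [h.B_one]
  have hX : AnalyticAt ℂ X z0 := h.sy.diff.analyticAt z0
  obtain ⟨g, hg, hg0, hgz⟩ := (hX.analyticOrderAt_ne_top).mp (h.x_top z0)
  set m := analyticOrderNatAt X z0 with hm
  -- the formula
  have hform : ∀ᶠ z in 𝓝 z0, z ≠ z0 → X z ≠ 0 ∧ deriv X z / X z = m / (z - z0) + deriv g z / g z := by
    filter_upwards [hgz.eventually_nhds, hg.eventually_analyticAt, hg.continuousAt.eventually_ne hg0]
      with z h1 h2 h3 hne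
    have h4 : X z = (z - z0) ^ m * g z := by
      have := h1.self_of_nhds
      simpa [smul_eq_mul] using this
    have hp : (z - z0) ^ m ≠ 0 := pow_ne_zero _ (sub_ne_zero.mpr hne)
    refine ⟨by rw [h4]; exact mul_ne_zero hp h3, ?_⟩
    have h5 : X =ᶠ[𝓝 z] fun w => (fun w : ℂ => (w - z0) ^ m) w * g w := by
      filter_upwards [h1] with w hw
      simpa [smul_eq_mul] using hw
    have h6 := logderiv_mul_of h5 (by fun_prop) h2.differentiableAt hp h3
    rw [h6, logderiv_pow m hne]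
  -- the real part of the regular part vanishes at the centre
  have hcont : ContinuousAt (fun z => (deriv g z / g z).re) z0 :=
    Complex.continuous_re.continuousAt.comp (hg.deriv.continuousAt.div hg.continuousAt hg0)
  have hr0 : (deriv g z0 / g z0).re = 0 := by
    have hmap : Tendsto (fun u : ℝ => (u : ℂ) * I) (𝓝[≠] t) (𝓝 z0) := by
      have : Continuous (fun u : ℝ => (u : ℂ) * I) := by fun_prop
      exact (this.tendsto t).mono_left nhdsWithin_le_nhds
    have h1 : Tendsto (fun u : ℝ => (deriv g ((u : ℂ) * I) / g ((u : ℂ) * I)).re) (𝓝[≠] t)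
        (𝓝 (deriv g z0 / g z0).re) := hcont.tendsto.comp hmap
    have h2 : ∀ᶠ u : ℝ in 𝓝[≠] t, (deriv g ((u : ℂ) * I) / g ((u : ℂ) * I)).re = 0 := by
      filter_upwards [hmap.eventually hform, self_mem_nhdsWithin] with u hu hut
      have hne : (u : ℂ) * I ≠ z0 := by
        intro h
        have := congrArg Complex.im h
        rw [hz0i] at this
        simp at this
        exact hut this
      have h3 := congrArg Complex.re (hu hne).2
      rw [ld_axis h.sy.diff h.sy.symm, Complex.add_re] at h3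
      have h4 : ((m : ℂ) / ((u : ℂ) * I - z0)).re = 0 := by
        have e : (u : ℂ) * I - z0 = ((u - t : ℝ) : ℂ) * I := by rw [hz0]; push_cast; ring
        rw [e, Complex.div_re]
        simp
      rw [h4] at h3
      linarith
    exact tendsto_nhds_unique h1 ((tendsto_congr' h2).mpr tendsto_const_nhds)
  obtain ⟨hH1, hH2, hH3⟩ := h.left z0 (by rw [hz0i]; exact ht) (by rw [hz0r]; norm_num)
  set q := (deriv H z0 / H z0).re with hq
  have hr : ∀ᶠ z in 𝓝 z0, (deriv g z / g z).re < q / 2 := by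
    have := hcont.eventually_lt_const (u := q / 2) (by simp only; rw [hr0]; linarith)
    exact this
  have hHc : ContinuousAt (fun z => (deriv H z / H z).re) z0 :=
    Complex.continuous_re.continuousAt.comp (hH1.deriv.continuousAt.div hH1.continuousAt hH2)
  have hL : ∀ᶠ z in 𝓝 z0, q / 2 < (deriv H z / H z).re := by
    have := hHc.eventually_const_lt (u := q / 2) (by simp only; rw [← hq]; linarith)
    exact this
  filter_upwards [hform, hr, hL] with z h1 h2 h3 hre hB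
  have hne : z ≠ z0 := by
    intro h
    rw [h, hz0r] at hre
    exact lt_irrefl _ hre
  obtain ⟨h5, h6⟩ := h1 hne
  have h4 : 0 < z.im := by linarith [h.B_one]
  refine ⟨h.z_ne h4 h5, ?_⟩
  have h8 := h.split hB (by linarith) h5
  rw [h6] at h8
  have h9 := congrArg Complex.re h8
  rw [Complex.add_re, Complex.add_re] at h9
  have h10 : ((m : ℂ) / (z - z0)).re ≤ 0 := by
    rw [Complex.div_re]
    have e1 : (z - z0).re = z.re := by rw [Complex.sub_re, hz0r, sub_zero]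
    rw [e1]
    simp only [Complex.natCast_re, Complex.natCast_im, zero_mul, zero_div, add_zero]
    refine div_nonpos_of_nonpos_of_nonneg ?_ (Complex.normSq_nonneg _)
    exact mul_nonpos_of_nonneg_of_nonpos (Nat.cast_nonneg _) hre.le
  linarith

/-- uniformly on a compact part -/
theorem near_unif (h : SD κ B H X Z) {T1 T2 : ℝ} (h1 : B ≤ T1) : ∃ δ : ℝ, 0 < δ ∧ ∀ s : ℂ, T1 ≤ s.im → s.im ≤ T2 →
    1 / 2 - δ < s.re → s.re < 1 / 2 → Z s ≠ 0 ∧ (deriv Z s / Z s).re < 0 := by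
  have key : ∀ᶠ δ : ℝ in 𝓝 (0 : ℝ), ∀ t ∈ Icc T1 T2, B ≤ t → 0 < δ →
      Z (1 / 2 + (((-δ : ℝ) : ℂ) + t * I)) ≠ 0 ∧
        (deriv Z (1 / 2 + (((-δ : ℝ) : ℂ) + t * I)) / Z (1 / 2 + (((-δ : ℝ) : ℂ) + t * I))).re < 0 := by
    refine isCompact_Icc.eventually_forall_of_forall_eventually (fun t ht => ?_)
    have hc : Continuous (fun p : ℝ × ℝ => (((-p.1 : ℝ) : ℂ) + p.2 * I : ℂ)) := by fun_prop
    have hmap : Tendsto (fun p : ℝ × ℝ => (((-p.1 : ℝ) : ℂ) + p.2 * I : ℂ)) (𝓝 ((0 : ℝ), t))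
        (𝓝 (t * I)) := by
      have := hc.tendsto ((0 : ℝ), t)
      simpa using this
    filter_upwards [hmap.eventually (h.near (h1.trans ht.1))] with p hp hpB hp0
    exact hp (by simpa using hp0) (by simpa using hpB)
  obtain ⟨δ, hδ, hball⟩ := Metric.eventually_nhds_iff.mp key
  refine ⟨δ, hδ, fun s hs1 hs2 h3 h4 => ?_⟩
  have h5 := hball (y := 1 / 2 - s.re) (by rw [Real.dist_eq, sub_zero, abs_of_pos (by linarith)]; linarith)
    s.im ⟨hs1, hs2⟩ (h1.trans hs1) (by linarith)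
  have e : (1 / 2 + (((-(1 / 2 - s.re) : ℝ) : ℂ) + s.im * I) : ℂ) = s := by
    apply Complex.ext <;> simp
  rw [e] at h5
  exact h5

/-- where the modulus of the completed function is monotone -/
theorem left_of_mono (h : SD κ B H X Z) {t h0 : ℝ} (ht : B ≤ t) (h0n : 0 ≤ h0)
    (hm : StrictMonoOn (fun x : ℝ => ‖X (x + t * I : ℂ)‖) (Set.Ici h0)) {w : ℂ} (hw : w.im = t) (hr : w.re < -h0) :
    X w ≠ 0 ∧ (deriv X w / X w).re ≤ 0 ∧ Z (1 / 2 + w) ≠ 0 ∧
      (deriv Z (1 / 2 + w) / Z (1 / 2 + w)).re ≤ -(deriv H w / H w).re := by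
  have hwe : w = w.re + t * I := by
    apply Complex.ext <;> simp [hw]
  have hsy : ∀ x : ℝ, ‖X (x + t * I : ℂ)‖ = ‖X (((-x : ℝ) : ℂ) + t * I : ℂ)‖ := by
    intro x
    have e : (((-x : ℝ) : ℂ) + t * I : ℂ) = -(conj (x + t * I : ℂ)) := by
      apply Complex.ext <;> simp
    rw [e, h.sy.symm, Complex.norm_conj]
  have hX0 : X w ≠ 0 := by
    intro h1
    have h2 := hm (Set.mem_Ici.2 le_rfl) (Set.mem_Ici.2 (show h0 ≤ -w.re by linarith)) (by linarith)
    simp only at h2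
    rw [hsy (-w.re), neg_neg, ← hwe, h1, norm_zero] at h2
    exact absurd h2 (not_lt.2 (norm_nonneg _))
  have hX1 : (deriv X w / X w).re ≤ 0 := by
    have h2 := re_le_of_left (f := X) (σ := w.re) (t := t) (c := 0) (h.sy.diff _) (by rw [← hwe]; exact hX0) (by
      filter_upwards [self_mem_nhdsWithin] with x hx
      rw [Set.mem_Iio] at hx
      rw [zero_mul, Real.exp_zero, mul_one]
      have h1 := hm (Set.mem_Ici.2 (show h0 ≤ -w.re by linarith)) (Set.mem_Ici.2 (show h0 ≤ -x by linarith)) (by linarith)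
      simp only at h1
      rw [hsy (-w.re), hsy (-x), neg_neg, neg_neg] at h1
      exact h1.le)
    rw [← hwe] at h2
    simpa using h2
  refine ⟨hX0, hX1, h.z_ne (by linarith [h.B_one]) hX0, ?_⟩
  have h8 := congrArg Complex.re (h.split (w := w) (by rw [hw]; exact ht) (by linarith) hX0)
  rw [Complex.add_re] at h8
  linarith

/-- far to the left -/
theorem mono_half (h : SD κ B H X Z) (t : ℝ) :
    StrictMonoOn (fun x : ℝ => ‖X (x + t * I : ℂ)‖) (Set.Ici (1 / 2)) :=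
  h.sy.strict h.zero (by norm_num) fun b hb hb1 => by
    have := h.strip b hb
    linarith

theorem left_far (h : SD κ B H X Z) {s : ℂ} (hs : B ≤ s.im) (hr : s.re < 0) :
    Z s ≠ 0 ∧ (deriv Z s / Z s).re < 0 := by
  obtain ⟨-, -, h1, h2⟩ := h.left_of_mono (w := s - 1 / 2) (t := s.im) hs (by norm_num) (h.mono_half s.im)
    (by simp) (by simp; linarith)
  have e : (1 / 2 + (s - 1 / 2) : ℂ) = s := by ring
  rw [e] at h1 h2
  obtain ⟨-, -, h3⟩ := h.left (s - 1 / 2) (by simpa using hs) (by simp; linarith)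
  exact ⟨h1, lt_of_le_of_lt h2 (by linarith)⟩

end SD

end

end Pool.Agent.N831.SX
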