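import Pool.Agent.N831.SX.H

set_option autoImplicit false

/-!
# The density theorem for the zeros of the derivative to the left of the line
-/

namespace Pool.Agent.N831.SX

open Complex Filter Topology Set MeasureTheory Metric
open scoped ComplexConjugate

noncomputable section

lemma log_ge_half {T : ℝ} (hT : 2 ≤ T) : 1 / 2 ≤ Real.log T := by
  have h3 : Real.log 2 ≤ Real.log T := Real.log_le_log (by norm_num) hT
  have := Real.log_two_gt_d9
  linarith

namespace SD

variable {κ B : ℝ} {H X Z : ℂ → ℂ}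

/-- all zeros in a block -/
theorem total (h : SD κ B H X Z) : ∃ C T0 : ℝ, 0 < C ∧ 2 ≤ T0 ∧ ∀ T : ℝ, T0 ≤ T → ∀ S : Finset ℂ,
    (∀ s ∈ S, Zl Z B s ∧ T < s.im ∧ s.im ≤ 2 * T) →
    ∑ s ∈ S, (analyticOrderNatAt (deriv Z) s : ℝ) ≤ C * T * Real.log T := by
  classical
  obtain ⟨C, T0, hC, hT0, hT0B, hunit⟩ := h.unit
  refine ⟨4 * C, T0 + 2, by positivity, by linarith, fun T hT S hS => ?_⟩
  have hTp : 0 < T := by linarith
  have hL := log_ge_half (T := T) (by linarith)
  have hmaps : ∀ s ∈ S, ⌊s.im⌋ ∈ Finset.Icc ⌊T⌋ ⌊2 * T⌋ := by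
    intro s hs
    rw [Finset.mem_Icc]
    exact ⟨Int.floor_le_floor (hS s hs).2.1.le, Int.floor_le_floor (hS s hs).2.2⟩
  rw [← Finset.sum_fiberwise_of_maps_to hmaps]
  have h1 : ∀ j ∈ Finset.Icc ⌊T⌋ ⌊2 * T⌋, ∑ s ∈ S with ⌊s.im⌋ = j, (analyticOrderNatAt (deriv Z) s : ℝ) ≤
      C * (2 * Real.log T) := by
    intro j hj
    rw [Finset.mem_Icc] at hj
    have hj1 : T - 1 ≤ j := by
      have h2 : (⌊T⌋ : ℝ) ≤ j := by exact_mod_cast hj.1
      have := Int.sub_one_lt_floor T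
      linarith
    have hj2 : (j : ℝ) ≤ 2 * T := by
      have h2 : (j : ℝ) ≤ (⌊2 * T⌋ : ℝ) := by exact_mod_cast hj.2
      exact h2.trans (Int.floor_le _)
    refine (hunit j (by linarith) _ ?_).trans ?_
    · intro s hs
      obtain ⟨h2, h3⟩ := Finset.mem_filter.1 hs
      refine ⟨(hS s h2).1, ?_⟩
      rw [← h3, abs_le]
      have h4 := Int.floor_le s.im
      have h5 := Int.lt_floor_add_one s.im
      constructor <;> linarith
    · have h4 : Real.log j ≤ 2 * Real.log T := by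
        have h5 : Real.log j ≤ Real.log (T ^ 2) := Real.log_le_log (by linarith) (by nlinarith)
        rw [Real.log_pow] at h5
        exact_mod_cast h5
      gcongr
  refine (Finset.sum_le_sum h1).trans ?_
  rw [Finset.sum_const, nsmul_eq_mul, Int.card_Icc]
  have h2 : (((⌊2 * T⌋ + 1 - ⌊T⌋).toNat : ℕ) : ℝ) ≤ 2 * T := by
    have h3 : (0 : ℤ) ≤ ⌊2 * T⌋ + 1 - ⌊T⌋ := by
      have : ⌊T⌋ ≤ ⌊2 * T⌋ := Int.floor_le_floor (by linarith)
      linarith
    have h4 : (((⌊2 * T⌋ + 1 - ⌊T⌋).toNat : ℕ) : ℝ) = ((⌊2 * T⌋ + 1 - ⌊T⌋ : ℤ) : ℝ) := by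
      have := Int.toNat_of_nonneg h3
      exact_mod_cast this
    rw [h4]
    push_cast
    have h5 := Int.floor_le (2 * T)
    have h6 := Int.sub_one_lt_floor T
    linarith
  calc (((⌊2 * T⌋ + 1 - ⌊T⌋).toNat : ℕ) : ℝ) * (C * (2 * Real.log T)) ≤ (2 * T) * (C * (2 * Real.log T)) := by
        gcongr
    _ = 4 * C * T * Real.log T := by ring

/-- low zeros -/
lemma low_le (h : SD κ B H X Z) (T : ℝ) (S : Finset ℂ) (hS : ∀ s ∈ S, Zl Z B s ∧ s.im ≤ T) :
    ∑ s ∈ S, (analyticOrderNatAt (deriv Z) s : ℝ) ≤ NS (deriv Z) B T := by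
  obtain ⟨-, f2⟩ := h.zs_finite (T1 := B) T le_rfl
  unfold NS
  rw [finsum_mem_eq_finite_toFinset_sum _ f2]
  push_cast
  refine Finset.sum_le_sum_of_subset_of_nonneg ?_ fun s _ _ => Nat.cast_nonneg _
  intro s hs
  rw [Set.Finite.mem_toFinset]
  obtain ⟨⟨h1, h2, h3⟩, h4⟩ := hS s hs
  exact ⟨h1, h2, h3, h4⟩

/-- **Transfer.** The number of zeros of the derivative at distance at least `δ` to the left of the line is at most
`C log T` times the number of zeros of the function at distance at least `δ` from the line. -/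
theorem transfer (h : SD κ B H X Z) : ∃ C : ℝ, 0 < C ∧ ∀ δ T : ℝ, 0 ≤ δ → 2 ≤ T → ∀ S : Finset ℂ,
    (∀ s ∈ S, Zl Z B s ∧ δ ≤ 1 / 2 - s.re ∧ s.im ≤ T) →
    ∑ s ∈ S, (analyticOrderNatAt (deriv Z) s : ℝ) ≤
      C * Real.log T * ((Pool.Agent.Y22.RX.S X δ (T + 1) ∩ {b | 0 < b.re}).ncard : ℝ) := by
  classical
  obtain ⟨C, T0, hC, hT0, hT0B, hunit⟩ := h.unit
  obtain ⟨cd, Cd, hcd, hCd, hD⟩ := h.dens
  have hB1 := h.B_one
  set K0 : ℝ := (NS (deriv Z) B (T0 + 1) : ℝ) with hK0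
  have hK0n : 0 ≤ K0 := Nat.cast_nonneg _
  refine ⟨4 * C + 2 * K0, by positivity, fun δ T hδ hT S hS => ?_⟩
  have hTp : 0 < T := by linarith
  have hL := log_ge_half hT
  have hfin : (Pool.Agent.Y22.RX.S X δ (T + 1) ∩ {b | 0 < b.re}).Finite :=
    (hD δ (T + 1) hδ (by linarith)).1.subset inter_subset_left
  -- the attached zeros
  have hex : ∀ s : ℂ, ∃ b : ℂ, s ∈ S → (b ∈ Pool.Agent.Y22.RX.S X δ (T + 1) ∩ {b | 0 < b.re} ∧ |b.im - s.im| ≤ 1) := by
    intro s
    by_cases hs : s ∈ S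
    · obtain ⟨⟨h1, h2, h3⟩, h4, h5⟩ := hS s hs
      obtain ⟨b, g1, g2, g6, g3⟩ := h.jensenX h1 h2 h3.le
      have g4 : |s.im - b.im| ≤ b.re := by
        have := (Complex.abs_im_le_norm (s - ⟨1 / 2, b.im⟩)).trans g3
        simpa using this
      have g5 : |s.re - 1 / 2| ≤ b.re := by
        have := (Complex.abs_re_le_norm (s - ⟨1 / 2, b.im⟩)).trans g3
        simpa using this
      have g7 := abs_le.1 g4
      have g8 := abs_le.1 g5
      have g9 := (abs_le.1 (h.strip b g1)).2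
      refine ⟨b, fun _ => ⟨⟨⟨g1, ?_, g6, by linarith⟩, g2⟩, ?_⟩⟩
      · rw [abs_of_pos g2]
        linarith
      · rw [abs_sub_comm]; linarith
    · exact ⟨0, fun h => absurd h hs⟩
  choose g hg using hex
  set N : ℝ := ((Pool.Agent.Y22.RX.S X δ (T + 1) ∩ {b | 0 < b.re}).ncard : ℝ) with hN
  have hNn : 0 ≤ N := Nat.cast_nonneg _
  rw [← Finset.sum_filter_add_sum_filter_not S (fun s => s.im ≤ T0 + 1)]
  have hlow : ∑ s ∈ S with s.im ≤ T0 + 1, (analyticOrderNatAt (deriv Z) s : ℝ) ≤ K0 * N := by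
    rcases (S.filter (fun s => s.im ≤ T0 + 1)).eq_empty_or_nonempty with h0 | ⟨s, hs⟩
    · rw [h0, Finset.sum_empty]
      positivity
    · have h1 : 1 ≤ N := by
        have h2 : 0 < (Pool.Agent.Y22.RX.S X δ (T + 1) ∩ {b | 0 < b.re}).ncard := by
          rw [Set.ncard_pos hfin]
          exact ⟨g s, (hg s (Finset.mem_filter.1 hs).1).1⟩
        have h3 : 1 ≤ (Pool.Agent.Y22.RX.S X δ (T + 1) ∩ {b | 0 < b.re}).ncard := h2
        rw [hN]
        exact_mod_cast h3
      have h2 := h.low_le (T0 + 1) (S.filter (fun s => s.im ≤ T0 + 1)) (fun s hs =>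
        ⟨(hS s (Finset.mem_filter.1 hs).1).1, (Finset.mem_filter.1 hs).2⟩)
      refine h2.trans ?_
      nlinarith
  have hhigh : ∑ s ∈ S with ¬ s.im ≤ T0 + 1, (analyticOrderNatAt (deriv Z) s : ℝ) ≤ 4 * C * Real.log T * N := by
    have hmaps : ∀ s ∈ S.filter (fun s => ¬ s.im ≤ T0 + 1), g s ∈ hfin.toFinset := by
      intro s hs
      rw [Set.Finite.mem_toFinset]
      exact (hg s (Finset.mem_filter.1 hs).1).1
    rw [← Finset.sum_fiberwise_of_maps_to hmaps]
    have h1 : ∀ b ∈ hfin.toFinset, ∑ s ∈ S.filter (fun s => ¬ s.im ≤ T0 + 1) with g s = b,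
        (analyticOrderNatAt (deriv Z) s : ℝ) ≤ 4 * C * Real.log T := by
      intro b hb
      rw [Set.Finite.mem_toFinset] at hb
      rcases ((S.filter (fun s => ¬ s.im ≤ T0 + 1)).filter (fun s => g s = b)).eq_empty_or_nonempty with h0 | ⟨s0, hs0⟩
      · rw [h0, Finset.sum_empty]
        positivity
      · have hb0 : T0 ≤ b.im := by
          obtain ⟨h2, h3⟩ := Finset.mem_filter.1 hs0
          obtain ⟨h4, h5⟩ := Finset.mem_filter.1 h2
          have h6 := abs_le.1 (hg s0 h4).2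
          rw [h3] at h6
          linarith [h6.1]
        refine (hunit b.im hb0 _ ?_).trans ?_
        · intro s hs
          obtain ⟨h2, h3⟩ := Finset.mem_filter.1 hs
          obtain ⟨h4, h5⟩ := Finset.mem_filter.1 h2
          refine ⟨(hS s h4).1, ?_⟩
          rw [← h3]
          exact (hg s h4).2
        · have h4 : Real.log b.im ≤ 4 * Real.log T := by
            have h5 : Real.log b.im ≤ Real.log (T ^ 4) := by
              refine Real.log_le_log (by linarith) ?_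
              have h6 : b.im ≤ T + 1 := hb.1.2.2.2
              have h7 : T + 1 ≤ T ^ 2 := by nlinarith
              have h8 : T ^ 2 ≤ T ^ 4 := by
                apply pow_le_pow_right₀ (by linarith) (by norm_num)
              linarith
            rw [Real.log_pow] at h5
            exact_mod_cast h5
          calc C * Real.log b.im ≤ C * (4 * Real.log T) := by gcongr
            _ = _ := by ring
    refine (Finset.sum_le_sum h1).trans (le_of_eq ?_)
    rw [Finset.sum_const, nsmul_eq_mul, hN, Set.ncard_eq_toFinset_card _ hfin]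
    ring
  have h9 : K0 * N ≤ 2 * K0 * Real.log T * N := by
    have : K0 ≤ 2 * K0 * Real.log T := by nlinarith
    gcongr
  calc _ ≤ K0 * N + 4 * C * Real.log T * N := add_le_add hlow hhigh
    _ ≤ 2 * K0 * Real.log T * N + 4 * C * Real.log T * N := by linarith
    _ = _ := by ring

end SD

end

end Pool.Agent.N831.SX
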