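import Pool.Agent.N831.SX.N
import Pool.Agent.N831.LP.I

set_option autoImplicit false

/-!
# The data for newforms, their twists, and products
-/

namespace Pool.Agent.N831.SX

open UpperHalfPlane hiding I
open MatrixGroups CongruenceSubgroup Filter Topology Complex
open Pool.Agent.Y671.GL
open Pool.Agent.Y771.NF (lm psN frm_newf)
open Pool.Agent.Y693.GL (lx psx frm_tw l2)
open Pool.Agent.W169.HF (IsForm coef)
open Pool.Agent.W355.UN (facE prodE Pk coprime_cond isNewf_of)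
open Pool.Agent.R838.TW (exists_L uniq euler_tw ldata_of lfn_of)
open Pool.Agent.R838.NB (exists_LC euler_twc lxc lmc frm_twc frm_newfC one_val)
open scoped ComplexConjugate

/-- one form -/
theorem pq_fe {k N : ℕ} [NeZero N] {ps lam : ℕ → ℂ} {M Q : ℝ} {F : ℂ → ℂ} (hk : 1 ≤ k) (hM : 1 ≤ M) (hQ : 1 ≤ Q)
    (hFE : W388.FE2 k M Q F) (hf : Frm k N ps lam) (hL : IsL lam F) (hN : Real.sqrt (N : ℝ) = Real.sqrt M * Q) :
    ∃ X : ℂ → ℂ, PQ 1 X F := by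
  obtain ⟨u, v, X, hD, hv, hX⟩ := ldata_of hk hM hQ hFE hf hL
  have hlfn := lfn_of hk hM hQ hFE hf hL
  rw [← hN] at hD
  exact ⟨X, pq_of hk hf hL hD hlfn⟩

section form

variable {N : ℕ} [NeZero N] {k : ℕ} {f : CuspForm (Gamma0 N : Subgroup (GL (Fin 2) ℝ)) (k : ℤ)} {ε : ℝ}
variable {q : ℕ} [NeZero q] {χ : DirichletCharacter ℂ q}

theorem pq_tw (hk : 1 ≤ k) (hf : W388.IsNewf N k f ε) (hχ : χ.IsPrimitive) (hco : Nat.Coprime q N) :
    ∃ X F : ℂ → ℂ, PQ 1 X F ∧ IsL (lx f χ) F := by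
  obtain ⟨F, hFE, hL⟩ := exists_L hk hf hχ hco
  have hfm := frm_tw hk hf hχ hco
  have hN1 : (1 : ℝ) ≤ N := by exact_mod_cast Nat.one_le_iff_ne_zero.2 (NeZero.ne N)
  have hq1 : (1 : ℝ) ≤ q := by exact_mod_cast Nat.one_le_iff_ne_zero.2 (NeZero.ne q)
  haveI : NeZero (N * q ^ 2) := ⟨Nat.mul_ne_zero (NeZero.ne N) (pow_ne_zero _ (NeZero.ne q))⟩
  have hsq : Real.sqrt ((N * q ^ 2 : ℕ) : ℝ) = Real.sqrt N * q := by
    push_cast
    rw [Real.sqrt_mul (by linarith), Real.sqrt_sq (by linarith)]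
  obtain ⟨X, hP⟩ := pq_fe hk hN1 hq1 hFE hfm hL hsq
  exact ⟨X, F, hP, hL⟩

end form

section ec

variable {N : ℕ} [NeZero N] {f : CuspForm (Gamma0 N : Subgroup (GL (Fin 2) ℝ)) 2} {w : ℝ}
variable {q : ℕ} [NeZero q] {χ : DirichletCharacter ℂ q}

/-- the L-series of a twist of `E` -/
noncomputable def serE (f : CuspForm (Gamma0 N : Subgroup (GL (Fin 2) ℝ)) 2) (χ : DirichletCharacter ℂ q) (s : ℂ) : ℂ :=
  ∑' n : ℕ, coef f (n + 1) * χ ((n + 1 : ℕ) : ZMod q) * ((n + 1 : ℕ) : ℂ) ^ (-s)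

/-- **Twists of elliptic curves.** -/
theorem pq_fac (hf : IsForm N f w) (hχ : χ.IsPrimitive) (hco : Nat.Coprime q N) :
    ∃ X F : ℂ → ℂ, PQ 1 X F ∧ Differentiable ℂ F ∧ ∀ s : ℂ, 3 / 2 < s.re → F (s - 1 / 2) = serE f χ s := by
  have hpi := Real.pi_pos
  obtain ⟨X, F, hP, hL⟩ := pq_tw (k := 2) (f := f) (by norm_num) (isNewf_of hf) hχ hco
  have hN0 : (0 : ℝ) < N := by exact_mod_cast Nat.pos_of_ne_zero (NeZero.ne N)
  have hq0 : (0 : ℝ) < q := by exact_mod_cast Nat.pos_of_ne_zero (NeZero.ne q)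
  have hsq : 0 < Real.sqrt N := Real.sqrt_pos.2 hN0
  obtain ⟨c, hc⟩ : ∃ c : ℝ, c = Real.sqrt N * q / (2 * Real.pi) := ⟨_, rfl⟩
  have hcp : 0 < c := by rw [hc]; positivity
  have hcc : (c : ℂ) ≠ 0 := by exact_mod_cast hcp.ne'
  have h00 : W388.lamf f 0 = 0 := by
    have h0 : Frm 2 N (psN N) (lm (k := 2) f) := frm_newf (by norm_num) (isNewf_of hf)
    have h5 : (W388.lamf f 0 : ℂ) = 0 := h0.zero
    exact_mod_cast h5
  have hL' : IsL (l2 f χ) F := hL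
  refine ⟨X, F, hP, hL.diff, fun s hs => ?_⟩
  have h1 := Pool.Agent.Y693.GL.facE_eq hf hL' hs h00
  unfold facE at h1
  have h2 : ((Real.sqrt N * q / (2 * Real.pi) : ℝ) : ℂ) ^ s * Complex.Gamma s ≠ 0 := by
    rw [← hc]
    refine mul_ne_zero ?_ (Complex.Gamma_ne_zero_of_re_pos (by linarith))
    rw [Ne, Complex.cpow_eq_zero_iff]
    exact fun h => hcc h.1
  exact (mul_left_cancel₀ h2 h1).symm

end ec

section ab

variable {M : ℕ} [NeZero M] (G : Subgroup (DirichletCharacter ℂ M)) [Fintype G]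
variable {N : ℕ} [NeZero N] {f : CuspForm (Gamma0 N : Subgroup (GL (Fin 2) ℝ)) 2} {w : ℝ}

/-- **Elliptic curves over abelian number fields.** -/
theorem pq_ab (hf : IsForm N f w) (hco : Nat.Coprime M N) :
    ∃ X F : ℂ → ℂ, PQ (Fintype.card G : ℝ) X F ∧ Differentiable ℂ F ∧
      ∀ s : ℂ, 3 / 2 < s.re → F (s - 1 / 2) = ∏ χ : G, serE f (χ : DirichletCharacter ℂ M).primitiveCharacter s := by
  classical
  have hone : ∀ χ : G, ∃ X F : ℂ → ℂ, PQ 1 X F ∧ Differentiable ℂ F ∧ ∀ s : ℂ, 3 / 2 < s.re →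
      F (s - 1 / 2) = serE f (χ : DirichletCharacter ℂ M).primitiveCharacter s := by
    intro χ
    haveI : NeZero (χ : DirichletCharacter ℂ M).conductor := ⟨DirichletCharacter.conductor_ne_zero _⟩
    exact pq_fac hf (DirichletCharacter.primitiveCharacter_isPrimitive _) (coprime_cond hco _)
  choose X F h1 h2 h3 using hone
  refine ⟨fun w => ∏ χ : G, X χ w, fun w => ∏ χ : G, F χ w, ?_, ?_, fun s hs => ?_⟩
  · have := pq_prod (Finset.univ : Finset G) ⟨1, Finset.mem_univ _⟩ X F fun χ _ => h1 χ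
    rw [Finset.card_univ] at this
    exact this
  · exact Differentiable.fun_finsetProd fun χ _ => h2 χ
  · exact Finset.prod_congr rfl fun χ _ => h3 χ s hs

end ab

section nb

variable {N : ℕ} [NeZero N] {k : ℕ} {ψ : DirichletCharacter ℂ N}
  {f : CuspForm (Gamma1 N : Subgroup (GL (Fin 2) ℝ)) (k : ℤ)} {η : ℂ}
variable {q : ℕ} [NeZero q] {χ : DirichletCharacter ℂ q}

/-- **Twists of newforms with nebentypus.** -/
theorem pq_twc (hk : 1 ≤ k) (hf : W388.IsNewfC N k ψ f η) (hχ : χ.IsPrimitive) (hco : Nat.Coprime q N) :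
    ∃ X F : ℂ → ℂ, PQ 1 X F ∧ IsL (lxc f χ) F := by
  obtain ⟨F, hFE, hL⟩ := exists_LC hk hf hχ hco
  have hfm := frm_twc hk hf hχ hco
  have hN1 : (1 : ℝ) ≤ N := by exact_mod_cast Nat.one_le_iff_ne_zero.2 (NeZero.ne N)
  have hq1 : (1 : ℝ) ≤ q := by exact_mod_cast Nat.one_le_iff_ne_zero.2 (NeZero.ne q)
  haveI : NeZero (N * q ^ 2) := ⟨Nat.mul_ne_zero (NeZero.ne N) (pow_ne_zero _ (NeZero.ne q))⟩
  have hsq : Real.sqrt ((N * q ^ 2 : ℕ) : ℝ) = Real.sqrt N * q := by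
    push_cast
    rw [Real.sqrt_mul (by linarith), Real.sqrt_sq (by linarith)]
  obtain ⟨X, hP⟩ := pq_fe hk hN1 hq1 hFE hfm hL hsq
  exact ⟨X, F, hP, hL⟩

/-- **A newform with nebentypus as a part of the cohomology of degree `i = k - 1 + 2 r`.** -/
theorem pq_new (hk : 1 ≤ k) (hf : W388.IsNewfC N k ψ f η) {i r : ℕ} (hi : k + 2 * r = i + 1) :
    ∃ X F : ℂ → ℂ, PQ 1 X F ∧ Differentiable ℂ F ∧ ∀ s : ℂ, (i : ℝ) / 2 + 1 < s.re →
      HasProd (fun p : Nat.Primes =>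
        (1 - (qExpansion 1 f).coeff p * ((p : ℕ) : ℂ) ^ ((r : ℂ) - s) +
          ψ ((p : ℕ) : ZMod N) * ((p : ℕ) : ℂ) ^ ((i : ℂ) - 2 * s))⁻¹) (F (s - (i : ℂ) / 2)) := by
  obtain ⟨X, F, hP, hL⟩ := pq_twc (q := 1) (χ := 1) hk hf DirichletCharacter.isPrimitive_one_level_one
    (Nat.coprime_one_left N)
  have hir : (k : ℂ) + 2 * r = i + 1 := by exact_mod_cast hi
  have hik : (k : ℂ) = i + 1 - 2 * r := by linear_combination hir
  refine ⟨X, F, hP, hL.diff, fun s hs => ?_⟩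
  have hs' : 1 < (s - (i : ℂ) / 2).re := by
    have e : (s - (i : ℂ) / 2).re = s.re - (i : ℝ) / 2 := by
      rw [Complex.sub_re]
      congr 1
      rw [show ((i : ℂ) / 2) = (((i : ℝ) / 2 : ℝ) : ℂ) by push_cast; ring, Complex.ofReal_re]
    rw [e]
    linarith
  have h1 := euler_twc hk hf hL hs'
  refine h1.congr_fun fun p => ?_
  rw [one_val, one_mul, one_pow, one_mul]
  have hp := p.2
  have hp0 : (0 : ℝ) < (p : ℕ) := by exact_mod_cast hp.pos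
  have hpc : (((p : ℕ)) : ℂ) ≠ 0 := by exact_mod_cast hp.ne_zero
  have e1 : W388.lamC f p * ((p : ℕ) : ℂ) ^ (-(s - (i : ℂ) / 2)) =
      (qExpansion 1 f).coeff p * ((p : ℕ) : ℂ) ^ ((r : ℂ) - s) := by
    unfold W388.lamC
    rw [Complex.ofReal_cpow hp0.le, Complex.ofReal_natCast]
    have e2 : ((((((k : ℕ) : ℤ) : ℝ) - 1) / 2 : ℝ) : ℂ) = ((k : ℂ) - 1) / 2 := by
      push_cast
      ring
    rw [e2, div_mul_eq_mul_div, mul_div_assoc, ← Complex.cpow_sub _ _ hpc]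
    congr 2
    rw [hik]
    ring
  have e3 : ((p : ℕ) : ℂ) ^ ((i : ℂ) - 2 * s) = ((p : ℕ) : ℂ) ^ (-2 * (s - (i : ℂ) / 2)) := by
    congr 1
    ring
  rw [e3, e1]

/-- **Sums of parts.** -/
theorem pq_parts {ι : Type} [Fintype ι] [Nonempty ι] {σ : ℝ} {a : ℂ} (fac : ι → Nat.Primes → ℂ → ℂ)
    (h : ∀ j, ∃ X F : ℂ → ℂ, PQ 1 X F ∧ Differentiable ℂ F ∧ ∀ s : ℂ, σ < s.re →
      HasProd (fun p : Nat.Primes => (fac j p s)⁻¹) (F (s - a))) :
    ∃ X F : ℂ → ℂ, PQ (Fintype.card ι : ℝ) X F ∧ Differentiable ℂ F ∧ ∀ s : ℂ, σ < s.re →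
      HasProd (fun p : Nat.Primes => (∏ j, fac j p s)⁻¹) (F (s - a)) := by
  classical
  choose X F h1 h2 h3 using h
  obtain ⟨j0⟩ := (inferInstance : Nonempty ι)
  refine ⟨fun w => ∏ j, X j w, fun w => ∏ j, F j w, ?_, ?_, fun s hs => ?_⟩
  · have := pq_prod (Finset.univ : Finset ι) ⟨j0, Finset.mem_univ _⟩ X F fun j _ => h1 j
    rw [Finset.card_univ] at this
    exact this
  · exact Differentiable.fun_finsetProd fun χ _ => h2 χ
  · have h6 : HasProd (fun p : Nat.Primes => ∏ j, (fac j p s)⁻¹) (∏ j, F j (s - a)) :=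
      hasProd_prod fun j _ => h3 j s hs
    simpa only [Finset.prod_inv_distrib] using h6

end nb

end Pool.Agent.N831.SX
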