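import Pool.Agent.N831.SX.N

set_option autoImplicit false

/-!
# The sum of the distances to the critical line; density theorems with explicit exponents
-/

namespace Pool.Agent.N831.SX

open Complex Filter Topology Set MeasureTheory Metric

noncomputable section

/-- the sum over the zeros of `F` with `Re s < x`, `B < Im s ≤ T` of the distances to the line `Re s = x` -/
def DistX (F : ℂ → ℂ) (x B T : ℝ) : ℝ := ∑ᶠ s ∈ ZX F x B T, (analyticOrderNatAt F s : ℝ) * (x - s.re)

theorem dist_of {F : ℂ → ℂ} {x B c C T : ℝ} (hc : 0 < c) (hC : 0 < C) (hT : 2 ≤ T) (hfin : (ZX F x B T).Finite)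
    (h : ∀ δ : ℝ, 0 ≤ δ → (NDX F x B δ T : ℝ) ≤ C * T ^ (1 - c * δ) * Real.log T) :
    DistX F x B T ≤ C / (1 - Real.exp (-c)) * T := by
  classical
  have hl : 0 < Real.log T := Real.log_pos (by linarith)
  set L := Real.log T with hL
  have hT0 : 0 < T := by linarith
  set S := hfin.toFinset with hS
  have hS1 : ∀ s ∈ S, s ∈ ZX F x B T := fun s hs => (Set.Finite.mem_toFinset hfin).1 hs
  have hD : DistX F x B T = ∑ s ∈ S, (analyticOrderNatAt F s : ℝ) * (x - s.re) := by
    unfold DistX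
    rw [finsum_mem_eq_finite_toFinset_sum _ hfin]
  obtain ⟨J, hJ⟩ : ∃ J : ℕ, ∀ s ∈ S, (x - s.re) * L ≤ J := by
    refine ⟨∑ s ∈ S, ⌈(x - s.re) * L⌉₊, fun s hs => ?_⟩
    refine (Nat.le_ceil _).trans ?_
    have := Finset.single_le_sum (f := fun s : ℂ => ⌈(x - s.re) * L⌉₊) (fun i _ => Nat.zero_le _) hs
    exact_mod_cast this
  have hnd : ∀ δ : ℝ, 0 ≤ δ → (NDX F x B δ T : ℝ) =
      ∑ s ∈ S.filter (fun s => s.re ≤ x - δ), (analyticOrderNatAt F s : ℝ) := by
    intro δ hδ
    have h1 : ZDX F x B δ T = ↑(S.filter (fun s => s.re ≤ x - δ)) := by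
      ext s
      rw [Finset.mem_coe, Finset.mem_filter, hS, Set.Finite.mem_toFinset]
      constructor
      · rintro ⟨k1, k2, k3, k4, k5⟩
        exact ⟨⟨k1, k2, k4, k5⟩, k3⟩
      · rintro ⟨⟨k1, k2, k4, k5⟩, k3⟩
        exact ⟨k1, k2, k3, k4, k5⟩
    unfold NDX
    rw [h1, finsum_mem_coe_finset]
    push_cast
    rfl
  -- each distance is a sum of indicator functions
  have hpt : ∀ s ∈ S, (x - s.re) * L ≤ ∑ j ∈ Finset.range J, (if s.re ≤ x - j / L then (1 : ℝ) else 0) := by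
    intro s hs
    have hpos : 0 < (x - s.re) * L := mul_pos (by linarith [(hS1 s hs).2.1]) hl
    have h1 : (x - s.re) * L ≤ ⌈(x - s.re) * L⌉₊ := Nat.le_ceil _
    refine h1.trans ?_
    have h2 : ⌈(x - s.re) * L⌉₊ ≤ J := Nat.ceil_le.2 (hJ s hs)
    calc ((⌈(x - s.re) * L⌉₊ : ℕ) : ℝ) = ∑ j ∈ Finset.range ⌈(x - s.re) * L⌉₊, (1 : ℝ) := by simp
      _ ≤ ∑ j ∈ Finset.range ⌈(x - s.re) * L⌉₊, (if s.re ≤ x - j / L then (1 : ℝ) else 0) := by
          refine Finset.sum_le_sum fun j hj => ?_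
          rw [Finset.mem_range] at hj
          have h3 : (j : ℝ) < (x - s.re) * L := Nat.lt_ceil.1 hj
          have h4 : (j : ℝ) / L ≤ x - s.re := by
            rw [div_le_iff₀ hl]
            exact h3.le
          rw [if_pos (by linarith)]
      _ ≤ _ := by
          refine Finset.sum_le_sum_of_subset_of_nonneg (Finset.range_subset_range.2 h2) fun j _ _ => ?_
          split_ifs <;> norm_num
  have h1 : DistX F x B T * L ≤ ∑ j ∈ Finset.range J, (NDX F x B (j / L) T : ℝ) := by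
    rw [hD, Finset.sum_mul]
    calc ∑ s ∈ S, (analyticOrderNatAt F s : ℝ) * (x - s.re) * L
        ≤ ∑ s ∈ S, ∑ j ∈ Finset.range J, (analyticOrderNatAt F s : ℝ) * (if s.re ≤ x - j / L then (1 : ℝ) else 0) := by
          refine Finset.sum_le_sum fun s hs => ?_
          rw [← Finset.mul_sum, mul_assoc]
          exact mul_le_mul_of_nonneg_left (hpt s hs) (Nat.cast_nonneg _)
      _ = ∑ j ∈ Finset.range J, ∑ s ∈ S, (analyticOrderNatAt F s : ℝ) * (if s.re ≤ x - j / L then (1 : ℝ) else 0) :=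
          Finset.sum_comm
      _ = ∑ j ∈ Finset.range J, (NDX F x B (j / L) T : ℝ) := by
          refine Finset.sum_congr rfl fun j _ => ?_
          rw [hnd (j / L) (by positivity), Finset.sum_filter]
          refine Finset.sum_congr rfl fun s _ => ?_
          split_ifs <;> simp
  have hq0 : 0 < Real.exp (-c) := Real.exp_pos _
  have hq1 : Real.exp (-c) < 1 := by
    rw [Real.exp_lt_one_iff]
    linarith
  have h2 : ∑ j ∈ Finset.range J, (NDX F x B (j / L) T : ℝ) ≤ C * T * L * (1 / (1 - Real.exp (-c))) := by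
    calc ∑ j ∈ Finset.range J, (NDX F x B (j / L) T : ℝ)
        ≤ ∑ j ∈ Finset.range J, C * T * L * Real.exp (-c) ^ j := by
          refine Finset.sum_le_sum fun j _ => (h (j / L) (by positivity)).trans (le_of_eq ?_)
          have e1 : T ^ (1 - c * (j / L)) = T * Real.exp (-c) ^ j := by
            rw [Real.rpow_sub hT0, Real.rpow_one, div_eq_mul_inv]
            congr 1
            rw [← Real.rpow_neg hT0.le, Real.rpow_def_of_pos hT0, ← Real.exp_nat_mul]
            congr 1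
            rw [← hL]
            field_simp
          rw [e1]
          ring
      _ = C * T * L * ∑ j ∈ Finset.range J, Real.exp (-c) ^ j := by rw [Finset.mul_sum]
      _ ≤ C * T * L * (1 / (1 - Real.exp (-c))) := by
          apply mul_le_mul_of_nonneg_left _ (by positivity)
          have h3 : Summable fun j : ℕ => Real.exp (-c) ^ j := summable_geometric_of_lt_one hq0.le hq1
          have h4 := h3.sum_le_tsum (Finset.range J) (fun j _ => by positivity)
          rw [tsum_geometric_of_lt_one hq0.le hq1] at h4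
          rw [one_div]
          exact h4
  have h3 : DistX F x B T * L ≤ C / (1 - Real.exp (-c)) * T * L := by
    refine (h1.trans h2).trans (le_of_eq ?_)
    ring
  exact le_of_mul_le_mul_right h3 hl

/-- **The sum of the distances.** -/
theorem ResX.dist {L : ℂ → ℂ} {x B : ℝ} (h : ResX L x B) : ∃ C : ℝ, 0 < C ∧ ∀ T : ℝ, 2 ≤ T →
    DistX (deriv L) x B T ≤ C * T := by
  obtain ⟨c, C, hc, hC, h1⟩ := h.dens
  have hq1 : Real.exp (-c) < 1 := by
    rw [Real.exp_lt_one_iff]
    linarith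
  refine ⟨C / (1 - Real.exp (-c)), div_pos hC (by linarith), fun T hT => ?_⟩
  exact dist_of hc hC hT (h.fin T).2 fun δ hδ => h1 δ T hδ hT

/-- **Density theorems with explicit exponents.** -/
theorem explicit {κ : ℝ} {X Z L : ℂ → ℂ} (h : PQ κ X Z) {x B : ℝ}
    (hL : ∀ s, L s = Z (s - ((x - 1 / 2 : ℝ) : ℂ))) (hR : ResX L x B) {c : ℝ} (hc : c < 1) : ∃ C : ℝ, 0 < C ∧
    ∀ δ T : ℝ, 0 ≤ δ → 2 ≤ T → (NDX (deriv L) x B δ T : ℝ) ≤ C * T ^ (1 - c * δ) * Real.log T ^ 2 := by
  obtain ⟨H, B0, hG, hH, -⟩ := h.dat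
  obtain ⟨C1, hC1, h1⟩ := hR.tran
  obtain ⟨C2, hC2, h2⟩ := h.pl.ncard_S hc
  have hfact : ∀ T : ℝ, 2 ≤ T → ∀ δ : ℝ, 0 ≤ δ → (T + 1) ^ (1 - c * δ) * Real.log (T + 1) ≤
      (2 ^ |1 - c * δ| * 2) * (T ^ (1 - c * δ) * Real.log T) := by
    intro T hT δ hδ
    have hT0 : 0 < T := by linarith
    have hlT : 0 < Real.log T := Real.log_pos (by linarith)
    have e1 : (T + 1) ^ (1 - c * δ) ≤ 2 ^ |1 - c * δ| * T ^ (1 - c * δ) := by
      have e2 : (T + 1) = T * ((T + 1) / T) := by field_simp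
      rw [e2, Real.mul_rpow hT0.le (by positivity), mul_comm]
      apply mul_le_mul_of_nonneg_right _ (by positivity)
      have h3 : 1 ≤ (T + 1) / T := by rw [le_div_iff₀ hT0]; linarith
      have h4 : (T + 1) / T ≤ 2 := by rw [div_le_iff₀ hT0]; linarith
      exact (Real.rpow_le_rpow_of_exponent_le h3 (le_abs_self _)).trans
        (Real.rpow_le_rpow (by linarith) h4 (abs_nonneg _))
    have e3 : Real.log (T + 1) ≤ 2 * Real.log T := by
      have h3 : Real.log (T + 1) ≤ Real.log (T ^ 2) := Real.log_le_log (by linarith) (by nlinarith)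
      rwa [Real.log_pow, Nat.cast_ofNat] at h3
    calc (T + 1) ^ (1 - c * δ) * Real.log (T + 1) ≤ (2 ^ |1 - c * δ| * T ^ (1 - c * δ)) * (2 * Real.log T) := by
          gcongr
          exact Real.log_nonneg (by linarith)
      _ = _ := by ring
  have hNR : ∀ δ T : ℝ, 0 ≤ δ → 2 ≤ T → NRX L x δ T ≤ (Pool.Agent.Y22.RX.S X δ T).ncard := by
    intro δ T hδ hT
    have hfin := (h2 δ T hδ hT).1
    unfold NRX
    have h3 : (fun s : ℂ => s - (x : ℂ)) '' {s : ℂ | L s = 0 ∧ x < s.re ∧ x + δ ≤ s.re ∧ 0 < s.im ∧ s.im ≤ T} ⊆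
        Pool.Agent.Y22.RX.S X δ T := by
      rintro _ ⟨s, ⟨k1, k2, k3, k4, k5⟩, rfl⟩
      have e1 : (s - (x : ℂ)).re = s.re - x := by rw [Complex.sub_re, Complex.ofReal_re]
      have e2 : (s - (x : ℂ)).im = s.im := by rw [Complex.sub_im, Complex.ofReal_im, sub_zero]
      refine ⟨?_, ?_, ?_, ?_⟩
      · rw [hG.cg.cf.eq _ (by rw [e2]; exact k4)]
        have e3 : (1 / 2 + (s - (x : ℂ)) : ℂ) = s - ((x - 1 / 2 : ℝ) : ℂ) := by push_cast; ring
        rw [e3, ← hL, k1, mul_zero]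
      · rw [e1]
        exact (by linarith : δ ≤ s.re - x).trans (le_abs_self _)
      · rw [e2]; exact k4
      · rw [e2]; exact k5
    rw [← Set.ncard_image_of_injective _ (sub_left_injective (b := (x : ℂ)))]
    exact Set.ncard_le_ncard h3 hfin
  -- for large `δ` there are no zeros
  have hbig : ∀ δ T : ℝ, 1 < δ → (NRX L x δ T : ℝ) = 0 := by
    intro δ T hδ
    have h3 : {s : ℂ | L s = 0 ∧ x < s.re ∧ x + δ ≤ s.re ∧ 0 < s.im ∧ s.im ≤ T} = ∅ := by
      rw [Set.eq_empty_iff_forall_notMem]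
      rintro s ⟨k1, k2, k3, k4, k5⟩
      have e1 : (s - (x : ℂ)).re = s.re - x := by rw [Complex.sub_re, Complex.ofReal_re]
      have e2 : (s - (x : ℂ)).im = s.im := by rw [Complex.sub_im, Complex.ofReal_im, sub_zero]
      have h4 : X (s - (x : ℂ)) = 0 := by
        rw [hG.cg.cf.eq _ (by rw [e2]; exact k4)]
        have e3 : (1 / 2 + (s - (x : ℂ)) : ℂ) = s - ((x - 1 / 2 : ℝ) : ℂ) := by push_cast; ring
        rw [e3, ← hL, k1, mul_zero]
      have h5 := h.pl.strip _ h4
      rw [e1] at h5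
      have h6 := le_abs_self (s.re - x)
      linarith
    unfold NRX
    rw [h3, Set.ncard_empty, Nat.cast_zero]
  refine ⟨C1 * (C2 * (2 ^ (1 + |c|) * 2)), by positivity, fun δ T hδ hT => ?_⟩
  have hT0 : 0 < T := by linarith
  have hlT : 0 < Real.log T := Real.log_pos (by linarith)
  refine (h1 δ T hδ hT).trans ?_
  rcases le_or_gt δ 1 with hd | hd
  · have h3 : (NRX L x δ (T + 1) : ℝ) ≤ C2 * (T + 1) ^ (1 - c * δ) * Real.log (T + 1) := by
      refine le_trans ?_ (h2 δ (T + 1) hδ (by linarith)).2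
      exact_mod_cast hNR δ (T + 1) hδ (by linarith)
    have h4 := hfact T hT δ hδ
    have h5 : (2 : ℝ) ^ |1 - c * δ| ≤ 2 ^ (1 + |c|) := by
      apply Real.rpow_le_rpow_of_exponent_le (by norm_num)
      calc |1 - c * δ| ≤ |(1 : ℝ)| + |c * δ| := abs_sub _ _
        _ ≤ 1 + |c| := by
          rw [abs_one, abs_mul, abs_of_nonneg hδ]
          have := mul_le_mul_of_nonneg_left hd (abs_nonneg c)
          linarith
    calc C1 * Real.log T * NRX L x δ (T + 1)
        ≤ C1 * Real.log T * (C2 * (T + 1) ^ (1 - c * δ) * Real.log (T + 1)) := by gcongr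
      _ = C1 * Real.log T * (C2 * ((T + 1) ^ (1 - c * δ) * Real.log (T + 1))) := by ring
      _ ≤ C1 * Real.log T * (C2 * ((2 ^ |1 - c * δ| * 2) * (T ^ (1 - c * δ) * Real.log T))) := by gcongr
      _ ≤ C1 * Real.log T * (C2 * ((2 ^ (1 + |c|) * 2) * (T ^ (1 - c * δ) * Real.log T))) := by gcongr
      _ = _ := by ring
  · rw [hbig δ (T + 1) hd, mul_zero]
    positivity

end

end Pool.Agent.N831.SX
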