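import Pool.Agent.H370R2.Local

set_option autoImplicit false

/-!
# Variation of the argument along a horizontal segment
-/

namespace Pool.Agent.N831.SX

open Complex Filter Topology Set MeasureTheory Metric
open H370.Loc (Pf Pf_cons Pf_zero Pf_diff Pf_ne_zero Pf_norm_ge Pf_norm_le extract logDeriv_zero_free)

noncomputable section

lemma mk_eq (x y : ℝ) : (⟨x, y⟩ : ℂ) = (x : ℂ) + y * I := by
  apply Complex.ext <;> simp

lemma cont_mk (y : ℝ) : Continuous fun x : ℝ => (⟨x, y⟩ : ℂ) := by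
  have : (fun x : ℝ => (⟨x, y⟩ : ℂ)) = fun x : ℝ => (x : ℂ) + y * I := funext fun x => mk_eq x y
  rw [this]
  fun_prop

/-- the angle under which a segment is seen from a point -/
lemma int_inv {x1 x2 y : ℝ} {ρ : ℂ} (h12 : x1 ≤ x2) (hne : ∀ x ∈ Icc x1 x2, (⟨x, y⟩ : ℂ) ≠ ρ) :
    |(∫ x in x1..x2, 1 / ((⟨x, y⟩ : ℂ) - ρ)).im| ≤ Real.pi := by
  have hpi := Real.pi_pos
  have hcont : ContinuousOn (fun x : ℝ => 1 / ((⟨x, y⟩ : ℂ) - ρ)) (uIcc x1 x2) := by
    rw [uIcc_of_le h12]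
    intro x hx
    exact (continuousAt_const.div ((cont_mk y).continuousAt.sub continuousAt_const)
      (sub_ne_zero.2 (hne x hx))).continuousWithinAt
  have hint : IntervalIntegrable (fun x : ℝ => 1 / ((⟨x, y⟩ : ℂ) - ρ)) volume x1 x2 := hcont.intervalIntegrable
  have e1 : (∫ x in x1..x2, 1 / ((⟨x, y⟩ : ℂ) - ρ)).im = ∫ x in x1..x2, (1 / ((⟨x, y⟩ : ℂ) - ρ)).im :=
    (Complex.imCLM.intervalIntegral_comp_comm hint).symm
  rw [e1]
  obtain ⟨b, hb⟩ : ∃ b : ℝ, b = y - ρ.im := ⟨_, rfl⟩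
  have e2 : ∀ x : ℝ, (1 / ((⟨x, y⟩ : ℂ) - ρ)).im = -b / ((x - ρ.re) ^ 2 + b ^ 2) := by
    intro x
    rw [one_div, Complex.inv_im, Complex.normSq_apply, Complex.sub_re, Complex.sub_im, ← hb]
    simp only
    congr 1
    ring
  simp only [e2]
  rcases eq_or_ne b 0 with h0 | h0
  · simp only [h0, neg_zero, zero_div, intervalIntegral.integral_zero, abs_zero]
    exact hpi.le
  · have hd : ∀ x : ℝ, HasDerivAt (fun x : ℝ => -Real.arctan ((x - ρ.re) / b))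
        (-b / ((x - ρ.re) ^ 2 + b ^ 2)) x := by
      intro x
      have h1 : HasDerivAt (fun x : ℝ => (x - ρ.re) / b) (1 / b) x := ((hasDerivAt_id x).sub_const _).div_const b
      refine (h1.arctan.neg).congr_deriv ?_
      have h2 : 0 < (x - ρ.re) ^ 2 + b ^ 2 := by positivity
      have h3 : 0 < 1 + ((x - ρ.re) / b) ^ 2 := by positivity
      have h4 : b ^ 2 + (x - ρ.re) ^ 2 ≠ 0 := by positivity
      field_simp
      ring
    have hc : IntervalIntegrable (fun x : ℝ => -b / ((x - ρ.re) ^ 2 + b ^ 2)) volume x1 x2 := by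
      apply Continuous.intervalIntegrable
      refine continuous_const.div (by fun_prop) fun x => ?_
      positivity
    rw [intervalIntegral.integral_eq_sub_of_hasDerivAt (fun x _ => hd x) hc]
    have a1 := Real.arctan_lt_pi_div_two ((x1 - ρ.re) / b)
    have a2 := Real.neg_pi_div_two_lt_arctan ((x1 - ρ.re) / b)
    have a3 := Real.arctan_lt_pi_div_two ((x2 - ρ.re) / b)
    have a4 := Real.neg_pi_div_two_lt_arctan ((x2 - ρ.re) / b)
    rw [abs_le]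
    constructor <;> linarith

lemma Pf_ld_cont {s : Multiset ℂ} {x1 x2 y : ℝ} (h12 : x1 ≤ x2)
    (hne : ∀ ρ ∈ s, ∀ x ∈ Icc x1 x2, (⟨x, y⟩ : ℂ) ≠ ρ) :
    ContinuousOn (fun x : ℝ => logDeriv (Pf s) ⟨x, y⟩) (uIcc x1 x2) := by
  rw [uIcc_of_le h12]
  intro x hx
  have h1 : AnalyticAt ℂ (Pf s) ⟨x, y⟩ := (Pf_diff s).analyticAt _
  have h2 : Pf s ⟨x, y⟩ ≠ 0 := Pf_ne_zero fun ρ hρ => hne ρ hρ x hx
  have h3 : ContinuousAt (logDeriv (Pf s)) ⟨x, y⟩ := h1.deriv.continuousAt.div h1.continuousAt h2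
  exact (h3.comp (f := fun x : ℝ => (⟨x, y⟩ : ℂ)) (cont_mk y).continuousAt).continuousWithinAt

lemma int_Pf {x1 x2 y : ℝ} (h12 : x1 ≤ x2) (s : Multiset ℂ)
    (hne : ∀ ρ ∈ s, ∀ x ∈ Icc x1 x2, (⟨x, y⟩ : ℂ) ≠ ρ) :
    |(∫ x in x1..x2, logDeriv (Pf s) ⟨x, y⟩).im| ≤ Real.pi * Multiset.card s := by
  induction s using Multiset.induction_on with
  | empty =>
    have : Pf 0 = fun _ => (1 : ℂ) := funext Pf_zero
    rw [this]
    simp [logDeriv]
  | cons ρ s ih =>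
    have hs : ∀ ρ ∈ s, ∀ x ∈ Icc x1 x2, (⟨x, y⟩ : ℂ) ≠ ρ := fun ρ' h' => hne ρ' (Multiset.mem_cons_of_mem h')
    have hρ : ∀ x ∈ Icc x1 x2, (⟨x, y⟩ : ℂ) ≠ ρ := hne ρ (Multiset.mem_cons_self ρ s)
    have e1 : ∀ x ∈ uIcc x1 x2, logDeriv (Pf (ρ ::ₘ s)) ⟨x, y⟩ = 1 / ((⟨x, y⟩ : ℂ) - ρ) + logDeriv (Pf s) ⟨x, y⟩ := by
      intro x hx
      rw [uIcc_of_le h12] at hx
      have e : Pf (ρ ::ₘ s) = fun z => (z - ρ) * Pf s z := funext (Pf_cons ρ s)
      have hP : Pf s ⟨x, y⟩ ≠ 0 := Pf_ne_zero fun ρ' h' => hs ρ' h' x hx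
      rw [e]
      have e3 : logDeriv (fun z => (z - ρ) * Pf s z) ⟨x, y⟩ =
          logDeriv (fun z => z - ρ) ⟨x, y⟩ + logDeriv (Pf s) ⟨x, y⟩ :=
        logDeriv_mul _ (sub_ne_zero.2 (hρ x hx)) hP (differentiableAt_id.sub_const ρ) (Pf_diff s _)
      rw [e3]
      congr 1
      rw [logDeriv_apply]
      congr 1
      simp
    rw [intervalIntegral.integral_congr e1]
    have hc1 : ContinuousOn (fun x : ℝ => 1 / ((⟨x, y⟩ : ℂ) - ρ)) (uIcc x1 x2) := by
      rw [uIcc_of_le h12]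
      intro x hx
      exact (continuousAt_const.div ((cont_mk y).continuousAt.sub continuousAt_const)
        (sub_ne_zero.2 (hρ x hx))).continuousWithinAt
    rw [intervalIntegral.integral_add hc1.intervalIntegrable (Pf_ld_cont h12 hs).intervalIntegrable,
      Complex.add_im, Multiset.card_cons]
    have h1 := int_inv h12 hρ
    have h2 := ih hs
    push_cast
    calc _ ≤ |(∫ x in x1..x2, 1 / ((⟨x, y⟩ : ℂ) - ρ)).im| + |(∫ x in x1..x2, logDeriv (Pf s) ⟨x, y⟩).im| :=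
          abs_add_le _ _
      _ ≤ Real.pi + Real.pi * Multiset.card s := add_le_add h1 h2
      _ = _ := by ring

/-- the factorisation in Landau's lemma -/
lemma decomp {f : ℂ → ℂ} {c : ℂ} {r r1 r2 R M : ℝ} (hr2 : 0 < r2) (h21 : r2 < r1)
    (h1r : r1 < r) (hrR : r < R) (hRr : R ≤ 2 * r) (hM : 1 ≤ M) (hMf : ‖f c‖ ≤ M)
    (hf : AnalyticOnNhd ℂ f (closedBall c R)) (hc : f c ≠ 0)
    (hb : ∀ z ∈ closedBall c R, ‖f z‖ ≤ M) :
    ∃ (s : Multiset ℂ) (g : ℂ → ℂ), (∀ ρ ∈ s, f ρ = 0) ∧ AnalyticOnNhd ℂ g (closedBall c R) ∧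
      (∀ z, f z = Pf s z * g z) ∧ (∀ z ∈ closedBall c r, g z ≠ 0) ∧
      (Multiset.card s : ℝ) ≤ Real.log (M / ‖f c‖) / Real.log (R / r) ∧
      ∀ z ∈ closedBall c r2, ‖logDeriv g z‖ ≤
        2 * (Real.log (M / ‖f c‖) + Real.log (M / ‖f c‖) / Real.log (R / r) *
          Real.log (r / (R - r)) + 1) * r1 / (r - r1) / (r1 - r2) := by
  have hr : 0 < r := by linarith
  have hR : 0 < R := by linarith
  obtain ⟨s, g, hs, hg, hfg, hg0, hcard⟩ := extract hr hrR hM hf hc hb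
  refine ⟨s, g, fun ρ hρ => (hs ρ hρ).2, hg, hfg, hg0, hcard, ?_⟩
  intro z hz
  have hcr : c ∈ closedBall c r := mem_closedBall_self hr.le
  have hcR : c ∈ closedBall c R := mem_closedBall_self hR.le
  have hfc : 0 < ‖f c‖ := norm_pos_iff.2 hc
  set n := Multiset.card s with hn
  have hlogM : 0 ≤ Real.log (M / ‖f c‖) := Real.log_nonneg (by rw [le_div_iff₀ hfc]; linarith)
  have hRr0 : 0 < R - r := by linarith
  have hq : 1 ≤ r / (R - r) := by rw [le_div_iff₀ hRr0]; linarith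
  have hlogq : 0 ≤ Real.log (r / (R - r)) := Real.log_nonneg hq
  have hgsphere : ∀ w ∈ sphere c R, ‖g w‖ ≤ M / (R - r) ^ n := by
    intro w hw
    have hwR := sphere_subset_closedBall hw
    have h1 : (R - r) ^ n ≤ ‖Pf s w‖ := Pf_norm_ge hRr0.le fun ρ hρ => by
      have h2 := (hs ρ hρ).1
      rw [mem_closedBall, dist_eq_norm] at h2
      rw [mem_sphere, dist_eq_norm] at hw
      have h3 : ‖w - c‖ ≤ ‖w - ρ‖ + ‖ρ - c‖ := by
        calc ‖w - c‖ = ‖(w - ρ) + (ρ - c)‖ := by congr 1; ring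
          _ ≤ _ := norm_add_le _ _
      linarith
    rw [le_div_iff₀ (by positivity)]
    calc ‖g w‖ * (R - r) ^ n ≤ ‖g w‖ * ‖Pf s w‖ := mul_le_mul_of_nonneg_left h1 (norm_nonneg _)
      _ = ‖f w‖ := by rw [hfg w, norm_mul, mul_comm]
      _ ≤ M := hb w hwR
  have hgball : ∀ w ∈ closedBall c R, ‖g w‖ ≤ M / (R - r) ^ n := by
    intro w hw
    refine Complex.norm_le_of_forall_mem_frontier_norm_le (U := ball c R) isBounded_ball ?_ ?_ ?_
    · apply DifferentiableOn.diffContOnCl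
      rw [closure_ball c hR.ne']
      exact fun x hx => (hg x hx).differentiableAt.differentiableWithinAt
    · intro x hx
      rw [frontier_ball c hR.ne'] at hx
      exact hgsphere x hx
    · rwa [closure_ball c hR.ne']
  have hgc : ‖f c‖ / r ^ n ≤ ‖g c‖ := by
    rw [div_le_iff₀ (by positivity)]
    have h1 : ‖Pf s c‖ ≤ r ^ n := Pf_norm_le fun ρ hρ => by
      have h2 := (hs ρ hρ).1
      rw [mem_closedBall, dist_eq_norm, norm_sub_rev] at h2
      exact h2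
    calc ‖f c‖ = ‖g c‖ * ‖Pf s c‖ := by rw [hfg c, norm_mul, mul_comm]
      _ ≤ ‖g c‖ * r ^ n := mul_le_mul_of_nonneg_left h1 (norm_nonneg _)
  set B : ℝ := Real.log (M / ‖f c‖) + n * Real.log (r / (R - r)) with hB
  have hB0 : 0 ≤ B := by positivity
  have hMpos : 0 < M := by linarith
  have hexpB : Real.exp B = M / ‖f c‖ * (r / (R - r)) ^ n := by
    rw [hB, Real.exp_add, Real.exp_log (by positivity), Real.exp_nat_mul,
      Real.exp_log (by positivity)]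
  have hgb : ∀ w ∈ closedBall c r, ‖g w‖ ≤ Real.exp B * ‖g c‖ := by
    intro w hw
    refine (hgball w (closedBall_subset_closedBall hrR.le hw)).trans ?_
    rw [hexpB]
    calc M / (R - r) ^ n = M / ‖f c‖ * (r / (R - r)) ^ n * (‖f c‖ / r ^ n) := by
          rw [div_pow]; field_simp
      _ ≤ _ := mul_le_mul_of_nonneg_left hgc (by positivity)
  have hlg := logDeriv_zero_free hr2 h21 h1r hB0
    (hg.mono (closedBall_subset_closedBall hrR.le)) hg0 hgb hz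
  refine hlg.trans ?_
  have h8 : B ≤ Real.log (M / ‖f c‖) + Real.log (M / ‖f c‖) / Real.log (R / r) *
        Real.log (r / (R - r)) := by
    rw [hB]
    have := mul_le_mul_of_nonneg_right hcard hlogq
    linarith
  have h9 : 0 < r - r1 := by linarith
  have h10 : 0 < r1 - r2 := by linarith
  have h11 : 0 < r1 := by linarith
  gcongr

/-- **Variation of the argument along a segment in a disc.** -/
theorem seg {f : ℂ → ℂ} {c : ℂ} {ρ Λ : ℝ} (hρ : 0 < ρ) (hΛ : 0 ≤ Λ)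
    (hf : AnalyticOnNhd ℂ f (closedBall c (4 * ρ))) (hc : f c ≠ 0)
    (hb : ∀ z ∈ closedBall c (4 * ρ), ‖f z‖ ≤ Real.exp Λ * ‖f c‖) {x1 x2 y : ℝ} (h12 : x1 ≤ x2)
    (hseg : ∀ x ∈ Icc x1 x2, (⟨x, y⟩ : ℂ) ∈ closedBall c (3 / 2 * ρ) ∧ f ⟨x, y⟩ ≠ 0) :
    |(∫ x in x1..x2, deriv f ⟨x, y⟩ / f ⟨x, y⟩).im| ≤ 300 * Λ + 30 := by
  have hfc : 0 < ‖f c‖ := norm_pos_iff.2 hc
  -- normalisation
  obtain ⟨F, hF⟩ : ∃ F : ℂ → ℂ, F = fun z => (f c)⁻¹ * f z := ⟨_, rfl⟩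
  have hFc : F c = 1 := by rw [hF]; exact inv_mul_cancel₀ hc
  have hFan : AnalyticOnNhd ℂ F (closedBall c (4 * ρ)) := by
    rw [hF]; exact fun z hz => analyticAt_const.mul (hf z hz)
  have hFb : ∀ z ∈ closedBall c (4 * ρ), ‖F z‖ ≤ Real.exp Λ := by
    intro z hz
    rw [hF]
    simp only
    rw [norm_mul, norm_inv, inv_mul_le_iff₀ hfc, mul_comm]
    exact hb z hz
  have hM : 1 ≤ Real.exp Λ := Real.one_le_exp hΛ
  obtain ⟨s, g, hs, hg, hfg, hg0, hcard, hlg⟩ := decomp (f := F) (c := c) (r := 3 * ρ) (r1 := 2 * ρ)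
    (r2 := 3 / 2 * ρ) (R := 4 * ρ) (M := Real.exp Λ) (by linarith) (by linarith) (by linarith) (by linarith)
    (by linarith) hM (by rw [hFc, norm_one]; exact hM) hFan (by rw [hFc]; exact one_ne_zero) hFb
  rw [hFc, norm_one, div_one, Real.log_exp] at hcard hlg
  have e43 : (4 * ρ) / (3 * ρ) = 4 / 3 := by field_simp
  have e31 : (3 * ρ) / (4 * ρ - 3 * ρ) = 3 := by
    rw [show 4 * ρ - 3 * ρ = ρ by ring]; field_simp
  rw [e43] at hcard hlg
  rw [e31] at hlg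
  have hl43 : 1 / 4 ≤ Real.log (4 / 3) := by
    have := Real.one_sub_inv_le_log_of_pos (show (0:ℝ) < 4 / 3 by norm_num)
    norm_num at this ⊢
    exact this
  have hl3 : Real.log 3 ≤ 2 := by
    have := Real.log_le_sub_one_of_pos (show (0:ℝ) < 3 by norm_num)
    linarith
  have hl30 : 0 ≤ Real.log 3 := Real.log_nonneg (by norm_num)
  have hn : (Multiset.card s : ℝ) ≤ 4 * Λ := by
    refine hcard.trans ?_
    rw [div_le_iff₀ (by linarith)]
    nlinarith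
  have hq : Λ / Real.log (4 / 3) ≤ 4 * Λ := by
    rw [div_le_iff₀ (by linarith)]
    nlinarith
  have hL : ∀ z ∈ closedBall c (3 / 2 * ρ), ‖logDeriv g z‖ ≤ 8 * (9 * Λ + 1) / ρ := by
    intro z hz
    refine (hlg z hz).trans ?_
    have e : 2 * (Λ + Λ / Real.log (4 / 3) * Real.log 3 + 1) * (2 * ρ) / (3 * ρ - 2 * ρ) / (2 * ρ - 3 / 2 * ρ) =
        8 * (Λ + Λ / Real.log (4 / 3) * Real.log 3 + 1) / ρ := by
      rw [show 3 * ρ - 2 * ρ = ρ by ring, show 2 * ρ - 3 / 2 * ρ = ρ / 2 by ring]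
      field_simp
      ring
    rw [e]
    have h1 : Λ / Real.log (4 / 3) * Real.log 3 ≤ 4 * Λ * 2 :=
      mul_le_mul hq hl3 hl30 (by linarith)
    gcongr
    linarith
  -- the segment
  have hball : closedBall c (3 / 2 * ρ) ⊆ closedBall c (3 * ρ) := closedBall_subset_closedBall (by linarith)
  have hball4 : closedBall c (3 / 2 * ρ) ⊆ closedBall c (4 * ρ) := closedBall_subset_closedBall (by linarith)
  have hne : ∀ ρ' ∈ s, ∀ x ∈ Icc x1 x2, (⟨x, y⟩ : ℂ) ≠ ρ' := by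
    intro ρ' h' x hx he
    have h1 := hs ρ' h'
    rw [← he, hF] at h1
    exact (hseg x hx).2 ((mul_eq_zero.1 h1).resolve_left (inv_ne_zero hc))
  have e0 : ∀ x ∈ uIcc x1 x2, deriv f ⟨x, y⟩ / f ⟨x, y⟩ = logDeriv (Pf s) ⟨x, y⟩ + logDeriv g ⟨x, y⟩ := by
    intro x hx
    rw [uIcc_of_le h12] at hx
    obtain ⟨h1, h2⟩ := hseg x hx
    have h3 : f = fun z => f c * (Pf s z * g z) := by
      funext z
      rw [← hfg z, hF]
      simp only
      rw [mul_inv_cancel_left₀ hc]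
    have h4 : Pf s ⟨x, y⟩ ≠ 0 := Pf_ne_zero fun ρ' h' => hne ρ' h' x hx
    have h5 := hg0 _ (hball h1)
    have h6 := (hg _ (hball4 h1)).differentiableAt
    rw [← logDeriv_apply]
    conv_lhs => rw [h3]
    rw [logDeriv_const_mul _ _ hc]
    exact logDeriv_mul _ h4 h5 (Pf_diff s _) h6
  rw [intervalIntegral.integral_congr e0]
  have hgc : ContinuousOn (fun x : ℝ => logDeriv g ⟨x, y⟩) (uIcc x1 x2) := by
    rw [uIcc_of_le h12]
    intro x hx
    obtain ⟨h1, h2⟩ := hseg x hx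
    have h3 := hg _ (hball4 h1)
    have h4 : ContinuousAt (logDeriv g) ⟨x, y⟩ := h3.deriv.continuousAt.div h3.continuousAt (hg0 _ (hball h1))
    exact (h4.comp (f := fun x : ℝ => (⟨x, y⟩ : ℂ)) (cont_mk y).continuousAt).continuousWithinAt
  rw [intervalIntegral.integral_add (Pf_ld_cont h12 hne).intervalIntegrable hgc.intervalIntegrable, Complex.add_im]
  have b1 := int_Pf h12 s hne
  have hlen : x2 - x1 ≤ 3 * ρ := by
    have h1 := (hseg x1 (left_mem_Icc.2 h12)).1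
    have h2 := (hseg x2 (right_mem_Icc.2 h12)).1
    rw [mem_closedBall, dist_eq_norm] at h1 h2
    have h3 := (Complex.abs_re_le_norm _).trans h1
    have h4 := (Complex.abs_re_le_norm _).trans h2
    simp only [Complex.sub_re] at h3 h4
    rw [abs_le] at h3 h4
    linarith [h3.1, h4.2]
  have b2 : |(∫ x in x1..x2, logDeriv g ⟨x, y⟩).im| ≤ 8 * (9 * Λ + 1) / ρ * (x2 - x1) := by
    refine (Complex.abs_im_le_norm _).trans ?_
    have := intervalIntegral.norm_integral_le_of_norm_le_const (a := x1) (b := x2)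
      (f := fun x : ℝ => logDeriv g ⟨x, y⟩) (C := 8 * (9 * Λ + 1) / ρ) (fun x hx => by
        rw [uIoc_of_le h12] at hx
        exact hL _ (hseg x ⟨hx.1.le, hx.2⟩).1)
    rwa [abs_of_nonneg (by linarith)] at this
  have b3 : 8 * (9 * Λ + 1) / ρ * (x2 - x1) ≤ 24 * (9 * Λ + 1) := by
    calc 8 * (9 * Λ + 1) / ρ * (x2 - x1) ≤ 8 * (9 * Λ + 1) / ρ * (3 * ρ) := by gcongr
      _ = 24 * (9 * Λ + 1) := by field_simp; ring
  have hpi : Real.pi ≤ 4 := Real.pi_le_four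
  have b4 : Real.pi * (Multiset.card s : ℝ) ≤ 4 * (4 * Λ) :=
    mul_le_mul hpi hn (Nat.cast_nonneg _) (by norm_num)
  calc |(∫ x in x1..x2, logDeriv (Pf s) ⟨x, y⟩).im + (∫ x in x1..x2, logDeriv g ⟨x, y⟩).im|
      ≤ |(∫ x in x1..x2, logDeriv (Pf s) ⟨x, y⟩).im| + |(∫ x in x1..x2, logDeriv g ⟨x, y⟩).im| := abs_add_le _ _
    _ ≤ 4 * (4 * Λ) + 24 * (9 * Λ + 1) := add_le_add (b1.trans b4) (b2.trans b3)
    _ ≤ 300 * Λ + 30 := by linarith

end

end Pool.Agent.N831.SX
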