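import Pool.Agent.N831.SX.A
import Pool.Agent.N831.SP.D

set_option autoImplicit false

/-!
# The argument principle with an error from two horizontal segments
-/

namespace Pool.Agent.N831.SX

open Complex Filter Topology Set MeasureTheory
open H370 (RI Bd ii_h ii_v mult)
open Pool.Agent.N831.SP (hasDerivAt_h hasDerivAt_v logderiv_mul_of)

noncomputable section

lemma im_log_le {z : ℂ} (h : 0 ≤ z.re) : |(Complex.log z).im| ≤ Real.pi / 2 := by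
  rw [Complex.log_im]
  exact Complex.abs_arg_le_pi_div_two_iff.2 h

/-- the boundary integral of the logarithmic derivative -/
theorem RI_log {a b c d p q : ℝ} (hcd : c < d) (hap : a ≤ p) (hpb : p ≤ b) (haq : a ≤ q)
    (hqb : q ≤ b) {W : ℂ → ℂ} (hW : ∀ s ∈ Bd a b c d, AnalyticAt ℂ W s ∧ W s ≠ 0)
    (hs : ∀ s ∈ Bd a b c d, (s.im = c → s.re ≤ p ∨ s.re = b) → (s.im = d → s.re ≤ q ∨ s.re = b) → 0 ≤ (W s).re) :
    |(RI a b c d (fun s => deriv W s / W s)).im| ≤ 2 * Real.pi +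
      |(∫ x in p..b, deriv W ⟨x, c⟩ / W ⟨x, c⟩).im| + |(∫ x in q..b, deriv W ⟨x, d⟩ / W ⟨x, d⟩).im| := by
  have hab : a ≤ b := hap.trans hpb
  have hcont : ContinuousOn (fun s => deriv W s / W s) (Bd a b c d) := by
    intro s hs
    obtain ⟨h1, h2⟩ := hW s hs
    exact (h1.deriv.continuousAt.div h1.continuousAt h2).continuousWithinAt
  have hslit : ∀ s ∈ Bd a b c d, 0 ≤ (W s).re → W s ∈ slitPlane := by
    intro s hs h1
    rw [Complex.mem_slitPlane_iff]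
    rcases h1.eq_or_lt with h | h
    · right
      intro h4
      exact (hW s hs).2 (Complex.ext h.symm h4)
    · left; exact h
  have hcm : (⟨a, c⟩ : ℂ) ∈ Bd a b c d := Or.inl ⟨⟨le_rfl, hab⟩, Or.inl rfl⟩
  -- membership
  have mc : ∀ x ∈ Icc a b, (⟨x, c⟩ : ℂ) ∈ Bd a b c d := fun x hx => Or.inl ⟨hx, Or.inl rfl⟩
  have md : ∀ x ∈ Icc a b, (⟨x, d⟩ : ℂ) ∈ Bd a b c d := fun x hx => Or.inl ⟨hx, Or.inr rfl⟩
  have ma : ∀ y ∈ Icc c d, (⟨a, y⟩ : ℂ) ∈ Bd a b c d := fun y hy => Or.inr ⟨hy, Or.inl rfl⟩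
  have mb : ∀ y ∈ Icc c d, (⟨b, y⟩ : ℂ) ∈ Bd a b c d := fun y hy => Or.inr ⟨hy, Or.inr rfl⟩
  -- sign
  have sc : ∀ x, a ≤ x → x ≤ p → 0 ≤ (W ⟨x, c⟩).re := fun x h1 h2 =>
    hs _ (mc x ⟨h1, h2.trans hpb⟩) (fun _ => Or.inl h2) (fun h => absurd h hcd.ne)
  have sd : ∀ x, a ≤ x → x ≤ q → 0 ≤ (W ⟨x, d⟩).re := fun x h1 h2 =>
    hs _ (md x ⟨h1, h2.trans hqb⟩) (fun h => absurd h hcd.ne') (fun _ => Or.inl h2)
  have sa : ∀ y ∈ Icc c d, 0 ≤ (W ⟨a, y⟩).re := fun y hy =>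
    hs _ (ma y hy) (fun _ => Or.inl hap) (fun _ => Or.inl haq)
  have sb : ∀ y ∈ Icc c d, 0 ≤ (W ⟨b, y⟩).re := fun y hy =>
    hs _ (mb y hy) (fun _ => Or.inr rfl) (fun _ => Or.inr rfl)
  have iic := ii_h hab hcont (Or.inl rfl : c = c ∨ c = d)
  have iid := ii_h hab hcont (Or.inr rfl : d = c ∨ d = d)
  have sub1 : ∀ {e : ℝ} {u v : ℝ}, IntervalIntegrable (fun x : ℝ => deriv W ⟨x, e⟩ / W ⟨x, e⟩) volume a b →
      a ≤ u → u ≤ v → v ≤ b → IntervalIntegrable (fun x : ℝ => deriv W ⟨x, e⟩ / W ⟨x, e⟩) volume u v := by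
    intro e u v h h1 h2 h3
    refine h.mono_set ?_
    rw [uIcc_of_le h2, uIcc_of_le hab]
    exact Icc_subset_Icc h1 h3
  have hh : ∀ (e u : ℝ), (e = c ∨ e = d) → a ≤ u → u ≤ b → (∀ x, a ≤ x → x ≤ u → 0 ≤ (W ⟨x, e⟩).re) →
      IntervalIntegrable (fun x : ℝ => deriv W ⟨x, e⟩ / W ⟨x, e⟩) volume a b →
      ∫ x in a..u, deriv W ⟨x, e⟩ / W ⟨x, e⟩ = log (W ⟨u, e⟩) - log (W ⟨a, e⟩) := by
    intro e u he hau hub hre hii
    refine intervalIntegral.integral_eq_sub_of_hasDerivAt (f := fun x : ℝ => log (W ⟨x, e⟩))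
      (fun x hx => ?_) (sub1 hii le_rfl hau hub)
    rw [uIcc_of_le hau] at hx
    have hm : (⟨x, e⟩ : ℂ) ∈ Bd a b c d := Or.inl ⟨⟨hx.1, hx.2.trans hub⟩, he⟩
    exact hasDerivAt_h (hW _ hm).1 (hslit _ hm (hre x hx.1 hx.2))
  have hv : ∀ e : ℝ, (e = a ∨ e = b) → (∀ y ∈ Icc c d, 0 ≤ (W ⟨e, y⟩).re) →
      I * ∫ y in c..d, deriv W ⟨e, y⟩ / W ⟨e, y⟩ = log (W ⟨e, d⟩) - log (W ⟨e, c⟩) := by
    intro e he hre
    rw [← intervalIntegral.integral_const_mul]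
    refine intervalIntegral.integral_eq_sub_of_hasDerivAt (f := fun y : ℝ => log (W ⟨e, y⟩))
      (fun y hy => ?_) ((ii_v hcd.le hcont he).const_mul I)
    rw [uIcc_of_le hcd.le] at hy
    have hm : (⟨e, y⟩ : ℂ) ∈ Bd a b c d := Or.inr ⟨hy, he⟩
    exact hasDerivAt_v (hW _ hm).1 (hslit _ hm (hre y hy))
  have e1 : ∫ x in a..b, deriv W ⟨x, c⟩ / W ⟨x, c⟩ =
      (log (W ⟨p, c⟩) - log (W ⟨a, c⟩)) + ∫ x in p..b, deriv W ⟨x, c⟩ / W ⟨x, c⟩ := by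
    rw [← hh c p (Or.inl rfl) hap hpb sc iic]
    exact (intervalIntegral.integral_add_adjacent_intervals (sub1 iic le_rfl hap hpb)
      (sub1 iic hap hpb le_rfl)).symm
  have e2 : ∫ x in a..b, deriv W ⟨x, d⟩ / W ⟨x, d⟩ =
      (log (W ⟨q, d⟩) - log (W ⟨a, d⟩)) + ∫ x in q..b, deriv W ⟨x, d⟩ / W ⟨x, d⟩ := by
    rw [← hh d q (Or.inr rfl) haq hqb sd iid]
    exact (intervalIntegral.integral_add_adjacent_intervals (sub1 iid le_rfl haq hqb)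
      (sub1 iid haq hqb le_rfl)).symm
  have e3 : RI a b c d (fun s => deriv W s / W s) = log (W ⟨p, c⟩) - log (W ⟨q, d⟩) + log (W ⟨b, d⟩) -
      log (W ⟨b, c⟩) + (∫ x in p..b, deriv W ⟨x, c⟩ / W ⟨x, c⟩) - ∫ x in q..b, deriv W ⟨x, d⟩ / W ⟨x, d⟩ := by
    unfold RI
    simp only
    rw [e1, e2, hv b (Or.inr rfl) sb, hv a (Or.inl rfl) sa]
    ring
  rw [e3]
  simp only [Complex.add_im, Complex.sub_im]
  have l1 := abs_le.1 (im_log_le (sc p hap le_rfl))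
  have l2 := abs_le.1 (im_log_le (sd q haq le_rfl))
  have l3 := abs_le.1 (im_log_le (sb d ⟨hcd.le, le_rfl⟩))
  have l4 := abs_le.1 (im_log_le (sb c ⟨le_rfl, hcd.le⟩))
  have j1 := neg_abs_le (∫ x in p..b, deriv W ⟨x, c⟩ / W ⟨x, c⟩).im
  have j2 := le_abs_self (∫ x in p..b, deriv W ⟨x, c⟩ / W ⟨x, c⟩).im
  have j3 := neg_abs_le (∫ x in q..b, deriv W ⟨x, d⟩ / W ⟨x, d⟩).im
  have j4 := le_abs_self (∫ x in q..b, deriv W ⟨x, d⟩ / W ⟨x, d⟩).im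
  rw [abs_le]
  constructor <;> linarith [l1.1, l1.2, l2.1, l2.2, l3.1, l3.2, l4.1, l4.2]

/-- **The numbers of zeros of two functions.** -/
theorem diff_of_bd {F G : ℂ → ℂ} {a b c d p q E : ℝ} (hab : a < b) (hcd : c < d) (hap : a ≤ p) (hpb : p ≤ b)
    (haq : a ≤ q) (hqb : q ≤ b)
    (hF : AnalyticOnNhd ℂ F (Icc a b ×ℂ Icc c d)) (hG : AnalyticOnNhd ℂ G (Icc a b ×ℂ Icc c d))
    (h0 : ∀ s ∈ Bd a b c d, F s ≠ 0 ∧ G s ≠ 0)
    (hbd : ∀ s ∈ Bd a b c d, (s.im = c → s.re ≤ p ∨ s.re = b) → (s.im = d → s.re ≤ q ∨ s.re = b) → (G s / F s).re ≤ 0)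
    (hE : |(∫ x in p..b, deriv G ⟨x, c⟩ / G ⟨x, c⟩).im| + |(∫ x in p..b, deriv F ⟨x, c⟩ / F ⟨x, c⟩).im| +
      (|(∫ x in q..b, deriv G ⟨x, d⟩ / G ⟨x, d⟩).im| + |(∫ x in q..b, deriv F ⟨x, d⟩ / F ⟨x, d⟩).im|) ≤ E) :
    (Set.Finite {s | s ∈ Ioo a b ×ℂ Ioo c d ∧ F s = 0}) ∧
    (Set.Finite {s | s ∈ Ioo a b ×ℂ Ioo c d ∧ G s = 0}) ∧
    |((∑ᶠ s ∈ {s | s ∈ Ioo a b ×ℂ Ioo c d ∧ G s = 0}, analyticOrderNatAt G s : ℕ) : ℝ) -
      ((∑ᶠ s ∈ {s | s ∈ Ioo a b ×ℂ Ioo c d ∧ F s = 0}, analyticOrderNatAt F s : ℕ) : ℝ)| ≤ 1 + E := by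
  have hint : ∀ s ∈ Icc a b ×ℂ Icc c d, s ∉ Bd a b c d → s ∈ Ioo a b ×ℂ Ioo c d := by
    rintro s ⟨h1, h2⟩ h3
    rw [mem_preimage] at h1 h2
    refine ⟨⟨lt_of_le_of_ne h1.1 ?_, lt_of_le_of_ne h1.2 ?_⟩, ⟨lt_of_le_of_ne h2.1 ?_, lt_of_le_of_ne h2.2 ?_⟩⟩
    · intro h; exact h3 (Or.inr ⟨h2, Or.inl h.symm⟩)
    · intro h; exact h3 (Or.inr ⟨h2, Or.inr h⟩)
    · intro h; exact h3 (Or.inl ⟨h1, Or.inl h.symm⟩)
    · intro h; exact h3 (Or.inl ⟨h1, Or.inr h⟩)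
  obtain ⟨f1, e1⟩ := H370.rect_residue F (fun _ => 1) a b c d hab hcd hF (differentiable_const _)
    (fun s hs h0' => hint s hs (fun h => (h0 s h).1 h0'))
  obtain ⟨f2, e2⟩ := H370.rect_residue G (fun _ => 1) a b c d hab hcd hG (differentiable_const _)
    (fun s hs h0' => hint s hs (fun h => (h0 s h).2 h0'))
  refine ⟨f1, f2, ?_⟩
  have hBK := H370.Bd_sub hab.le hcd.le
  set W : ℂ → ℂ := fun s => -(G s / F s) with hWdef
  have hWan : ∀ s ∈ Bd a b c d, AnalyticAt ℂ W s := fun s hs =>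
    ((hG s (hBK hs)).div (hF s (hBK hs)) (h0 s hs).1).neg
  have hWne : ∀ s ∈ Bd a b c d, W s ≠ 0 := fun s hs => neg_ne_zero.mpr (div_ne_zero (h0 s hs).2 (h0 s hs).1)
  have hR := RI_log hcd hap hpb haq hqb (W := W) (fun s hs => ⟨hWan s hs, hWne s hs⟩) (fun s hs k1 k2 => by
    have := hbd s hs k1 k2
    rw [hWdef]
    simp only [Complex.neg_re]
    linarith)
  -- logarithmic derivatives
  have hld : ∀ s ∈ Bd a b c d, deriv W s / W s = deriv G s / G s - deriv F s / F s := by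
    intro s hs
    obtain ⟨h1, h2⟩ := h0 s hs
    have h4 : G =ᶠ[𝓝 s] fun w => W w * (fun w => -F w) w := by
      filter_upwards [(hF s (hBK hs)).continuousAt.eventually_ne h1] with w hw
      rw [hWdef]
      simp only
      field_simp
    have h5 := logderiv_mul_of h4 (hWan s hs).differentiableAt (hF s (hBK hs)).differentiableAt.neg
      (hWne s hs) (neg_ne_zero.mpr h1)
    rw [h5]
    have h6 : deriv (fun w => -F w) s = -deriv F s := deriv.fun_neg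
    rw [h6, neg_div_neg_eq]
    ring
  have hcF : ContinuousOn (fun s => deriv F s / F s) (Bd a b c d) := by
    intro s hs
    exact ((hF s (hBK hs)).deriv.continuousAt.div (hF s (hBK hs)).continuousAt (h0 s hs).1).continuousWithinAt
  have hcG : ContinuousOn (fun s => deriv G s / G s) (Bd a b c d) := by
    intro s hs
    exact ((hG s (hBK hs)).deriv.continuousAt.div (hG s (hBK hs)).continuousAt (h0 s hs).2).continuousWithinAt
  have hcF' : ContinuousOn (fun s => -1 * (deriv F s / F s)) (Bd a b c d) := continuousOn_const.mul hcF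
  have h1 : RI a b c d (fun s => deriv W s / W s) =
      RI a b c d (fun s => deriv G s / G s) - RI a b c d (fun s => deriv F s / F s) := by
    rw [H370.RI_congr hab.le hcd.le (g := fun s => deriv G s / G s + -1 * (deriv F s / F s)) (fun s hs => by
      rw [hld s hs]; ring), H370.RI_add hab.le hcd.le hcG hcF', H370.RI_const_mul]
    ring
  have e1' : RI a b c d (fun s => deriv F s / F s) =
      2 * Real.pi * I * ∑ᶠ s ∈ {s | s ∈ Ioo a b ×ℂ Ioo c d ∧ F s = 0}, (mult F s : ℂ) := by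
    have h2 : RI a b c d (fun s => deriv F s / F s * 1) =
      2 * Real.pi * I * ∑ᶠ s ∈ {s | s ∈ Ioo a b ×ℂ Ioo c d ∧ F s = 0}, (mult F s : ℂ) * 1 := e1
    simp only [mul_one] at h2
    exact h2
  have e2' : RI a b c d (fun s => deriv G s / G s) =
      2 * Real.pi * I * ∑ᶠ s ∈ {s | s ∈ Ioo a b ×ℂ Ioo c d ∧ G s = 0}, (mult G s : ℂ) := by
    have h3 : RI a b c d (fun s => deriv G s / G s * 1) =
      2 * Real.pi * I * ∑ᶠ s ∈ {s | s ∈ Ioo a b ×ℂ Ioo c d ∧ G s = 0}, (mult G s : ℂ) * 1 := e2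
    simp only [mul_one] at h3
    exact h3
  obtain ⟨n, hn⟩ : ∃ n : ℕ, n = ∑ᶠ s ∈ {s | s ∈ Ioo a b ×ℂ Ioo c d ∧ F s = 0}, analyticOrderNatAt F s := ⟨_, rfl⟩
  obtain ⟨m, hm⟩ : ∃ m : ℕ, m = ∑ᶠ s ∈ {s | s ∈ Ioo a b ×ℂ Ioo c d ∧ G s = 0}, analyticOrderNatAt G s := ⟨_, rfl⟩
  have hn' : ∑ᶠ s ∈ {s | s ∈ Ioo a b ×ℂ Ioo c d ∧ F s = 0}, (mult F s : ℂ) = (n : ℂ) := by
    rw [hn, finsum_mem_eq_finite_toFinset_sum _ f1, finsum_mem_eq_finite_toFinset_sum _ f1]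
    push_cast
    rfl
  have hm' : ∑ᶠ s ∈ {s | s ∈ Ioo a b ×ℂ Ioo c d ∧ G s = 0}, (mult G s : ℂ) = (m : ℂ) := by
    rw [hm, finsum_mem_eq_finite_toFinset_sum _ f2, finsum_mem_eq_finite_toFinset_sum _ f2]
    push_cast
    rfl
  rw [← hn, ← hm]
  rw [hn'] at e1'
  rw [hm'] at e2'
  have h5 : (RI a b c d (fun s => deriv W s / W s)).im = 2 * Real.pi * ((m : ℝ) - n) := by
    rw [h1, e1', e2']
    have : (2 * Real.pi * I * (m : ℂ) - 2 * Real.pi * I * (n : ℂ) : ℂ) = ((2 * Real.pi * ((m : ℝ) - n) : ℝ) : ℂ) * I := by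
      push_cast; ring
    rw [this]
    simp
  rw [h5, abs_mul, abs_of_pos (by have := Real.pi_pos; linarith : (0:ℝ) < 2 * Real.pi)] at hR
  -- the error
  have sub1 : ∀ {K : ℂ → ℂ} {e u : ℝ}, ContinuousOn K (Bd a b c d) → (e = c ∨ e = d) → a ≤ u → u ≤ b →
      IntervalIntegrable (fun x : ℝ => K ⟨x, e⟩) volume u b := by
    intro K e u hK he h1 h2
    refine (ii_h hab.le hK he).mono_set ?_
    rw [uIcc_of_le h2, uIcc_of_le hab.le]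
    exact Icc_subset_Icc h1 le_rfl
  have hJ : ∀ (e u : ℝ), (e = c ∨ e = d) → a ≤ u → u ≤ b → |(∫ x in u..b, deriv W ⟨x, e⟩ / W ⟨x, e⟩).im| ≤
      |(∫ x in u..b, deriv G ⟨x, e⟩ / G ⟨x, e⟩).im| + |(∫ x in u..b, deriv F ⟨x, e⟩ / F ⟨x, e⟩).im| := by
    intro e u he h1 h2
    have h3 : ∫ x in u..b, deriv W ⟨x, e⟩ / W ⟨x, e⟩ =
        (∫ x in u..b, deriv G ⟨x, e⟩ / G ⟨x, e⟩) - ∫ x in u..b, deriv F ⟨x, e⟩ / F ⟨x, e⟩ := by
      rw [← intervalIntegral.integral_sub (sub1 hcG he h1 h2) (sub1 hcF he h1 h2)]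
      refine intervalIntegral.integral_congr fun x hx => ?_
      rw [uIcc_of_le h2] at hx
      exact hld _ (Or.inl ⟨⟨h1.trans hx.1, hx.2⟩, he⟩)
    rw [h3, Complex.sub_im]
    exact abs_sub _ _
  have j1 := hJ c p (Or.inl rfl) hap hpb
  have j2 := hJ d q (Or.inr rfl) haq hqb
  have hpi3 := Real.pi_gt_three
  have hE0 : 0 ≤ E := le_trans (by positivity) hE
  have h6 : 2 * Real.pi * |(m : ℝ) - n| ≤ 2 * Real.pi + E := by linarith
  have h7 : 2 * Real.pi * |(m : ℝ) - n| ≤ 2 * Real.pi * (1 + E) := by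
    have : E ≤ 2 * Real.pi * E := by nlinarith
    linarith
  exact le_of_mul_le_mul_left h7 (by positivity)

end

end Pool.Agent.N831.SX
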