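import Pool.Agent.N831.SX.C

set_option autoImplicit false

/-!
# The difference of the numbers of zeros between two admissible heights
-/

namespace Pool.Agent.N831.SX

open Complex Filter Topology Set MeasureTheory Metric
open scoped ComplexConjugate
open H370 (RI Bd)

noncomputable section

/-- zeros to the left of the critical line -/
def ZS (F : ℂ → ℂ) (T1 T2 : ℝ) : Set ℂ := {s | F s = 0 ∧ s.re < 1 / 2 ∧ T1 < s.im ∧ s.im ≤ T2}

/-- their number, with multiplicity -/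
def NS (F : ℂ → ℂ) (T1 T2 : ℝ) : ℕ := ∑ᶠ s ∈ ZS F T1 T2, analyticOrderNatAt F s

/-- analytic in the upper half plane, not identically zero -/
structure UA (F : ℂ → ℂ) : Prop where
  an : ∀ s : ℂ, 0 < s.im → AnalyticAt ℂ F s
  ne : ∃ s : ℂ, 0 < s.im ∧ F s ≠ 0

variable {F : ℂ → ℂ}

lemma UA.iso (h : UA F) {s : ℂ} (hs : 0 < s.im) : ∀ᶠ z in 𝓝[≠] s, F z ≠ 0 := by
  rcases (h.an s hs).eventually_eq_zero_or_eventually_ne_zero with h1 | h1
  · exfalso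
    have hU : IsPreconnected {s : ℂ | 0 < s.im} := (convex_halfSpace_im_gt 0).isPreconnected
    have han : AnalyticOnNhd ℂ F {s : ℂ | 0 < s.im} := fun z hz => h.an z hz
    have h2 := han.eqOn_zero_of_preconnected_of_eventuallyEq_zero hU hs h1
    obtain ⟨s1, h3, h4⟩ := h.ne
    exact h4 (h2 h3)
  · exact h1

lemma UA.disc (h : UA F) {K : Set ℂ} (hK : ∀ s ∈ K, 0 < s.im) : IsDiscrete {s | s ∈ K ∧ F s = 0} := by
  rw [isDiscrete_iff_nhdsNE]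
  rintro x ⟨hx1, hx2⟩
  rw [← _root_.disjoint_iff, Filter.disjoint_principal_right]
  filter_upwards [h.iso (hK x hx1)] with z hz hzZ
  exact hz hzZ.2

lemma UA.finite (h : UA F) {K : Set ℂ} (hK : ∀ s ∈ K, 0 < s.im) (hKc : IsCompact K) :
    {s | s ∈ K ∧ F s = 0}.Finite := by
  have hc : ContinuousOn F K := fun s hs => (h.an s (hK s hs)).continuousAt.continuousWithinAt
  have hcl : IsClosed {s | s ∈ K ∧ F s = 0} := by
    have := hc.preimage_isClosed_of_isClosed hKc.isClosed (isClosed_singleton (x := (0 : ℂ)))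
    exact this
  have hcomp : IsCompact {s | s ∈ K ∧ F s = 0} := hKc.of_isClosed_subset hcl (fun s hs => hs.1)
  exact hcomp.finite (h.disc hK)

lemma UA.countable (h : UA F) : Set.Countable {t : ℝ | 0 < t ∧ ∃ σ : ℝ, F ⟨σ, t⟩ = 0} := by
  have hd := h.disc (K := {s : ℂ | 0 < s.im}) (fun s hs => hs)
  have hc := (HereditarilyLindelofSpace.isLindelof {s : ℂ | s ∈ {s : ℂ | 0 < s.im} ∧ F s = 0}).countable_of_isDiscrete hd
  refine (hc.image Complex.im).mono ?_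
  rintro t ⟨ht, σ, h⟩
  exact ⟨⟨σ, t⟩, ⟨ht, h⟩, rfl⟩

/-- an admissible height -/
structure Ok (Z : ℂ → ℂ) (t r E : ℝ) : Prop where
  r_pos : 0 < r
  ne : ∀ σ : ℝ, σ < 1 / 2 → Z ⟨σ, t⟩ ≠ 0 ∧ deriv Z ⟨σ, t⟩ ≠ 0
  neg : ∀ σ : ℝ, σ ≤ 1 / 2 - r → (deriv Z ⟨σ, t⟩ / Z ⟨σ, t⟩).re ≤ 0
  int : ∀ b : ℝ, 1 / 2 - r ≤ b → b < 1 / 2 →
    |(∫ x in (1 / 2 - r)..b, deriv (deriv Z) ⟨x, t⟩ / deriv Z ⟨x, t⟩).im| +
    |(∫ x in (1 / 2 - r)..b, deriv Z ⟨x, t⟩ / Z ⟨x, t⟩).im| ≤ E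

namespace SD

variable {κ B : ℝ} {H X Z : ℂ → ℂ}

lemma ne_of_re {s : ℂ} (h : (deriv Z s / Z s).re < 0) : deriv Z s ≠ 0 := by
  intro h0
  rw [h0, zero_div, Complex.zero_re] at h
  exact lt_irrefl _ h

lemma ua (h : SD κ B H X Z) : UA Z := by
  refine ⟨fun s hs => an_upper h.dZ hs, ⟨-1, B⟩, ?_, ?_⟩
  · show 0 < B
    linarith [h.B_one]
  · exact (h.left_far (s := ⟨-1, B⟩) le_rfl (by norm_num)).1

lemma ua' (h : SD κ B H X Z) : UA (deriv Z) := by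
  refine ⟨fun s hs => (an_upper h.dZ hs).deriv, ⟨-1, B⟩, ?_, ?_⟩
  · show 0 < B
    linarith [h.B_one]
  · exact ne_of_re (h.left_far (s := ⟨-1, B⟩) le_rfl (by norm_num)).2

lemma zs_finite (h : SD κ B H X Z) {T1 : ℝ} (T2 : ℝ) (hT : B ≤ T1) :
    (ZS Z T1 T2).Finite ∧ (ZS (deriv Z) T1 T2).Finite := by
  have hK : ∀ s ∈ Icc (0 : ℝ) (1 / 2) ×ℂ Icc T1 T2, 0 < s.im := by
    rintro s ⟨-, h3⟩
    rw [mem_preimage] at h3
    linarith [h3.1, h.B_one]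
  have hKc : IsCompact (Icc (0 : ℝ) (1 / 2) ×ℂ Icc T1 T2) := isCompact_Icc.reProdIm isCompact_Icc
  constructor
  · refine (h.ua.finite hK hKc).subset ?_
    rintro s ⟨h1, h2, h3, h4⟩
    refine ⟨⟨⟨?_, h2.le⟩, ⟨h3.le, h4⟩⟩, h1⟩
    by_contra hcon
    push Not at hcon
    exact (h.left_far (hT.trans h3.le) hcon).1 h1
  · refine (h.ua'.finite hK hKc).subset ?_
    rintro s ⟨h1, h2, h3, h4⟩
    refine ⟨⟨⟨?_, h2.le⟩, ⟨h3.le, h4⟩⟩, h1⟩
    by_contra hcon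
    push Not at hcon
    exact ne_of_re (h.left_far (hT.trans h3.le) hcon).2 h1

/-- the main step -/
theorem diff (h : SD κ B H X Z) {T1 T2 r1 r2 E1 E2 : ℝ} (hB : B ≤ T1) (h12 : T1 < T2) (o1 : Ok Z T1 r1 E1)
    (o2 : Ok Z T2 r2 E2) : |(NS (deriv Z) T1 T2 : ℝ) - NS Z T1 T2| ≤ 1 + (E1 + E2) := by
  obtain ⟨δ0, hδ0, hnear⟩ := h.near_unif (T1 := T1) (T2 := T2) hB
  obtain ⟨δ, hδ, hδ1, hδ2, hδ3, hδ4⟩ : ∃ δ : ℝ, 0 < δ ∧ δ < δ0 ∧ δ < 1 ∧ δ ≤ r1 ∧ δ ≤ r2 := by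
    refine ⟨min (min (δ0 / 2) (1 / 2)) (min r1 r2), lt_min (lt_min (by linarith) (by norm_num))
      (lt_min o1.r_pos o2.r_pos), ?_, ?_, ?_, ?_⟩
    · exact lt_of_le_of_lt ((min_le_left _ _).trans (min_le_left _ _)) (by linarith)
    · exact lt_of_le_of_lt ((min_le_left _ _).trans (min_le_right _ _)) (by norm_num)
    · exact (min_le_right _ _).trans (min_le_left _ _)
    · exact (min_le_right _ _).trans (min_le_right _ _)
  obtain ⟨a, ha0, ha1, ha2⟩ : ∃ a : ℝ, a ≤ -1 ∧ a ≤ 1 / 2 - r1 ∧ a ≤ 1 / 2 - r2 :=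
    ⟨min (-1) (min (1 / 2 - r1) (1 / 2 - r2)), min_le_left _ _, (min_le_right _ _).trans (min_le_left _ _),
      (min_le_right _ _).trans (min_le_right _ _)⟩
  set b : ℝ := 1 / 2 - δ with hb
  have hab : a < b := by rw [hb]; linarith
  have himK : ∀ s ∈ Icc a b ×ℂ Icc T1 T2, 0 < s.im := by
    rintro s ⟨-, h3⟩
    rw [mem_preimage] at h3
    linarith [h3.1, h.B_one]
  -- the vertical sides
  have hv : ∀ s : ℂ, s.re < 1 / 2 → T1 ≤ s.im → s.im ≤ T2 → (s.re ≤ a ∨ b ≤ s.re) →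
      Z s ≠ 0 ∧ deriv Z s ≠ 0 ∧ (deriv Z s / Z s).re ≤ 0 := by
    intro s hs1 hs2 hs3 hs4
    rcases hs4 with h4 | h4
    · obtain ⟨k1, k2⟩ := h.left_far (s := s) (hB.trans hs2) (by linarith)
      exact ⟨k1, ne_of_re k2, k2.le⟩
    · obtain ⟨k1, k2⟩ := hnear s hs2 hs3 (by linarith) hs1
      exact ⟨k1, ne_of_re k2, k2.le⟩
  have hh : ∀ s : ℂ, s.re < 1 / 2 → (s.im = T1 ∨ s.im = T2) → Z s ≠ 0 ∧ deriv Z s ≠ 0 := by
    intro s hs1 hs2
    rcases hs2 with h4 | h4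
    · have := o1.ne s.re hs1
      rwa [← h4] at this
    · have := o2.ne s.re hs1
      rwa [← h4] at this
  have hbd : ∀ s ∈ Bd a b T1 T2, s.re < 1 / 2 ∧ T1 ≤ s.im ∧ s.im ≤ T2 ∧
      ((s.im = T1 ∨ s.im = T2) ∨ (s.re ≤ a ∨ b ≤ s.re)) := by
    rintro s (⟨h3, h4⟩ | ⟨h3, h4⟩)
    · refine ⟨by linarith [h3.2], ?_, ?_, Or.inl h4⟩
      · rcases h4 with h | h <;> rw [h] <;> linarith
      · rcases h4 with h | h <;> rw [h] <;> linarith
    · refine ⟨?_, h3.1, h3.2, Or.inr ?_⟩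
      · rcases h4 with h | h <;> rw [h] <;> linarith
      · rcases h4 with h | h
        · exact Or.inl h.le
        · exact Or.inr h.ge
  obtain ⟨f1, f2, e⟩ := diff_of_bd (F := Z) (G := deriv Z) (a := a) (b := b) (c := T1) (d := T2)
    (p := 1 / 2 - r1) (q := 1 / 2 - r2) (E := E1 + E2) hab h12 ha1 (by linarith) ha2 (by linarith)
    (fun s hs => h.ua.an s (himK s hs)) (fun s hs => h.ua'.an s (himK s hs)) (by
      intro s hs
      obtain ⟨k1, k2, k3, k4⟩ := hbd s hs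
      rcases k4 with k4 | k4
      · exact hh s k1 k4
      · exact ⟨(hv s k1 k2 k3 k4).1, (hv s k1 k2 k3 k4).2.1⟩) (by
      intro s hs c1 c2
      obtain ⟨k1, k2, k3, k4⟩ := hbd s hs
      rcases k4 with k4 | k4
      · rcases k4 with k4 | k4
        · rcases c1 k4 with c3 | c3
          · have := o1.neg s.re c3
            rwa [← k4] at this
          · exact (hv s k1 k2 k3 (Or.inr c3.ge)).2.2
        · rcases c2 k4 with c3 | c3
          · have := o2.neg s.re c3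
            rwa [← k4] at this
          · exact (hv s k1 k2 k3 (Or.inr c3.ge)).2.2
      · exact (hv s k1 k2 k3 k4).2.2)
    (add_le_add (o1.int b (by linarith) (by linarith)) (o2.int b (by linarith) (by linarith)))
  have hset1 : ZS Z T1 T2 = {s | s ∈ Ioo a b ×ℂ Ioo T1 T2 ∧ Z s = 0} := by
    ext s
    constructor
    · rintro ⟨h3, h4, h5, h6⟩
      have h7 : ¬ (s.re ≤ a ∨ b ≤ s.re) := fun h => (hv s h4 h5.le h6 h).1 h3
      have h8 : s.im ≠ T2 := fun h => (hh s h4 (Or.inr h)).1 h3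
      push Not at h7
      exact ⟨⟨⟨h7.1, h7.2⟩, ⟨h5, lt_of_le_of_ne h6 h8⟩⟩, h3⟩
    · rintro ⟨⟨h3, h4⟩, h5⟩
      rw [mem_preimage] at h3 h4
      exact ⟨h5, by linarith [h3.2], h4.1, h4.2.le⟩
  have hset2 : ZS (deriv Z) T1 T2 = {s | s ∈ Ioo a b ×ℂ Ioo T1 T2 ∧ deriv Z s = 0} := by
    ext s
    constructor
    · rintro ⟨h3, h4, h5, h6⟩
      have h7 : ¬ (s.re ≤ a ∨ b ≤ s.re) := fun h => (hv s h4 h5.le h6 h).2.1 h3
      have h8 : s.im ≠ T2 := fun h => (hh s h4 (Or.inr h)).2 h3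
      push Not at h7
      exact ⟨⟨⟨h7.1, h7.2⟩, ⟨h5, lt_of_le_of_ne h6 h8⟩⟩, h3⟩
    · rintro ⟨⟨h3, h4⟩, h5⟩
      rw [mem_preimage] at h3 h4
      exact ⟨h5, by linarith [h3.2], h4.1, h4.2.le⟩
  unfold NS
  rw [hset1, hset2]
  exact e

end SD

lemma ns_add {F : ℂ → ℂ} {T1 T2 T3 : ℝ} (h12 : T1 ≤ T2) (h23 : T2 ≤ T3) (hf : (ZS F T1 T3).Finite) :
    NS F T1 T3 = NS F T1 T2 + NS F T2 T3 := by
  have e : ZS F T1 T3 = ZS F T1 T2 ∪ ZS F T2 T3 := by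
    ext s
    constructor
    · rintro ⟨h1, h2, h3, h4⟩
      rcases le_or_gt s.im T2 with h | h
      · exact Or.inl ⟨h1, h2, h3, h⟩
      · exact Or.inr ⟨h1, h2, h, h4⟩
    · rintro (⟨h1, h2, h3, h4⟩ | ⟨h1, h2, h3, h4⟩)
      · exact ⟨h1, h2, h3, h4.trans h23⟩
      · exact ⟨h1, h2, lt_of_le_of_lt h12 h3, h4⟩
  have hd : Disjoint (ZS F T1 T2) (ZS F T2 T3) := by
    rw [Set.disjoint_left]
    rintro s ⟨_, _, _, h4⟩ ⟨_, _, h5, _⟩
    linarith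
  have f1 : (ZS F T1 T2).Finite := hf.subset (by rw [e]; exact subset_union_left)
  have f2 : (ZS F T2 T3).Finite := hf.subset (by rw [e]; exact subset_union_right)
  unfold NS
  rw [e, finsum_mem_union hd f1 f2]

lemma ns_mono {F : ℂ → ℂ} {T1 T2 T3 : ℝ} (h12 : T1 ≤ T2) (h23 : T2 ≤ T3) (hf : (ZS F T1 T3).Finite) :
    NS F T1 T2 ≤ NS F T1 T3 := by
  rw [ns_add h12 h23 hf]
  exact Nat.le_add_right _ _

end

end Pool.Agent.N831.SX
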