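import Pool.Agent.N831.SX.D
import Pool.Agent.W32.SD.SCount
import Pool.Agent.W571.SD.Grow

set_option autoImplicit false

/-!
# Admissible heights
-/

namespace Pool.Agent.N831.SX

open Complex Filter Topology Set MeasureTheory Metric
open scoped ComplexConjugate
open Pool.Agent.H24R2.DZ (NN)

noncomputable section

/-- the function on a disc whose centre is to the left of the line -/
structure Bd5 (Z : ℂ → ℂ) (T ρ Λ M : ℝ) : Prop where
  pos : 0 < ρ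
  lt : 5 * ρ < T
  Λ_nn : 0 ≤ Λ
  M_nn : 0 ≤ M
  zc : Z ⟨1 / 2 - ρ, T⟩ ≠ 0
  hb : ∀ z ∈ closedBall (⟨1 / 2 - ρ, T⟩ : ℂ) (5 * ρ), ‖Z z‖ ≤ Real.exp Λ * ‖Z ⟨1 / 2 - ρ, T⟩‖
  hd : ‖Z ⟨1 / 2 - ρ, T⟩‖ ≤ Real.exp M * (ρ * ‖deriv Z ⟨1 / 2 - ρ, T⟩‖)

section bd5
variable {Z : ℂ → ℂ} {T ρ Λ M : ℝ}

lemma Bd5.im_pos (h : Bd5 Z T ρ Λ M) {z : ℂ} (hz : z ∈ closedBall (⟨1 / 2 - ρ, T⟩ : ℂ) (5 * ρ)) : 0 < z.im := by
  rw [mem_closedBall, dist_eq_norm] at hz
  have h1 := (Complex.abs_im_le_norm (z - ⟨1 / 2 - ρ, T⟩)).trans hz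
  rw [Complex.sub_im] at h1
  have := (abs_le.1 h1).1
  simp only at this
  linarith [h.lt]

lemma Bd5.dc (h : Bd5 Z T ρ Λ M) : deriv Z ⟨1 / 2 - ρ, T⟩ ≠ 0 := by
  intro h0
  have h1 := h.hd
  rw [h0, norm_zero, mul_zero, mul_zero] at h1
  exact h.zc (norm_le_zero_iff.1 h1)

lemma Bd5.deriv_bd (h : Bd5 Z T ρ Λ M) (hZ : ∀ s : ℂ, 0 < s.im → AnalyticAt ℂ Z s) :
    ∀ z ∈ closedBall (⟨1 / 2 - ρ, T⟩ : ℂ) (4 * ρ), ‖deriv Z z‖ ≤ Real.exp (Λ + M) * ‖deriv Z ⟨1 / 2 - ρ, T⟩‖ := by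
  intro z hz
  have hρ := h.pos
  obtain ⟨c, hc⟩ : ∃ c : ℂ, c = ⟨1 / 2 - ρ, T⟩ := ⟨_, rfl⟩
  have hb := h.hb
  have hd := h.hd
  have him : ∀ z ∈ closedBall c (5 * ρ), 0 < z.im := fun z hz => h.im_pos (by rwa [hc] at hz)
  rw [← hc] at hb hd hz ⊢
  have h3 : ‖deriv Z z‖ ≤ Real.exp Λ * ‖Z c‖ / ρ := by
    refine Complex.norm_deriv_le_of_forall_mem_sphere_norm_le hρ ?_ ?_
    · have : DifferentiableOn ℂ Z (closedBall z ρ) := by
        intro w hw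
        have hw5 : w ∈ closedBall c (5 * ρ) := by
          rw [mem_closedBall] at hw hz ⊢
          have := dist_triangle w z c
          linarith
        exact (hZ w (him w hw5)).differentiableAt.differentiableWithinAt
      exact this.diffContOnCl_ball subset_rfl
    · intro w hw
      apply hb
      rw [mem_sphere] at hw
      rw [mem_closedBall] at hz ⊢
      have := dist_triangle w z c
      linarith
  rw [Real.exp_add]
  calc ‖deriv Z z‖ ≤ Real.exp Λ * ‖Z c‖ / ρ := h3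
    _ ≤ Real.exp Λ * (Real.exp M * (ρ * ‖deriv Z c‖)) / ρ := by gcongr
    _ = Real.exp Λ * Real.exp M * ‖deriv Z c‖ := by field_simp

/-- zeros of the derivative near the centre -/
lemma Bd5.count (h : Bd5 Z T ρ Λ M) (hZ : ∀ s : ℂ, 0 < s.im → AnalyticAt ℂ Z s) (S : Finset ℂ)
    (hS : ∀ s ∈ S, s ∈ closedBall (⟨1 / 2 - ρ, T⟩ : ℂ) (3 * ρ)) :
    ∑ s ∈ S, (analyticOrderNatAt (deriv Z) s : ℝ) ≤ 4 * (Λ + M) := by
  have hρ := h.pos
  obtain ⟨c, hc⟩ : ∃ c : ℂ, c = ⟨1 / 2 - ρ, T⟩ := ⟨_, rfl⟩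
  have him : ∀ z ∈ closedBall c (4 * ρ), 0 < z.im := fun z hz =>
    h.im_pos (by rw [← hc]; exact closedBall_subset_closedBall (by linarith) hz)
  have hdc := h.dc
  have hdb := h.deriv_bd hZ
  rw [← hc] at hdb hdc hS
  have hfc : 0 < ‖deriv Z c‖ := norm_pos_iff.2 hdc
  obtain ⟨F, hF⟩ : ∃ F : ℂ → ℂ, F = fun z => (deriv Z c)⁻¹ * deriv Z z := ⟨_, rfl⟩
  have hFc : F c = 1 := by rw [hF]; exact inv_mul_cancel₀ hdc
  have hFan : AnalyticOnNhd ℂ F (closedBall c (4 * ρ)) := by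
    rw [hF]; exact fun z hz => analyticAt_const.mul (hZ z (him z hz)).deriv
  have hFb : ∀ z ∈ closedBall c (4 * ρ), ‖F z‖ ≤ Real.exp (Λ + M) := by
    intro z hz
    rw [hF]
    simp only
    rw [norm_mul, norm_inv, inv_mul_eq_div, div_le_iff₀ hfc]
    exact hdb z hz
  have hnn : 0 ≤ Λ + M := add_nonneg h.Λ_nn h.M_nn
  have key := H370.Loc.jensen_mult (f := F) (c := c) (r := 3 * ρ) (R := 4 * ρ) (M := Real.exp (Λ + M))
    (by positivity) (by linarith) (Real.one_le_exp hnn) hFan (by rw [hFc]; exact one_ne_zero) hFb S hS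
  rw [hFc, norm_one, div_one, Real.log_exp] at key
  have e1 : 4 * ρ / (3 * ρ) = 4 / 3 := by field_simp
  rw [e1] at key
  have h10 : (1 : ℝ) / 4 ≤ Real.log (4 / 3) := by
    have := Real.one_sub_inv_le_log_of_pos (show (0 : ℝ) < 4 / 3 by norm_num)
    norm_num at this ⊢
    linarith
  have e2 : ∀ s ∈ S, (H370.mult F s : ℝ) = (analyticOrderNatAt (deriv Z) s : ℝ) := by
    intro s hs
    have hs4 : s ∈ closedBall c (4 * ρ) := closedBall_subset_closedBall (by linarith) (hS s hs)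
    have h5 : analyticOrderAt F s = analyticOrderAt (deriv Z) s := by
      have e3 : F = (fun _ => (deriv Z c)⁻¹) * (fun z => deriv Z z) := by
        rw [hF]
        rfl
      rw [e3, analyticOrderAt_mul analyticAt_const (hZ s (him s hs4)).deriv,
        (analyticAt_const (𝕜 := ℂ) (v := (deriv Z c)⁻¹) (x := s)).analyticOrderAt_eq_zero.2 (inv_ne_zero hdc), zero_add]
    unfold H370.mult analyticOrderNatAt
    rw [h5]
  rw [Finset.sum_congr rfl e2] at key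
  refine key.trans ?_
  rw [div_le_iff₀ (by linarith)]
  nlinarith

theorem ok_of (h : Bd5 Z T ρ Λ M) (hZ : ∀ s : ℂ, 0 < s.im → AnalyticAt ℂ Z s)
    (hne : ∀ σ : ℝ, σ < 1 / 2 → Z ⟨σ, T⟩ ≠ 0 ∧ deriv Z ⟨σ, T⟩ ≠ 0)
    (hneg : ∀ σ : ℝ, σ ≤ 1 / 2 - ρ → (deriv Z ⟨σ, T⟩ / Z ⟨σ, T⟩).re ≤ 0) :
    Ok Z T ρ (600 * Λ + 300 * M + 60) := by
  have hρ := h.pos
  obtain ⟨c, hc⟩ : ∃ c : ℂ, c = ⟨1 / 2 - ρ, T⟩ := ⟨_, rfl⟩
  have hb := h.hb
  have hdb := h.deriv_bd hZ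
  have hc0 := h.zc
  have hc1 := h.dc
  have him : ∀ z ∈ closedBall c (5 * ρ), 0 < z.im := fun z hz => h.im_pos (by rwa [hc] at hz)
  rw [← hc] at hb hdb hc0 hc1
  have hsub : closedBall c (4 * ρ) ⊆ closedBall c (5 * ρ) := closedBall_subset_closedBall (by linarith)
  have hseg : ∀ b : ℝ, 1 / 2 - ρ ≤ b → b < 1 / 2 → ∀ x ∈ Icc (1 / 2 - ρ) b,
      (⟨x, T⟩ : ℂ) ∈ closedBall c (3 / 2 * ρ) := by
    intro b h1 h2 x hx
    rw [mem_closedBall, dist_eq_norm]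
    have e : (⟨x, T⟩ : ℂ) - c = ((x - (1 / 2 - ρ) : ℝ) : ℂ) := by
      rw [hc]
      apply Complex.ext <;> simp
    rw [e, Complex.norm_real, Real.norm_of_nonneg (by linarith [hx.1])]
    linarith [hx.2]
  refine ⟨hρ, hne, hneg, fun b h1 h2 => ?_⟩
  have i1 := seg (f := Z) (c := c) hρ h.Λ_nn (fun z hz => hZ z (him z (hsub hz))) hc0
    (fun z hz => hb z (hsub hz)) (x1 := 1 / 2 - ρ) (x2 := b) (y := T) h1
    (fun x hx => ⟨hseg b h1 h2 x hx, (hne x (by linarith [hx.2])).1⟩)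
  have i2 := seg (f := deriv Z) (c := c) (Λ := Λ + M) hρ (add_nonneg h.Λ_nn h.M_nn)
    (fun z hz => (hZ z (him z (hsub hz))).deriv) hc1 hdb (x1 := 1 / 2 - ρ) (x2 := b) (y := T) h1
    (fun x hx => ⟨hseg b h1 h2 x hx, (hne x (by linarith [hx.2])).2⟩)
  linarith

end bd5

namespace SD

variable {κ B : ℝ} {H X Z : ℂ → ℂ}

lemma norm_symm (h : SD κ B H X Z) (t x : ℝ) : ‖X (I * t + (-(x : ℂ)))‖ = ‖X (I * t + x)‖ := by
  have e : (I * t + (-(x : ℂ)) : ℂ) = -(conj (I * t + x)) := by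
    simp only [map_add, map_mul, Complex.conj_I, Complex.conj_ofReal]
    ring
  rw [e, h.sy.symm, Complex.norm_conj]

/-- all heights -/
theorem bd_far (h : SD κ B H X Z) : ∃ A C T0 : ℝ, 1 ≤ A ∧ 0 < C ∧ 2 ≤ T0 ∧ B ≤ T0 ∧ ∀ T : ℝ, T0 ≤ T →
    Bd5 Z T A (C * Real.log T) 0 := by
  obtain ⟨c, A, hc, hA, hrgt⟩ := h.rgt
  obtain ⟨K1, T1, hK1, hT1, hgro⟩ := h.gro (6 * A) (by linarith)
  obtain ⟨K2, T2, hK2, hT2, hgam⟩ := h.gam A hA
  have hκ := h.κ_pos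
  obtain ⟨m, hm0, hm⟩ : ∃ m : ℝ, 0 ≤ m ∧ Real.exp (-m) ≤ c := by
    refine ⟨max 0 (-Real.log c), le_max_left _ _, ?_⟩
    have : -max 0 (-Real.log c) ≤ Real.log c := by
      have := le_max_right 0 (-Real.log c)
      linarith
    calc _ ≤ Real.exp (Real.log c) := Real.exp_le_exp.2 this
      _ = c := Real.exp_log hc
  obtain ⟨T0, hT0a, hT0b, hT0c, hT0d, hT0e, hT0f⟩ : ∃ T0 : ℝ, 2 ≤ T0 ∧ T1 ≤ T0 ∧ T2 ≤ T0 ∧ B ≤ T0 ∧ 5 * A < T0 ∧
      Real.exp ((K2 + 1) / κ) ≤ T0 := by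
    refine ⟨2 + |T1| + |T2| + |B| + 5 * A + Real.exp ((K2 + 1) / κ), ?_, ?_, ?_, ?_, ?_, ?_⟩ <;>
    linarith [Real.exp_pos ((K2 + 1) / κ), le_abs_self T1, le_abs_self T2, le_abs_self B, abs_nonneg T1,
      abs_nonneg T2, abs_nonneg B]
  refine ⟨A, K1 + 2 * (m + 2 * K2), T0, hA, by positivity, hT0a, hT0d, ?_⟩
  intro T hT
  have hTp : 0 < T := by linarith
  have hl : 1 / 2 ≤ Real.log T := by
    have h3 : Real.log 2 ≤ Real.log T := Real.log_le_log (by norm_num) (by linarith)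
    have := Real.log_two_gt_d9
    linarith
  have hκl : K2 + 1 ≤ κ * Real.log T := by
    have h3 : (K2 + 1) / κ ≤ Real.log T := by
      rw [Real.le_log_iff_exp_le hTp]
      linarith
    rw [div_le_iff₀ hκ] at h3
    linarith
  have hAn : ‖(A : ℂ)‖ = A := by rw [Complex.norm_real, Real.norm_of_nonneg (by linarith)]
  obtain ⟨p1, p2, p3, p4, -⟩ := hgam T (A : ℂ) (by linarith) (by rw [hAn])
  obtain ⟨q1, q2, q3, -, q5⟩ := hgam T (-(A : ℂ)) (by linarith) (by rw [norm_neg, hAn])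
  rw [Complex.ofReal_re] at p4
  rw [Complex.neg_re, Complex.ofReal_re] at q5
  have hcen : (1 / 2 + (I * T + (-(A : ℂ))) : ℂ) = ⟨1 / 2 - A, T⟩ := by
    apply Complex.ext
    · simp
      ring
    · simp
  have hX1 : X (I * T + A) = H (I * T + A) * Z (1 / 2 + (I * T + A)) := h.eq _ (by simp; exact hTp)
  have hX2 : X (I * T + (-(A : ℂ))) = H (I * T + (-(A : ℂ))) * Z ⟨1 / 2 - A, T⟩ := by
    rw [h.eq _ (by simp; exact hTp), hcen]
  have hHp : 0 < ‖H (I * T)‖ := by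
    have := (hgam T 0 (by linarith) (by simp; linarith)).2.1
    rw [add_zero] at this
    exact norm_pos_iff.2 this
  have hZc : Real.exp (-(m + 2 * K2)) ≤ ‖Z ⟨1 / 2 - A, T⟩‖ := by
    have h1 := h.norm_symm T A
    rw [hX1, hX2, norm_mul, norm_mul] at h1
    have h2 : c ≤ ‖Z (1 / 2 + (I * T + A))‖ := hrgt _ (by simp)
    have h3 : Real.exp (κ * Real.log T * A - K2) * ‖H (I * T)‖ * c ≤
        (Real.exp (κ * Real.log T * -A + K2) * ‖H (I * T)‖) * ‖Z ⟨1 / 2 - A, T⟩‖ := by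
      calc _ ≤ ‖H (I * T + A)‖ * ‖Z (1 / 2 + (I * T + A))‖ := by gcongr
        _ = ‖H (I * T + (-(A : ℂ)))‖ * ‖Z ⟨1 / 2 - A, T⟩‖ := h1.symm
        _ ≤ _ := by gcongr
    have h4 : Real.exp (κ * Real.log T * A - K2) * c ≤ Real.exp (κ * Real.log T * -A + K2) * ‖Z ⟨1 / 2 - A, T⟩‖ := by
      refine le_of_mul_le_mul_right ?_ hHp
      linarith
    have h5 : Real.exp (-(2 * K2)) ≤ Real.exp (κ * Real.log T * A - K2) / Real.exp (κ * Real.log T * -A + K2) := by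
      rw [← Real.exp_sub]
      apply Real.exp_le_exp.2
      have : 0 ≤ κ * Real.log T * A := by positivity
      linarith
    have h6 : Real.exp (κ * Real.log T * A - K2) / Real.exp (κ * Real.log T * -A + K2) * c ≤ ‖Z ⟨1 / 2 - A, T⟩‖ := by
      rw [div_mul_eq_mul_div, div_le_iff₀ (Real.exp_pos _)]
      linarith
    calc Real.exp (-(m + 2 * K2)) = Real.exp (-(2 * K2)) * Real.exp (-m) := by
          rw [← Real.exp_add]; congr 1; ring
      _ ≤ Real.exp (κ * Real.log T * A - K2) / Real.exp (κ * Real.log T * -A + K2) * c := by gcongr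
      _ ≤ _ := h6
  -- the logarithmic derivative
  obtain ⟨g1, g2, g3, g4⟩ := h.left_of_mono (w := I * T + (-(A : ℂ))) (t := T) (h0 := 1 / 2) (by linarith)
    (by norm_num) (h.mono_half T) (by simp) (by simp; linarith)
  rw [hcen] at g3 g4
  have hre : 1 ≤ (deriv H (I * T + (-(A : ℂ))) / H (I * T + (-(A : ℂ)))).re := by
    have h1 := (Complex.abs_re_le_norm _).trans q3
    rw [Complex.sub_re, Complex.ofReal_re, logDeriv_apply] at h1
    have := (abs_le.1 h1).1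
    linarith
  have hdn : ‖Z ⟨1 / 2 - A, T⟩‖ ≤ ‖deriv Z ⟨1 / 2 - A, T⟩‖ := by
    have h1 : 1 ≤ ‖deriv Z ⟨1 / 2 - A, T⟩ / Z ⟨1 / 2 - A, T⟩‖ := by
      refine le_trans ?_ (Complex.abs_re_le_norm _)
      rw [abs_of_nonpos (by linarith)]
      linarith
    rw [norm_div, le_div_iff₀ (norm_pos_iff.2 g3)] at h1
    linarith
  have hK1l : 0 ≤ K1 * Real.log T := by positivity
  have hΛ : K1 * Real.log T + (m + 2 * K2) ≤ (K1 + 2 * (m + 2 * K2)) * Real.log T := by nlinarith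
  refine ⟨by linarith, by linarith, by positivity, le_rfl, g3, ?_, ?_⟩
  · intro z hz
    have h1 : ‖z - 1 / 2 - I * T‖ ≤ 6 * A := by
      rw [mem_closedBall, dist_eq_norm] at hz
      have e : z - 1 / 2 - I * T = (z - ⟨1 / 2 - A, T⟩) + (-(A : ℂ)) := by
        rw [← hcen]; ring
      rw [e]
      refine (norm_add_le _ _).trans ?_
      rw [norm_neg, hAn]
      linarith
    have h2 := hgro T (z - 1 / 2 - I * T) (by linarith) h1
    have e2 : (1 / 2 + (I * T + (z - 1 / 2 - I * T)) : ℂ) = z := by ring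
    rw [e2] at h2
    refine h2.trans ?_
    calc T ^ K1 = Real.exp (K1 * Real.log T) := by rw [Real.rpow_def_of_pos hTp, mul_comm]
      _ = Real.exp (K1 * Real.log T) * (Real.exp (m + 2 * K2) * Real.exp (-(m + 2 * K2))) := by
          rw [← Real.exp_add (m + 2 * K2), add_neg_cancel, Real.exp_zero, mul_one]
      _ ≤ Real.exp (K1 * Real.log T) * (Real.exp (m + 2 * K2) * ‖Z ⟨1 / 2 - A, T⟩‖) := by gcongr
      _ = Real.exp (K1 * Real.log T + (m + 2 * K2)) * ‖Z ⟨1 / 2 - A, T⟩‖ := by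
          rw [Real.exp_add (K1 * Real.log T)]; ring
      _ ≤ _ := mul_le_mul_of_nonneg_right (Real.exp_le_exp.2 hΛ) (norm_nonneg _)
  · rw [Real.exp_zero, one_mul]
    nlinarith [norm_nonneg (deriv Z ⟨1 / 2 - A, T⟩)]

theorem ok_far (h : SD κ B H X Z) : ∃ R C T0 : ℝ, 0 < C ∧ 2 ≤ T0 ∧ ∀ T : ℝ, T0 ≤ T →
    (∀ σ : ℝ, σ < 1 / 2 → Z ⟨σ, T⟩ ≠ 0 ∧ deriv Z ⟨σ, T⟩ ≠ 0) → Ok Z T R (C * Real.log T) := by
  obtain ⟨A, C, T0, hA, hC, hT0, hB, hbd⟩ := h.bd_far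
  refine ⟨A, 600 * C + 120, T0, by positivity, hT0, fun T hT hne => ?_⟩
  have hl : 1 / 2 ≤ Real.log T := by
    have h3 : Real.log 2 ≤ Real.log T := Real.log_le_log (by norm_num) (by linarith)
    have := Real.log_two_gt_d9
    linarith
  have hok := ok_of (hbd T hT) h.ua.an hne (by
    intro σ hσ
    exact (h.left_far (s := ⟨σ, T⟩) (by show B ≤ T; linarith) (by show σ < 0; linarith)).2.le)
  refine ⟨hok.r_pos, hok.ne, hok.neg, fun b h1 h2 => (hok.int b h1 h2).trans ?_⟩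
  nlinarith

/-- at a good height there are no zeros of the derivative at medium distance -/
theorem nn_left (h : SD κ B H X Z) {t a ρ : ℝ} (ha : 0 < a) (hρ : 0 < ρ) (hρ1 : ρ ≤ 1 / 100)
    (hN : NN a (1 / 10) (fun z => X (I * t + ρ * z))) {u : ℂ} (hu : 1 / 1000 ≤ u.re) (hu2 : ‖u‖ ≤ 20)
    (him : B ≤ (I * t + ρ * (-(conj u)) : ℂ).im) :
    X (I * t + ρ * (-(conj u))) ≠ 0 ∧ Z (1 / 2 + (I * t + ρ * (-(conj u)))) ≠ 0 ∧
      (deriv Z (1 / 2 + (I * t + ρ * (-(conj u)))) / Z (1 / 2 + (I * t + ρ * (-(conj u))))).re ≤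
      -(deriv H (I * t + ρ * (-(conj u))) / H (I * t + ρ * (-(conj u)))).re := by
  obtain ⟨h1, h2⟩ := hN.far u hu hu2
  have e : (I * t + ρ * (-(conj u)) : ℂ) = -(conj (I * t + ρ * u)) := by
    simp only [map_add, map_mul, Complex.conj_I, Complex.conj_ofReal]
    ring
  have hX0 : X (I * t + ρ * (-(conj u))) ≠ 0 := by
    rw [e, h.sy.symm]
    exact (map_ne_zero _).2 h1
  have hld : logDeriv (fun z => X (I * t + ρ * z)) u = ρ * (deriv X (I * t + ρ * u) / X (I * t + ρ * u)) := by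
    rw [logDeriv_apply]
    have h3 : HasDerivAt (fun z : ℂ => I * t + ρ * z) ρ u := by
      have := ((hasDerivAt_id u).const_mul (ρ : ℂ)).const_add (I * t)
      exact this.congr_deriv (mul_one _)
    have h4 := ((h.sy.diff _).hasDerivAt.comp u h3).deriv
    have h5 : deriv (fun z => X (I * t + ρ * z)) u = deriv X (I * t + ρ * u) * ρ := h4
    rw [h5]
    ring
  have hre : 0 ≤ (deriv X (I * t + ρ * u) / X (I * t + ρ * u)).re := by
    rw [hld] at h2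
    have h3 := (Complex.abs_re_le_norm _).trans h2
    rw [Complex.sub_re, Complex.ofReal_re, Complex.re_ofReal_mul] at h3
    have h4 := (abs_le.1 h3).1
    by_contra hcon
    push Not at hcon
    have : ρ * (deriv X (I * t + ρ * u) / X (I * t + ρ * u)).re < 0 := mul_neg_of_pos_of_neg hρ hcon
    linarith
  have hX1 : (deriv X (I * t + ρ * (-(conj u))) / X (I * t + ρ * (-(conj u)))).re ≤ 0 := by
    rw [e, ld_symm h.sy.diff h.sy.symm, Complex.neg_re, Complex.conj_re]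
    linarith
  have hwre : (I * t + ρ * (-(conj u)) : ℂ).re ≤ 1 := by
    have e1 : (I * t + ρ * (-(conj u)) : ℂ).re = -(ρ * u.re) := by
      rw [Complex.add_re, Complex.re_ofReal_mul]
      simp
    rw [e1]
    have : 0 < ρ * u.re := by positivity
    linarith
  have h8 := congrArg Complex.re (h.split him hwre hX0)
  rw [Complex.add_re] at h8
  exact ⟨hX0, h.z_ne (by linarith [h.B_one]) hX0, by linarith⟩

/-- good heights -/
theorem bd_good (h : SD κ B H X Z) : ∃ C a0 T0 : ℝ, 0 < C ∧ 1 ≤ a0 ∧ 2 ≤ T0 ∧ B ≤ T0 ∧ ∀ T a ρ : ℝ, T0 ≤ T → a0 ≤ a →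
    0 < ρ → ρ ≤ 1 / 100 → |κ * ρ * Real.log T - a| ≤ κ → NN a (1 / 10) (fun z => X (I * T + ρ * z)) →
    Bd5 Z T ρ (C * a) 1 := by
  obtain ⟨K, T1, hK, hT1, hgam⟩ := h.gam 1 le_rfl
  have hκ := h.κ_pos
  obtain ⟨T0, hT0a, hT0b, hT0c, hT0d⟩ : ∃ T0 : ℝ, 2 ≤ T0 ∧ T1 ≤ T0 ∧ B ≤ T0 ∧ Real.exp (2 * K / κ) ≤ T0 := by
    refine ⟨2 + |T1| + |B| + Real.exp (2 * K / κ), ?_, ?_, ?_, ?_⟩ <;>
    linarith [Real.exp_pos (2 * K / κ), le_abs_self T1, le_abs_self B, abs_nonneg T1, abs_nonneg B]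
  refine ⟨38 + 2 * K + 5 * (1 + κ), 1 + κ, T0, by positivity, by linarith, hT0a, hT0c, ?_⟩
  intro T a ρ hT ha hρ hρ1 haT hN
  have hTp : 0 < T := by linarith
  have ha1 : 1 ≤ a := by linarith
  have hl : 0 < Real.log T := Real.log_pos (by linarith)
  have hκl : 2 * K ≤ κ * Real.log T := by
    have h3 : 2 * K / κ ≤ Real.log T := by
      rw [Real.le_log_iff_exp_le hTp]
      linarith
    rw [div_le_iff₀ hκ] at h3
    linarith
  have haT' := abs_le.1 haT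
  set F : ℂ → ℂ := fun z => X (I * T + ρ * z) with hF
  have hF1 : F 1 ≠ 0 := (hN.far 1 (by norm_num) (by simp)).1
  have hF1p : 0 < ‖F 1‖ := norm_pos_iff.2 hF1
  have hbig : ∀ w : ℂ, ‖w‖ ≤ 14 → ‖F w‖ ≤ ‖F 1‖ * Real.exp (38 * a) := by
    intro w hw
    have h1 := Pool.Agent.W32.SD.big (by linarith) (by norm_num) hN w hw
    have h2 := Pool.Agent.W571.SD.nn_grow hN (a := 1) (b := 3) (by norm_num) (by norm_num) (by simp)
      (by simp; norm_num)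
    have e : ((3 : ℂ) - 1) = ((2 : ℝ) : ℂ) := by norm_num
    rw [e, Complex.ofReal_re, Complex.norm_real, Real.norm_of_nonneg (by norm_num)] at h2
    calc ‖F w‖ ≤ ‖F 3‖ * Real.exp (34 * a) := h1
      _ ≤ (‖F 1‖ * Real.exp (a * 2 + 1 / 10 * a * 2)) * Real.exp (34 * a) := by gcongr
      _ = ‖F 1‖ * Real.exp (a * 2 + 1 / 10 * a * 2 + 34 * a) := by rw [mul_assoc, ← Real.exp_add]
      _ ≤ ‖F 1‖ * Real.exp (38 * a) := by
          gcongr
          linarith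
  have hρn : ‖(ρ : ℂ)‖ = ρ := by rw [Complex.norm_real, Real.norm_of_nonneg hρ.le]
  have hcen : (1 / 2 + (I * T + (-(ρ : ℂ))) : ℂ) = ⟨1 / 2 - ρ, T⟩ := by
    apply Complex.ext
    · simp
      ring
    · simp
  obtain ⟨q1, q2, q3, -, q5⟩ := hgam T (-(ρ : ℂ)) (by linarith) (by rw [norm_neg, hρn]; linarith)
  rw [Complex.neg_re, Complex.ofReal_re] at q5
  have hHp : 0 < ‖H (I * T)‖ := by
    have := (hgam T 0 (by linarith) (by simp)).2.1
    rw [add_zero] at this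
    exact norm_pos_iff.2 this
  have hXF : ‖F 1‖ = ‖H (I * T + (-(ρ : ℂ)))‖ * ‖Z ⟨1 / 2 - ρ, T⟩‖ := by
    have h1 := h.norm_symm T ρ
    have h2 : X (I * T + (-(ρ : ℂ))) = H (I * T + (-(ρ : ℂ))) * Z ⟨1 / 2 - ρ, T⟩ := by
      rw [h.eq _ (by simp; exact hTp), hcen]
    rw [h2, norm_mul] at h1
    rw [h1, hF]
    simp
  -- the logarithmic derivative
  have hm1 : (I * T + (-(ρ : ℂ)) : ℂ) = I * T + ρ * (-(conj (1 : ℂ))) := by simp
  obtain ⟨g1, g3, g4⟩ := h.nn_left (t := T) (by linarith) hρ hρ1 hN (u := 1) (by norm_num) (by simp)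
    (by rw [← hm1]; simp; linarith)
  rw [← hm1] at g1 g3 g4
  rw [hcen] at g3 g4
  have hre : κ / 2 * Real.log T ≤ (deriv H (I * T + (-(ρ : ℂ))) / H (I * T + (-(ρ : ℂ)))).re := by
    have h1 := (Complex.abs_re_le_norm _).trans q3
    rw [Complex.sub_re, Complex.ofReal_re, logDeriv_apply] at h1
    have := (abs_le.1 h1).1
    linarith
  have hκl0 : 0 < κ / 2 * Real.log T := by positivity
  have hdn : ‖Z ⟨1 / 2 - ρ, T⟩‖ ≤ Real.exp 1 * (ρ * ‖deriv Z ⟨1 / 2 - ρ, T⟩‖) := by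
    have h1 : κ / 2 * Real.log T ≤ ‖deriv Z ⟨1 / 2 - ρ, T⟩ / Z ⟨1 / 2 - ρ, T⟩‖ := by
      refine le_trans ?_ (Complex.abs_re_le_norm _)
      rw [abs_of_nonpos (by linarith)]
      linarith
    rw [norm_div, le_div_iff₀ (norm_pos_iff.2 g3)] at h1
    have h2 : 1 ≤ 2 * (ρ * (κ / 2 * Real.log T)) := by
      have : κ * ρ * Real.log T = 2 * (ρ * (κ / 2 * Real.log T)) := by ring
      linarith
    have h3 : (2 : ℝ) ≤ Real.exp 1 := by
      have := Real.add_one_le_exp (1 : ℝ)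
      linarith
    have h4 : 0 ≤ ρ * ‖deriv Z ⟨1 / 2 - ρ, T⟩‖ := by positivity
    calc ‖Z ⟨1 / 2 - ρ, T⟩‖ ≤ 2 * (ρ * (κ / 2 * Real.log T)) * ‖Z ⟨1 / 2 - ρ, T⟩‖ :=
          le_mul_of_one_le_left (norm_nonneg _) h2
      _ = 2 * (ρ * (κ / 2 * Real.log T * ‖Z ⟨1 / 2 - ρ, T⟩‖)) := by ring
      _ ≤ 2 * (ρ * ‖deriv Z ⟨1 / 2 - ρ, T⟩‖) := by gcongr
      _ ≤ _ := mul_le_mul_of_nonneg_right h3 h4
  have hΛ : 38 * a + 2 * K + 5 * (a + κ) ≤ (38 + 2 * K + 5 * (1 + κ)) * a := by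
    have e1 : 2 * K ≤ 2 * K * a := by nlinarith
    have e2 : 5 * (a + κ) ≤ 5 * (1 + κ) * a := by nlinarith
    nlinarith
  refine ⟨hρ, by linarith, by positivity, zero_le_one, g3, ?_, hdn⟩
  have hbd5 : ∀ z ∈ closedBall (⟨1 / 2 - ρ, T⟩ : ℂ) (5 * ρ),
      ‖Z z‖ ≤ Real.exp (38 * a + 2 * K + 5 * (a + κ)) * ‖Z ⟨1 / 2 - ρ, T⟩‖ := by
      intro z hz
      obtain ⟨u, hu⟩ : ∃ u : ℂ, u = (z - 1 / 2 - I * T) / ρ := ⟨_, rfl⟩
      have hρc : (ρ : ℂ) ≠ 0 := by exact_mod_cast hρ.ne'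
      have hzu : z = 1 / 2 + (I * T + ρ * u) := by
        rw [hu, mul_div_cancel₀ _ hρc]
        ring
      have hun : ‖u‖ ≤ 6 := by
        rw [hu, norm_div, hρn, div_le_iff₀ hρ]
        rw [mem_closedBall, dist_eq_norm] at hz
        have e : z - 1 / 2 - I * T = (z - ⟨1 / 2 - ρ, T⟩) + (-(ρ : ℂ)) := by
          rw [← hcen]; ring
        rw [e]
        refine (norm_add_le _ _).trans ?_
        rw [norm_neg, hρn]
        linarith
      have hρu : ‖(ρ : ℂ) * u‖ ≤ 1 := by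
        rw [norm_mul, hρn]
        nlinarith [norm_nonneg u]
      obtain ⟨r1, r2, -, r4, -⟩ := hgam T (ρ * u) (by linarith) hρu
      have him : 0 < (I * T + ρ * u : ℂ).im := by
        have h1 := (Complex.abs_im_le_norm _).trans hρu
        have h2 := (abs_le.1 h1).1
        rw [Complex.add_im]
        have h3 : (I * (T : ℂ)).im = T := by simp
        rw [h3]
        linarith
      have h1 : ‖F u‖ = ‖H (I * T + ρ * u)‖ * ‖Z z‖ := by
        rw [hzu, hF]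
        simp only
        rw [h.eq _ him, norm_mul]
      have h2 := hbig u (by linarith)
      rw [h1, hXF] at h2
      have hure : |u.re| ≤ 6 := (Complex.abs_re_le_norm u).trans hun
      have hre' : (ρ * u : ℂ).re = ρ * u.re := Complex.re_ofReal_mul _ _
      rw [hre'] at r4
      -- cancel
      have h3 : Real.exp (κ * Real.log T * (ρ * u.re) - K) * ‖H (I * T)‖ * ‖Z z‖ ≤
          (Real.exp (κ * Real.log T * -ρ + K) * ‖H (I * T)‖) * ‖Z ⟨1 / 2 - ρ, T⟩‖ * Real.exp (38 * a) := by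
        calc _ ≤ ‖H (I * T + ρ * u)‖ * ‖Z z‖ := by gcongr
          _ ≤ _ := h2
          _ ≤ _ := by gcongr
      have h4 : Real.exp (κ * Real.log T * (ρ * u.re) - K) * ‖Z z‖ ≤
          Real.exp (κ * Real.log T * -ρ + K) * ‖Z ⟨1 / 2 - ρ, T⟩‖ * Real.exp (38 * a) := by
        refine le_of_mul_le_mul_right ?_ hHp
        linarith
      have h5 : ‖Z z‖ ≤ Real.exp (-(κ * Real.log T * (ρ * u.re) - K)) *
          (Real.exp (κ * Real.log T * -ρ + K) * ‖Z ⟨1 / 2 - ρ, T⟩‖ * Real.exp (38 * a)) := by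
        rw [Real.exp_neg, ← div_eq_inv_mul, le_div_iff₀ (Real.exp_pos _)]
        linarith
      refine h5.trans ?_
      have h6 : ∀ p q r z : ℝ, Real.exp (-p) * (Real.exp q * z * Real.exp r) = Real.exp (-p + q + r) * z := by
        intro p q r z
        rw [Real.exp_add, Real.exp_add]
        ring
      rw [h6]
      refine mul_le_mul_of_nonneg_right (Real.exp_le_exp.2 ?_) (norm_nonneg _)
      have h7 : 0 ≤ κ * ρ * Real.log T := by positivity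
      have h8 : -(κ * ρ * Real.log T * (1 + u.re)) ≤ 5 * (κ * ρ * Real.log T) := by
        have h9 : -6 ≤ u.re := (abs_le.1 hure).1
        nlinarith
      have h10 : 5 * (κ * ρ * Real.log T) ≤ 5 * (a + κ) := by linarith
      have h11 : -(κ * Real.log T * (ρ * u.re) - K) + (κ * Real.log T * -ρ + K) =
          2 * K - κ * ρ * Real.log T * (1 + u.re) := by ring
      linarith
  exact fun z hz => (hbd5 z hz).trans (mul_le_mul_of_nonneg_right (Real.exp_le_exp.2 hΛ) (norm_nonneg _))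

theorem ok_good (h : SD κ B H X Z) : ∃ C a0 T0 : ℝ, 0 < C ∧ 1 ≤ a0 ∧ 2 ≤ T0 ∧ ∀ T a ρ h0 : ℝ, T0 ≤ T → a0 ≤ a →
    0 < ρ → ρ ≤ 1 / 100 → |κ * ρ * Real.log T - a| ≤ κ → NN a (1 / 10) (fun z => X (I * T + ρ * z)) →
    0 ≤ h0 → h0 < ρ → StrictMonoOn (fun x : ℝ => ‖X (x + T * I : ℂ)‖) (Set.Ici h0) →
    (∀ σ : ℝ, σ < 1 / 2 → Z ⟨σ, T⟩ ≠ 0 ∧ deriv Z ⟨σ, T⟩ ≠ 0) → Ok Z T ρ (C * a) := by
  obtain ⟨C, a0, T0, hC, ha0, hT0, hB, hbd⟩ := h.bd_good
  refine ⟨600 * C + 360, a0, T0, by positivity, ha0, hT0, ?_⟩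
  intro T a ρ h0 hT ha hρ hρ1 haT hN h0n h0ρ hmono hne
  have ha1 : 1 ≤ a := by linarith
  have hok := ok_of (hbd T a ρ hT ha hρ hρ1 haT hN) h.ua.an hne (by
      intro σ hσ
      obtain ⟨-, -, -, k4⟩ := h.left_of_mono (w := ⟨σ - 1 / 2, T⟩) (t := T) (h0 := h0) (by linarith)
        h0n hmono rfl (by show σ - 1 / 2 < -h0; linarith)
      obtain ⟨-, -, k5⟩ := h.left ⟨σ - 1 / 2, T⟩ (by show B ≤ T; linarith) (by show σ - 1 / 2 ≤ 1; linarith)
      have e : (1 / 2 + ⟨σ - 1 / 2, T⟩ : ℂ) = ⟨σ, T⟩ := by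
        apply Complex.ext <;> simp
      rw [e] at k4
      linarith)
  refine ⟨hok.r_pos, hok.ne, hok.neg, fun b h1 h2 => (hok.int b h1 h2).trans ?_⟩
  nlinarith

end SD

end

end Pool.Agent.N831.SX
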