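import Pool.Agent.N831.SX.E

set_option autoImplicit false

/-!
# Exponential tails
-/

namespace Pool.Agent.N831.SX

open Complex Filter Topology Set MeasureTheory Metric
open Pool.Agent.H24R2.DZ (NN)
open Pool.Agent.Y22.RX (Bad)

noncomputable section

/-- no zeros to the left of the line at this height -/
def Reg (Z : ℂ → ℂ) (T : ℝ) : Prop := ∀ σ : ℝ, σ < 1 / 2 → Z ⟨σ, T⟩ ≠ 0 ∧ deriv Z ⟨σ, T⟩ ≠ 0

/-- the difference of the counting functions -/
def DF (Z : ℂ → ℂ) (B T : ℝ) : ℝ := |(NS (deriv Z) B T : ℝ) - NS Z B T|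

lemma halving {f : ℝ → ENNReal} {b A : ℝ} (hb : 1 ≤ b) (hA : 0 ≤ A) (h0 : ∀ x, x ≤ b → f x = 0)
    (h : ∀ x, 0 ≤ x → f x ≤ f (x / 2) + ENNReal.ofReal (A * x)) (x : ℝ) (hx : 0 ≤ x) :
    f x ≤ ENNReal.ofReal (2 * A * x) := by
  have key : ∀ n : ℕ, ∀ x : ℝ, 0 ≤ x → x ≤ 2 ^ n → f x ≤ ENNReal.ofReal (2 * A * x) := by
    intro n
    induction n with
    | zero =>
      intro x _ hx1
      rw [pow_zero] at hx1
      rw [h0 x (hx1.trans hb)]
      exact bot_le
    | succ n ih =>
      intro x hx0 hx1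
      have h2 := ih (x / 2) (by linarith) (by rw [pow_succ] at hx1; linarith)
      refine (h x hx0).trans ((add_le_add_left h2 _).trans ?_)
      rw [← ENNReal.ofReal_add (by positivity) (by positivity)]
      apply ENNReal.ofReal_le_ofReal
      linarith
  obtain ⟨n, hn⟩ := pow_unbounded_of_one_lt x (one_lt_two)
  exact key n x hx hn.le

namespace SD

variable {κ B : ℝ} {H X Z : ℂ → ℂ}

lemma irreg (h : SD κ B H X Z) : volume {T : ℝ | 0 < T ∧ ¬ Reg Z T} = 0 := by
  have hc : Set.Countable {T : ℝ | 0 < T ∧ ¬ Reg Z T} := by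
    refine (h.ua.countable.union h.ua'.countable).mono ?_
    rintro T ⟨h1, h2⟩
    unfold Reg at h2
    push Not at h2
    obtain ⟨σ, -, h4⟩ := h2
    by_cases h5 : Z ⟨σ, T⟩ = 0
    · exact Or.inl ⟨h1, σ, h5⟩
    · exact Or.inr ⟨h1, σ, h4 h5⟩
  exact hc.measure_zero volume

lemma exists_reg (h : SD κ B H X Z) (b : ℝ) (hb : 0 ≤ b) : ∃ b0 : ℝ, b < b0 ∧ Reg Z b0 := by
  by_contra hcon
  push Not at hcon
  have h1 : Ioo b (b + 1) ⊆ {T : ℝ | 0 < T ∧ ¬ Reg Z T} := fun T hT => ⟨by linarith [hT.1], hcon T hT.1⟩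
  have h2 := measure_mono (μ := volume) h1
  rw [h.irreg, Real.volume_Ioo] at h2
  simp at h2

/-- the difference at admissible heights -/
lemma df_le (h : SD κ B H X Z) {b0 r0 E0 : ℝ} (hb : B ≤ b0) (o0 : Ok Z b0 r0 E0) :
    (∀ T : ℝ, B ≤ T → T ≤ b0 → DF Z B T ≤ (NS (deriv Z) B b0 : ℝ) + NS Z B b0) ∧
    ∀ T r E : ℝ, b0 < T → Ok Z T r E → DF Z B T ≤ (NS (deriv Z) B b0 : ℝ) + NS Z B b0 + 1 + E0 + E := by
  obtain ⟨f1, f2⟩ := h.zs_finite (T1 := B) b0 le_rfl
  constructor
  · intro T h1 h2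
    have k1 : (NS Z B T : ℝ) ≤ NS Z B b0 := by exact_mod_cast ns_mono h1 h2 f1
    have k2 : (NS (deriv Z) B T : ℝ) ≤ NS (deriv Z) B b0 := by exact_mod_cast ns_mono h1 h2 f2
    have k3 : (0 : ℝ) ≤ NS Z B T := Nat.cast_nonneg _
    have k4 : (0 : ℝ) ≤ NS (deriv Z) B T := Nat.cast_nonneg _
    unfold DF
    rw [abs_le]
    constructor <;> linarith
  · intro T r E hT oT
    obtain ⟨g1, g2⟩ := h.zs_finite (T1 := B) T le_rfl
    have k1 : (NS Z B T : ℝ) = NS Z B b0 + NS Z b0 T := by exact_mod_cast ns_add hb hT.le g1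
    have k2 : (NS (deriv Z) B T : ℝ) = NS (deriv Z) B b0 + NS (deriv Z) b0 T := by
      exact_mod_cast ns_add hb hT.le g2
    have k3 := abs_le.1 (h.diff hb hT o0 oT)
    have k5 : (0 : ℝ) ≤ NS Z B b0 := Nat.cast_nonneg _
    have k6 : (0 : ℝ) ≤ NS (deriv Z) B b0 := Nat.cast_nonneg _
    unfold DF
    rw [k1, k2, abs_le]
    constructor <;> linarith [k3.1, k3.2]

/-- **Exponential tails.** -/
theorem tails (h : SD κ B H X Z) : ∃ c C : ℝ, 0 < c ∧ 0 < C ∧ ∀ l x : ℝ, 0 ≤ l → 0 ≤ x →
    volume {T : ℝ | B ≤ T ∧ T ≤ x ∧ l < DF Z B T} ≤ ENNReal.ofReal (C * Real.exp (-(c * l)) * x) := by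
  have hκ := h.κ_pos
  have hB1 := h.B_one
  obtain ⟨R, C1, T1, hC1, hT1, hfar⟩ := h.ok_far
  obtain ⟨C2, a2, T2, hC2, ha2, hT2, hgood⟩ := h.ok_good
  obtain ⟨cg, Cg, ag, Tg, hcg, hCg, hag, hTg, hG⟩ := h.good
  obtain ⟨cs, Cs, hcs, hCs, hS⟩ := h.shad
  obtain ⟨b0, hb0, hreg⟩ := h.exists_reg (B + T1 + T2 + Tg) (by linarith)
  have o0 := hfar b0 (by linarith) hreg
  obtain ⟨d1, d2⟩ := h.df_le (by linarith) o0
  set K0 : ℝ := (NS (deriv Z) B b0 : ℝ) + NS Z B b0 with hK0
  have hK0n : 0 ≤ K0 := by positivity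
  have hlb0 : 0 < Real.log b0 := Real.log_pos (by linarith)
  obtain ⟨K1, hK1⟩ : ∃ K1 : ℝ, K1 = K0 + 1 + C1 * Real.log b0 := ⟨_, rfl⟩
  have hK1n : 0 < K1 := by rw [hK1]; positivity
  have hK01 : K0 ≤ K1 := by rw [hK1]; have : 0 < C1 * Real.log b0 := by positivity
                            linarith
  -- parameters
  obtain ⟨s0, hs0⟩ : ∃ s0 : ℝ, s0 = 200 * (1 + 1 / κ) := ⟨_, rfl⟩
  have hs0p : 0 < s0 := by rw [hs0]; positivity
  obtain ⟨C3, hC32, hC31⟩ : ∃ C3 : ℝ, C2 ≤ C3 ∧ C1 * s0 ≤ C3 := ⟨max C2 (C1 * s0), le_max_left _ _, le_max_right _ _⟩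
  have hC3 : 0 < C3 := lt_of_lt_of_le hC2 hC32
  obtain ⟨l0, hl0⟩ : ∃ l0 : ℝ, l0 = K1 + C3 * (a2 + ag) := ⟨_, rfl⟩
  obtain ⟨c', hc', hc1, hc2⟩ : ∃ c' : ℝ, 0 < c' ∧ c' ≤ cg ∧ c' ≤ cs / (2 * κ) :=
    ⟨min cg (cs / (2 * κ)), lt_min hcg (by positivity), min_le_left _ _, min_le_right _ _⟩
  have hfinal : ∀ l x : ℝ, l0 ≤ l → 0 ≤ x → volume {T : ℝ | B ≤ T ∧ T ≤ x ∧ l < DF Z B T} ≤
      ENNReal.ofReal (2 * ((Cg + Cs) * Real.exp (-(c' * ((l - K1) / C3)))) * x) := by
    intro l x hl hx
    obtain ⟨a, ha⟩ : ∃ a : ℝ, a = (l - K1) / C3 := ⟨_, rfl⟩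
    rw [← ha]
    have haC : C3 * a = l - K1 := by rw [ha]; field_simp
    have haa : a2 + ag ≤ a := by
      rw [ha, le_div_iff₀ hC3]
      linarith
    have ha0 : 0 < a := by linarith
    have hset : {T : ℝ | B ≤ T ∧ T ≤ x ∧ l < DF Z B T} ⊆ {T : ℝ | b0 < T ∧ T ≤ x ∧ l < DF Z B T} := by
      rintro T ⟨h1, h2, h3⟩
      refine ⟨?_, h2, h3⟩
      by_contra hcon
      push Not at hcon
      have h4 := d1 T h1 hcon
      have h5 : 0 ≤ C3 * (a2 + ag) := by positivity
      linarith
    refine (measure_mono hset).trans ?_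
    refine halving (f := fun x => volume {T : ℝ | b0 < T ∧ T ≤ x ∧ l < DF Z B T}) (b := b0)
      (A := (Cg + Cs) * Real.exp (-(c' * a))) (by linarith) (by positivity) ?_ ?_ x hx
    · intro x hx
      have : {T : ℝ | b0 < T ∧ T ≤ x ∧ l < DF Z B T} = ∅ := by
        rw [Set.eq_empty_iff_forall_notMem]
        rintro T ⟨h1, h2, -⟩
        linarith
      rw [this, measure_empty]
    · intro x hx
      have hsub : {T : ℝ | b0 < T ∧ T ≤ x ∧ l < DF Z B T} ⊆ {T : ℝ | b0 < T ∧ T ≤ x / 2 ∧ l < DF Z B T} ∪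
          {T : ℝ | b0 < T ∧ x / 2 < T ∧ T ≤ x ∧ l < DF Z B T} := by
        rintro T ⟨h1, h2, h3⟩
        rcases le_or_gt T (x / 2) with h4 | h4
        · exact Or.inl ⟨h1, h4, h3⟩
        · exact Or.inr ⟨h1, h4, h2, h3⟩
      refine (measure_mono hsub).trans ((measure_union_le _ _).trans (add_le_add le_rfl ?_))
      -- one block
      rcases le_or_gt x b0 with hxb | hxb
      · have : {T : ℝ | b0 < T ∧ x / 2 < T ∧ T ≤ x ∧ l < DF Z B T} = ∅ := by
          rw [Set.eq_empty_iff_forall_notMem]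
          rintro T ⟨h1, -, h2, -⟩
          linarith
        rw [this, measure_empty]
        exact bot_le
      have hxp : 0 < x := by linarith
      have hlx : 0 < Real.log x := Real.log_pos (by linarith)
      rcases le_or_gt (Real.log x) (s0 * a) with hsx | hsx
      · -- small heights
        have : {T : ℝ | b0 < T ∧ x / 2 < T ∧ T ≤ x ∧ l < DF Z B T} ⊆ {T : ℝ | 0 < T ∧ ¬ Reg Z T} := by
          rintro T ⟨h1, h2, h3, h4⟩
          refine ⟨by linarith, fun hr => ?_⟩
          have h5 := d2 T R (C1 * Real.log T) h1 (hfar T (by linarith) hr)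
          have h6 : Real.log T ≤ s0 * a := (Real.log_le_log (by linarith) h3).trans hsx
          have h7 : C1 * Real.log T ≤ C3 * a := by
            calc C1 * Real.log T ≤ C1 * (s0 * a) := by gcongr
              _ = C1 * s0 * a := by ring
              _ ≤ C3 * a := by gcongr
          linarith
        refine (measure_mono this).trans ?_
        rw [h.irreg]
        exact bot_le
      · -- good scales
        obtain ⟨ρ, hρ⟩ : ∃ ρ : ℝ, ρ = a / (κ * Real.log x) := ⟨_, rfl⟩
        have hρ0 : 0 < ρ := by rw [hρ]; positivity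
        have hκρ : κ * ρ = a / Real.log x := by rw [hρ]; field_simp
        have hκρx : κ * ρ * Real.log x = a := by rw [hκρ]; field_simp
        have hκρ1 : κ * ρ ≤ 1 / s0 := by
          rw [hκρ, div_le_div_iff₀ hlx hs0p]
          linarith
        have hs1 : 1 / s0 ≤ 1 / 200 := by
          rw [hs0]
          apply one_div_le_one_div_of_le (by norm_num)
          have : 0 < 1 / κ := by positivity
          linarith
        have hs2 : 1 / s0 ≤ κ / 200 := by
          rw [hs0, div_le_div_iff₀ (by positivity) (by norm_num)]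
          have : κ * (200 * (1 + 1 / κ)) = 200 * κ + 200 := by field_simp
          rw [this]
          linarith
        have hρ1 : ρ ≤ 1 / 200 := by
          have h1 : κ * ρ ≤ κ * (1 / 200) := by linarith
          exact le_of_mul_le_mul_left h1 hκ
        have hr : ρ / 2 = a / (2 * κ) / Real.log x := by rw [hρ]; field_simp
        have hcov : {T : ℝ | b0 < T ∧ x / 2 < T ∧ T ≤ x ∧ l < DF Z B T} ⊆
            {T : ℝ | 0 < T ∧ ¬ Reg Z T} ∪
            ({t0 : ℝ | x / 2 ≤ t0 ∧ t0 ≤ 3 * x ∧ ¬ NN a (1 / 10) (fun z => X (I * t0 + ρ * z))} ∪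
              (Bad X (a / (2 * κ) / Real.log x) x ∩ Ioi 1)) := by
          rintro T ⟨h1, h2, h3, h4⟩
          by_cases hr1 : Reg Z T
          · right
            by_cases hr2 : NN a (1 / 10) (fun z => X (I * T + ρ * z))
            · right
              refine ⟨⟨by linarith, h3, fun hr3 => ?_⟩, by rw [Set.mem_Ioi]; linarith⟩
              rw [← hr] at hr3
              have hTp : 0 < T := by linarith
              have h5 : |κ * ρ * Real.log T - a| ≤ κ := by
                have h6 : κ * ρ * Real.log T - a = -(κ * ρ * (Real.log x - Real.log T)) := by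
                  rw [← hκρx]; ring
                have h7 : Real.log T ≤ Real.log x := Real.log_le_log hTp h3
                have h8 : Real.log x - Real.log T ≤ 1 := by
                  have h9 : Real.log (x / 2) ≤ Real.log T := Real.log_le_log (by linarith) h2.le
                  rw [Real.log_div hxp.ne' (by norm_num)] at h9
                  have := Real.log_two_lt_d9
                  linarith
                have h10 : 0 < κ * ρ := by positivity
                rw [h6, abs_neg, abs_of_nonneg (mul_nonneg h10.le (by linarith))]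
                nlinarith
              have h6 := hgood T a ρ (ρ / 2) (by linarith) (by linarith) hρ0 (by linarith) h5 hr2 (by linarith)
                (by linarith) hr3 hr1
              have h7 := d2 T ρ (C2 * a) h1 h6
              have h8 : C2 * a ≤ C3 * a := by gcongr
              linarith
            · left
              exact ⟨h2.le, by linarith, hr2⟩
          · left
            exact ⟨by linarith, hr1⟩
        refine (measure_mono hcov).trans ((measure_union_le _ _).trans ?_)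
        rw [h.irreg, zero_add]
        refine (measure_union_le _ _).trans ?_
        have m1 := hG x a ρ (by linarith) (by linarith) hρ0 hρ1 (by linarith) hκρx
        have m2 := hS (a / (2 * κ)) x (by positivity) (by linarith)
        refine (add_le_add m1 m2).trans ?_
        rw [← ENNReal.ofReal_add (by positivity) (by positivity)]
        apply ENNReal.ofReal_le_ofReal
        have e1 : Real.exp (-(cg * a)) ≤ Real.exp (-(c' * a)) := by
          apply Real.exp_le_exp.2
          have : c' * a ≤ cg * a := by gcongr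
          linarith
        have e2 : Real.exp (-(cs * (a / (2 * κ)))) ≤ Real.exp (-(c' * a)) := by
          apply Real.exp_le_exp.2
          have : c' * a ≤ cs / (2 * κ) * a := by gcongr
          have e3 : cs * (a / (2 * κ)) = cs / (2 * κ) * a := by ring
          linarith
        calc Cg * x * Real.exp (-(cg * a)) + Cs * Real.exp (-(cs * (a / (2 * κ)))) * x
            ≤ Cg * x * Real.exp (-(c' * a)) + Cs * Real.exp (-(c' * a)) * x := by gcongr
          _ = (Cg + Cs) * Real.exp (-(c' * a)) * x := by ring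
  -- conclusion
  have hl0p : 0 < l0 := by rw [hl0]; positivity
  obtain ⟨c, hc⟩ : ∃ c : ℝ, c = c' / C3 := ⟨_, rfl⟩
  have hcp : 0 < c := by rw [hc]; positivity
  refine ⟨c, 2 * (Cg + Cs) * Real.exp (c * K1) + Real.exp (c * l0), hcp, by positivity, ?_⟩
  intro l x hl hx
  rcases le_or_gt l0 l with h1 | h1
  · refine (hfinal l x h1 hx).trans (ENNReal.ofReal_le_ofReal ?_)
    have e1 : Real.exp (-(c' * ((l - K1) / C3))) = Real.exp (c * K1) * Real.exp (-(c * l)) := by
      rw [← Real.exp_add, hc]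
      congr 1
      field_simp
      ring
    rw [e1]
    have e2 : 0 ≤ Real.exp (c * l0) * Real.exp (-(c * l)) * x := by positivity
    nlinarith
  · have h2 : {T : ℝ | B ≤ T ∧ T ≤ x ∧ l < DF Z B T} ⊆ Icc 0 x := fun T hT => ⟨by linarith [hT.1], hT.2.1⟩
    refine (measure_mono h2).trans ?_
    rw [Real.volume_Icc, sub_zero]
    apply ENNReal.ofReal_le_ofReal
    have e1 : 1 ≤ Real.exp (c * l0) * Real.exp (-(c * l)) := by
      rw [← Real.exp_add]
      apply Real.one_le_exp
      nlinarith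
    have e2 : 0 ≤ 2 * (Cg + Cs) * Real.exp (c * K1) * Real.exp (-(c * l)) * x := by positivity
    nlinarith

end SD

end

end Pool.Agent.N831.SX
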