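import Pool.Agent.N831.SX.F

set_option autoImplicit false

/-!
# Jensen discs for the derivative of an L-function
-/

namespace Pool.Agent.N831.SX

open Complex Filter Topology Set MeasureTheory Metric Polynomial
open scoped ComplexConjugate
open Pool.Agent.Y22.LM
open Pool.Agent.R838.TW (Sy)
open Pool.Agent.N831.SP (re_le_of_left)

noncomputable section

lemma q_jen {β x h1 h2 : ℝ} (h0 : 0 ≤ h1) (h12 : h1 ≤ h2) (hc : β ^ 2 ≤ h1 ^ 2 + x ^ 2) :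
    q β x h1 ≤ q β x h2 := by
  rw [q_eq, q_eq]
  have h3 : h1 ^ 2 ≤ h2 ^ 2 := by gcongr
  have h4 : 0 ≤ h2 ^ 2 - h1 ^ 2 := by linarith
  have h5 : 0 ≤ (h2 ^ 2 - h1 ^ 2) * (h1 ^ 2 + h2 ^ 2 - 2 * β ^ 2 + 2 * x ^ 2) := by
    apply mul_nonneg h4
    linarith
  nlinarith

lemma poly_jen {p : ℂ[X]} {t h1 h2 : ℝ}
    (hsym : ∀ h : ℝ, ‖p.eval (-h + t * I : ℂ)‖ = ‖p.eval (h + t * I : ℂ)‖)
    (h0 : 0 ≤ h1) (h12 : h1 ≤ h2) (hA : ∀ b, b ∈ p.roots → b.re ^ 2 ≤ h1 ^ 2 + (t - b.im) ^ 2) :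
    ‖p.eval (h1 + t * I : ℂ)‖ ≤ ‖p.eval (h2 + t * I : ℂ)‖ := by
  have h4 : ‖p.eval (h1 + t * I : ℂ)‖ ^ 4 ≤ ‖p.eval (h2 + t * I : ℂ)‖ ^ 4 := by
    rw [norm_eval_pow4 hsym, norm_eval_pow4 hsym]
    refine mul_le_mul_of_nonneg_left ?_ (by positivity)
    refine Multiset.prod_map_le_prod_map₀ _ _ (fun b _ => q_nonneg _ _ _) fun b hb => ?_
    exact q_jen h0 h12 (hA b hb)
  exact le_of_pow_le_pow_left₀ (by norm_num) (norm_nonneg _) h4

theorem sy_jen {Φ : ℂ → ℂ} (h : Sy Φ) {t h1 h2 : ℝ} (h0 : 0 ≤ h1) (h12 : h1 ≤ h2)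
    (hZ : ∀ b : ℂ, Φ b = 0 → b.re ^ 2 ≤ h1 ^ 2 + (t - b.im) ^ 2) :
    ‖Φ (h1 + t * I : ℂ)‖ ≤ ‖Φ (h2 + t * I : ℂ)‖ := by
  obtain ⟨R, hR1, hR2, hR3⟩ := h.app
  have hN : ∀ N, ‖(R N).eval (h1 + t * I : ℂ)‖ ≤ ‖(R N).eval (h2 + t * I : ℂ)‖ := by
    intro N
    refine poly_jen (fun x => hR3 N x t) h0 h12 fun b hb => ?_
    rcases hR1 N b (Polynomial.isRoot_of_mem_roots hb) with h6 | h6
    · exact hZ b h6
    · rw [h6]
      nlinarith [sq_nonneg h1, sq_nonneg (t - b.im)]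
  have h3 : ‖Φ (h1 + t * I : ℂ) * Φ (h1 + t * I : ℂ)‖ ≤ ‖Φ (h2 + t * I : ℂ) * Φ (h2 + t * I : ℂ)‖ :=
    le_of_tendsto_of_tendsto' (hR2 _).norm (hR2 _).norm hN
  rw [norm_mul, norm_mul] at h3
  exact abs_le_of_sq_le_sq' (by nlinarith) (norm_nonneg _) |>.2

namespace SD

variable {κ B : ℝ} {H X Z : ℂ → ℂ}

/-- **Jensen discs.** -/
theorem jensenX (h : SD κ B H X Z) {s : ℂ} (hs : deriv Z s = 0) (hre : s.re < 1 / 2) (him : B ≤ s.im) :
    ∃ b : ℂ, X b = 0 ∧ 0 < b.re ∧ 0 < b.im ∧ ‖s - ⟨1 / 2, b.im⟩‖ ≤ b.re := by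
  have hB1 := h.B_one
  -- a zero of `X` whose disc contains the point
  have key : ∃ b : ℂ, X b = 0 ∧ (1 / 2 - s.re) ^ 2 + (s.im - b.im) ^ 2 ≤ b.re ^ 2 := by
    by_contra hcon
    push Not at hcon
    obtain ⟨w, hw⟩ : ∃ w : ℂ, w = s - 1 / 2 := ⟨_, rfl⟩
    have hwr : w.re = s.re - 1 / 2 := by rw [hw]; simp
    have hwi : w.im = s.im := by rw [hw]; simp
    have hsw : s = 1 / 2 + w := by rw [hw]; ring
    have hwe : w = w.re + s.im * I := by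
      apply Complex.ext <;> simp [hwi]
    have hsy : ∀ x : ℝ, ‖X (x + s.im * I : ℂ)‖ = ‖X (((-x : ℝ) : ℂ) + s.im * I : ℂ)‖ := by
      intro x
      have e : (((-x : ℝ) : ℂ) + s.im * I : ℂ) = -(conj (x + s.im * I : ℂ)) := by
        apply Complex.ext <;> simp
      rw [e, h.sy.symm, Complex.norm_conj]
    have hX0 : X w ≠ 0 := by
      intro h0
      have := hcon w h0
      rw [hwi, sub_self, hwr] at this
      nlinarith
    have hX1 : (deriv X w / X w).re ≤ 0 := by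
      have h2 := re_le_of_left (f := X) (σ := w.re) (t := s.im) (c := 0) (h.sy.diff _) (by rw [← hwe]; exact hX0) (by
        filter_upwards [self_mem_nhdsWithin] with x hx
        rw [Set.mem_Iio] at hx
        rw [zero_mul, Real.exp_zero, mul_one]
        have h1 := sy_jen h.sy (t := s.im) (h1 := -w.re) (h2 := -x) (by rw [hwr]; linarith) (by linarith)
          (fun b hb => by
            have := hcon b hb
            rw [hwr]
            nlinarith)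
        rw [hsy (-w.re), hsy (-x), neg_neg, neg_neg] at h1
        exact h1)
      rw [← hwe] at h2
      simpa using h2
    have h8 := congrArg Complex.re (h.split (w := w) (by rw [hwi]; exact him) (by rw [hwr]; linarith) hX0)
    rw [← hsw, hs, zero_div, add_zero] at h8
    obtain ⟨-, -, h9⟩ := h.left w (by rw [hwi]; exact him) (by rw [hwr]; linarith)
    linarith
  -- on the right of the line
  obtain ⟨b, hb, hb2⟩ : ∃ b : ℂ, (X b = 0 ∧ 0 < b.re) ∧ (1 / 2 - s.re) ^ 2 + (s.im - b.im) ^ 2 ≤ b.re ^ 2 := by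
    obtain ⟨b, hb, hb2⟩ := key
    have hb0 : b.re ≠ 0 := by
      intro h0
      rw [h0] at hb2
      nlinarith [sq_nonneg (s.im - b.im)]
    rcases lt_or_gt_of_ne hb0 with h1 | h1
    · refine ⟨-(conj b), ⟨by rw [h.sy.symm, hb, map_zero], by simpa using h1⟩, ?_⟩
      simpa using hb2
    · exact ⟨b, ⟨hb, h1⟩, hb2⟩
  have hbs := abs_le.1 (h.strip b hb.1)
  have hbi : 0 < b.im := by nlinarith [sq_nonneg (1 / 2 - s.re)]
  refine ⟨b, hb.1, hb.2, hbi, ?_⟩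
  have h3 : ‖s - ⟨1 / 2, b.im⟩‖ ^ 2 = (1 / 2 - s.re) ^ 2 + (s.im - b.im) ^ 2 := by
    rw [← Complex.normSq_eq_norm_sq, Complex.normSq_apply]
    simp only [Complex.sub_re, Complex.sub_im]
    ring
  rw [← h3] at hb2
  exact abs_le_of_sq_le_sq' hb2 hb.2.le |>.2

theorem jensen (h : SD κ B H X Z) {s : ℂ} (hs : deriv Z s = 0) (hre : s.re < 1 / 2) (him : B ≤ s.im) :
    ∃ ρ : ℂ, Z ρ = 0 ∧ 1 / 2 < ρ.re ∧ ρ.re ≤ 1 ∧ ‖s - ⟨1 / 2, ρ.im⟩‖ ≤ ρ.re - 1 / 2 := by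
  obtain ⟨b, h1, h2, h3, h4⟩ := h.jensenX hs hre him
  have h5 := (abs_le.1 (h.strip b h1)).2
  have e1 : (1 / 2 + b : ℂ).im = b.im := by simp
  have e2 : (1 / 2 + b : ℂ).re - 1 / 2 = b.re := by simp
  refine ⟨1 / 2 + b, ?_, by linarith, by linarith, ?_⟩
  · have h6 := h.eq b h3
    rw [h1] at h6
    exact (mul_eq_zero.1 h6.symm).resolve_left (h.Hne b h3)
  · rw [e1, e2]
    exact h4

end SD

end

end Pool.Agent.N831.SX
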