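import Pool.Agent.N831.SX.G

set_option autoImplicit false

/-!
# The zeros of the derivative to the left of the line: counting
-/

namespace Pool.Agent.N831.SX

open Complex Filter Topology Set MeasureTheory Metric
open scoped ComplexConjugate ENNReal
open Pool.Agent.H24R2.DZ (NN)

noncomputable section

/-- counting by integration -/
theorem int_count (S : Finset ℂ) (m : ℂ → ℕ) {r : ℝ} (hr : 0 < r) :
    ENNReal.ofReal (2 * r * ∑ s ∈ S, (m s : ℝ)) ≤
      ∑' k : ℕ, volume {t : ℝ | k < ∑ s ∈ S.filter (fun s => |t - s.im| ≤ r), m s} := by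
  classical
  obtain ⟨n, hn⟩ : ∃ n : ℝ → ℕ, n = fun t => ∑ s ∈ S, (Icc (s.im - r) (s.im + r)).indicator (fun _ => m s) t := ⟨_, rfl⟩
  have hn' : ∀ t, n t = ∑ s ∈ S.filter (fun s => |t - s.im| ≤ r), m s := by
    intro t
    rw [hn, Finset.sum_filter]
    refine Finset.sum_congr rfl fun s _ => ?_
    rw [Set.indicator_apply]
    have : t ∈ Icc (s.im - r) (s.im + r) ↔ |t - s.im| ≤ r := by
      rw [Set.mem_Icc, abs_le]
      constructor
      · rintro ⟨h1, h2⟩
        constructor <;> linarith
      · rintro ⟨h1, h2⟩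
        constructor <;> linarith
    simp only [this]
  have hnm : Measurable n := by
    rw [hn]
    exact Finset.measurable_sum S fun s _ => measurable_const.indicator measurableSet_Icc
  have hmk : ∀ k : ℕ, MeasurableSet {t : ℝ | k < n t} := fun k => measurableSet_lt measurable_const hnm
  have h1 : ∫⁻ t, (n t : ℝ≥0∞) = ∑' k : ℕ, volume {t : ℝ | k < n t} := by
    have h2 : ∀ t, (n t : ℝ≥0∞) = ∑' k : ℕ, ({t : ℝ | k < n t}).indicator (fun _ => (1 : ℝ≥0∞)) t := by
      intro t
      rw [tsum_eq_sum (s := Finset.range (n t))]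
      · rw [Finset.sum_congr rfl (g := fun _ => (1 : ℝ≥0∞))]
        · simp
        · intro k hk
          rw [Finset.mem_range] at hk
          rw [Set.indicator_of_mem]
          exact hk
      · intro k hk
        rw [Finset.mem_range] at hk
        rw [Set.indicator_of_notMem]
        exact hk
    simp only [h2]
    rw [lintegral_tsum]
    · refine tsum_congr fun k => ?_
      rw [lintegral_indicator_const (hmk k), one_mul]
    · intro k
      exact (measurable_const.indicator (hmk k)).aemeasurable
  have h3 : ∫⁻ t, (n t : ℝ≥0∞) = ENNReal.ofReal (2 * r * ∑ s ∈ S, (m s : ℝ)) := by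
    have h4 : ∀ t, (n t : ℝ≥0∞) = ∑ s ∈ S, (Icc (s.im - r) (s.im + r)).indicator (fun _ => (m s : ℝ≥0∞)) t := by
      intro t
      rw [hn]
      push_cast
      refine Finset.sum_congr rfl fun s _ => ?_
      rw [Set.indicator_apply, Set.indicator_apply]
      split_ifs <;> simp
    simp only [h4]
    rw [lintegral_finsetSum _ (fun s _ => measurable_const.indicator measurableSet_Icc)]
    have h5 : ∀ s ∈ S, ∫⁻ t, (Icc (s.im - r) (s.im + r)).indicator (fun _ => (m s : ℝ≥0∞)) t =
        ENNReal.ofReal (2 * r * m s) := by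
      intro s _
      rw [lintegral_indicator_const measurableSet_Icc, Real.volume_Icc]
      have e : s.im + r - (s.im - r) = 2 * r := by ring
      rw [e, mul_comm, ENNReal.ofReal_mul (p := 2 * r) (by positivity), ENNReal.ofReal_natCast]
    rw [Finset.sum_congr rfl h5, ← ENNReal.ofReal_sum_of_nonneg (fun s _ => by positivity), Finset.mul_sum]
  rw [← h3, h1]
  refine le_of_eq (tsum_congr fun k => ?_)
  simp only [hn']

/-- a geometric series -/
lemma geo {A q : ℝ} (hA : 0 ≤ A) (hq : 0 ≤ q) (hq1 : q < 1) :
    ∑' k : ℕ, ENNReal.ofReal (A * q ^ k) = ENNReal.ofReal (A / (1 - q)) := by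
  have hs : Summable (fun k : ℕ => A * q ^ k) := (summable_geometric_of_lt_one hq hq1).mul_left A
  rw [← ENNReal.ofReal_tsum_of_nonneg (fun k => by positivity) hs, tsum_mul_left,
    tsum_geometric_of_lt_one hq hq1, div_eq_mul_inv]

/-- a zero of the derivative to the left of the line -/
def Zl (Z : ℂ → ℂ) (B : ℝ) (s : ℂ) : Prop := deriv Z s = 0 ∧ s.re < 1 / 2 ∧ B < s.im

namespace SD

variable {κ B : ℝ} {H X Z : ℂ → ℂ}

lemma zl_re (h : SD κ B H X Z) {s : ℂ} (hs : Zl Z B s) : 0 ≤ s.re := by
  by_contra hcon
  push Not at hcon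
  exact ne_of_re (h.left_far hs.2.2.le hcon).2 hs.1

/-- the number of zeros of the derivative in windows -/
theorem unit (h : SD κ B H X Z) : ∃ C T0 : ℝ, 0 < C ∧ 2 ≤ T0 ∧ B + 1 ≤ T0 ∧ ∀ t : ℝ, T0 ≤ t → ∀ S : Finset ℂ,
    (∀ s ∈ S, Zl Z B s ∧ |t - s.im| ≤ 1) → ∑ s ∈ S, (analyticOrderNatAt (deriv Z) s : ℝ) ≤ C * Real.log t := by
  obtain ⟨A, C, T0, hA, hC, hT0, hB, hbd⟩ := h.bd_far
  refine ⟨4 * C, T0 + 1, by positivity, by linarith, by linarith, fun t ht S hS => ?_⟩
  have h1 := (hbd t (by linarith)).count h.ua.an S (by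
    intro s hs
    obtain ⟨h2, h3⟩ := hS s hs
    have h4 := h.zl_re h2
    rw [mem_closedBall, dist_eq_norm]
    refine (Complex.norm_le_abs_re_add_abs_im _).trans ?_
    rw [Complex.sub_re, Complex.sub_im]
    have e1 : |s.re - (1 / 2 - A)| ≤ A := by
      rw [abs_le]
      constructor <;> linarith [h2.2.1]
    have e2 : |s.im - t| ≤ 1 := by rw [abs_sub_comm]; exact h3
    linarith)
  linarith

/-- zeros of the derivative at distance about `r` from the line -/
theorem band (h : SD κ B H X Z) : ∃ c C a0 T0 : ℝ, 0 < c ∧ 0 < C ∧ 1 ≤ a0 ∧ 2 ≤ T0 ∧ ∀ T r : ℝ, T0 ≤ T →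
    a0 ≤ κ * r * Real.log T → 0 < r → r ≤ 1 / 400 → κ * r ≤ 1 / 400 → ∀ S : Finset ℂ,
    (∀ s ∈ S, Zl Z B s ∧ r ≤ 1 / 2 - s.re ∧ 1 / 2 - s.re ≤ 2 * r ∧ T < s.im ∧ s.im ≤ 2 * T) →
    ∑ s ∈ S, (analyticOrderNatAt (deriv Z) s : ℝ) ≤ C * T * Real.log T * Real.exp (-(c * (κ * r * Real.log T))) := by
  classical
  have hκ := h.κ_pos
  have hB1 := h.B_one
  obtain ⟨C0, T1, hC0, hT1, hT1B, hunit⟩ := h.unit
  obtain ⟨C2, a2, T2, hC2, ha2, hT2, hT2B, hgood⟩ := h.bd_good
  obtain ⟨cg, Cg, ag, Tg, hcg, hCg, hag, hTg, hG⟩ := h.good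
  obtain ⟨c3, hc3, hc3a, hc3b, hc3c⟩ : ∃ c3 : ℝ, 0 < c3 ∧ c3 ≤ κ / 200 ∧ c3 ≤ 1 / 200 ∧
      (κ / 200 ≤ c3 ∨ 1 / 200 ≤ c3) := by
    refine ⟨min (κ / 200) (1 / 200), by positivity, min_le_left _ _, min_le_right _ _, ?_⟩
    rcases min_choice (κ / 200) (1 / 200 : ℝ) with h | h
    · exact Or.inl h.ge
    · exact Or.inr h.ge
  obtain ⟨C4, hC4, hC4a, hC4b⟩ : ∃ C4 : ℝ, 0 < C4 ∧ 4 * (C2 + 1) ≤ C4 ∧ 3 * C0 ≤ C4 * c3 := by
    refine ⟨4 * (C2 + 1) + 3 * C0 / c3, by positivity, by
      have : 0 < 3 * C0 / c3 := by positivity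
      linarith, ?_⟩
    have e : (4 * (C2 + 1) + 3 * C0 / c3) * c3 = 4 * (C2 + 1) * c3 + 3 * C0 := by field_simp
    rw [e]
    have : 0 < 4 * (C2 + 1) * c3 := by positivity
    linarith
  obtain ⟨q, hq⟩ : ∃ q : ℝ, q = Real.exp (-(cg / (2 * C4))) := ⟨_, rfl⟩
  have hq0 : 0 < q := by rw [hq]; exact Real.exp_pos _
  have hq1 : q < 1 := by
    rw [hq, Real.exp_lt_one_iff]
    have : 0 < cg / (2 * C4) := by positivity
    linarith
  have hq1' : 0 < 1 - q := by linarith
  refine ⟨cg / 2, Cg * κ / (1 - q), a2 + ag, 2 * (T1 + T2 + Tg + B), by positivity, by positivity, by linarith,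
    by linarith, ?_⟩
  intro T r hT ha hr hr1 hκr S hS
  have hTp : 0 < T := by linarith
  have hL : 0 < Real.log T := Real.log_pos (by linarith)
  obtain ⟨a, hadef⟩ : ∃ a : ℝ, a = κ * r * Real.log T := ⟨_, rfl⟩
  rw [← hadef] at ha ⊢
  have ha1 : 1 ≤ a := by linarith
  have key := int_count S (fun s => analyticOrderNatAt (deriv Z) s) hr
  -- the tail
  have hk : ∀ k : ℕ, volume {t : ℝ | k < ∑ s ∈ S.filter (fun s => |t - s.im| ≤ r), analyticOrderNatAt (deriv Z) s} ≤
      ENNReal.ofReal (Cg * T * Real.exp (-(cg / 2 * a)) * q ^ k) := by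
    intro k
    obtain ⟨a', ha'⟩ : ∃ a' : ℝ, a' = max a (k / C4) := ⟨_, rfl⟩
    have ha'1 : a ≤ a' := by rw [ha']; exact le_max_left _ _
    have ha'2 : k / C4 ≤ a' := by rw [ha']; exact le_max_right _ _
    have ha'p : 0 < a' := by linarith
    -- heights in question
    have hloc : ∀ t : ℝ, k < ∑ s ∈ S.filter (fun s => |t - s.im| ≤ r), analyticOrderNatAt (deriv Z) s →
        T / 2 ≤ t ∧ t ≤ 3 * T := by
      intro t ht
      have hne : (S.filter (fun s => |t - s.im| ≤ r)).Nonempty := by
        rw [Finset.nonempty_iff_ne_empty]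
        intro h0
        rw [h0, Finset.sum_empty] at ht
        exact absurd ht (Nat.not_lt_zero _)
      obtain ⟨s, hs⟩ := hne
      obtain ⟨h1, h2⟩ := Finset.mem_filter.1 hs
      obtain ⟨-, -, -, h5, h6⟩ := hS s h1
      have := abs_le.1 h2
      constructor <;> linarith
    have hfin : ENNReal.ofReal (Cg * T * Real.exp (-(cg * a'))) ≤
        ENNReal.ofReal (Cg * T * Real.exp (-(cg / 2 * a)) * q ^ k) := by
      apply ENNReal.ofReal_le_ofReal
      have e1 : Real.exp (-(cg * a')) ≤ Real.exp (-(cg / 2 * a)) * q ^ k := by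
        rw [hq, ← Real.exp_nat_mul, ← Real.exp_add]
        apply Real.exp_le_exp.2
        have e2 : cg / 2 * (k / C4) ≤ cg / 2 * a' := by gcongr
        have e3 : cg / 2 * a ≤ cg / 2 * a' := by gcongr
        have e4 : (k : ℝ) * -(cg / (2 * C4)) = -(cg / 2 * (k / C4)) := by field_simp
        rw [e4]
        linarith
      calc Cg * T * Real.exp (-(cg * a')) ≤ Cg * T * (Real.exp (-(cg / 2 * a)) * q ^ k) := by gcongr
        _ = _ := by ring
    by_cases hbig : c3 * Real.log T < a'
    · -- empty
      have hemp : {t : ℝ | k < ∑ s ∈ S.filter (fun s => |t - s.im| ≤ r), analyticOrderNatAt (deriv Z) s} = ∅ := by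
        rw [Set.eq_empty_iff_forall_notMem]
        intro t ht
        rw [Set.mem_ofPred_eq] at ht
        obtain ⟨h1, h2⟩ := hloc t ht
        have h3 := hunit t (by linarith) (S.filter (fun s => |t - s.im| ≤ r)) (by
          intro s hs
          obtain ⟨h4, h5⟩ := Finset.mem_filter.1 hs
          exact ⟨(hS s h4).1, by linarith⟩)
        have h4 : Real.log t ≤ 3 * Real.log T := by
          have h5 : Real.log t ≤ Real.log (3 * T) := Real.log_le_log (by linarith) h2
          rw [Real.log_mul (by norm_num) hTp.ne'] at h5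
          have h6 : Real.log 3 ≤ 2 * Real.log T := by
            have h7 : Real.log 3 ≤ Real.log (T ^ 2) := Real.log_le_log (by norm_num) (by nlinarith)
            rw [Real.log_pow] at h7
            exact_mod_cast h7
          linarith
        have h5 : (k : ℝ) < ∑ s ∈ S.filter (fun s => |t - s.im| ≤ r), (analyticOrderNatAt (deriv Z) s : ℝ) := by
          exact_mod_cast ht
        -- `a' = k / C4`
        have h6 : a < a' := by
          refine lt_of_le_of_lt ?_ hbig
          rw [hadef]
          have h8 : κ * r ≤ c3 := by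
            rcases hc3c with h7 | h7
            · have : κ * r ≤ κ * (1 / 400) := by gcongr
              linarith
            · linarith
          gcongr
        have h7 : a' = k / C4 := by
          rcases max_choice a (k / C4) with h8 | h8
          · rw [ha', h8] at h6
            exact absurd h6 (lt_irrefl _)
          · rw [ha', h8]
        have h8 : (k : ℝ) = C4 * a' := by rw [h7]; field_simp
        have h9 : C4 * (c3 * Real.log T) < k := by rw [h8]; gcongr
        have h10 : C0 * Real.log t ≤ C4 * (c3 * Real.log T) := by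
          calc C0 * Real.log t ≤ C0 * (3 * Real.log T) := by gcongr
            _ = 3 * C0 * Real.log T := by ring
            _ ≤ C4 * c3 * Real.log T := by gcongr
            _ = _ := by ring
        linarith
      rw [hemp, measure_empty]
      exact bot_le
    · push Not at hbig
      obtain ⟨r', hr'⟩ : ∃ r' : ℝ, r' = a' / (κ * Real.log T) := ⟨_, rfl⟩
      have hr'0 : 0 < r' := by rw [hr']; positivity
      have hra : κ * r' * Real.log T = a' := by rw [hr']; field_simp
      have hrr : r ≤ r' := by
        rw [hr', le_div_iff₀ (by positivity)]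
        calc r * (κ * Real.log T) = a := by rw [hadef]; ring
          _ ≤ a' := ha'1
      have hr'1 : r' ≤ 1 / 200 := by
        rw [hr', div_le_iff₀ (by positivity)]
        calc a' ≤ c3 * Real.log T := hbig
          _ ≤ κ / 200 * Real.log T := by gcongr
          _ = _ := by ring
      have hκr' : κ * r' ≤ 1 / 200 := by
        have e : κ * r' = a' / Real.log T := by rw [hr']; field_simp
        rw [e, div_le_iff₀ hL]
        calc a' ≤ c3 * Real.log T := hbig
          _ ≤ 1 / 200 * Real.log T := by gcongr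
      refine le_trans ?_ ((hG T a' r' (by linarith) (by linarith) hr'0 hr'1 hκr' hra).trans hfin)
      refine measure_mono fun t ht => ?_
      rw [Set.mem_ofPred_eq] at ht
      obtain ⟨h1, h2⟩ := hloc t ht
      refine ⟨h1, h2, fun hN => ?_⟩
      have htp : 0 < t := by linarith
      have h5 : |κ * r' * Real.log t - a'| ≤ κ := by
        have h6 : κ * r' * Real.log t - a' = κ * r' * (Real.log t - Real.log T) := by
          rw [← hra]; ring
        have h7 : |Real.log t - Real.log T| ≤ 2 := by
          have h9 : Real.log (T / 2) ≤ Real.log t := Real.log_le_log (by linarith) h1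
          have h10 : Real.log t ≤ Real.log (3 * T) := Real.log_le_log htp h2
          rw [Real.log_div hTp.ne' (by norm_num)] at h9
          rw [Real.log_mul (by norm_num) hTp.ne'] at h10
          have h11 := Real.log_two_lt_d9
          have h12 : Real.log 3 ≤ 2 := by
            have := Real.log_le_sub_one_of_pos (show (0 : ℝ) < 3 by norm_num)
            linarith
          rw [abs_le]
          constructor <;> linarith
        have h10 : 0 < κ * r' := by positivity
        rw [h6, abs_mul, abs_of_pos h10]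
        nlinarith
      have hbd := hgood t a' r' (by linarith) (by linarith) hr'0 (by linarith) h5 hN
      rcases lt_or_ge (k / C4 : ℝ) a with h8 | h8
      · -- no zeros at all
        have h9 : a' = a := by rw [ha']; exact max_eq_left h8.le
        have h10 : r' = r := by
          have h11 : κ * r' * Real.log T = κ * r * Real.log T := by rw [hra, h9, hadef]
          have h12 : (κ * Real.log T) * r' = (κ * Real.log T) * r := by linarith
          exact mul_left_cancel₀ (by positivity) h12
        have hemp : S.filter (fun s => |t - s.im| ≤ r) = ∅ := by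
          rw [Finset.eq_empty_iff_forall_notMem]
          intro s hs
          obtain ⟨h11, h12⟩ := Finset.mem_filter.1 hs
          obtain ⟨h13, h14, h15, h16, h17⟩ := hS s h11
          obtain ⟨u, hu⟩ : ∃ u : ℂ, u = -(conj ((s - 1 / 2 - I * t) / r)) := ⟨_, rfl⟩
          have hrc : (r : ℂ) ≠ 0 := by exact_mod_cast hr.ne'
          have hsu : (1 / 2 + (I * t + r * (-(conj u))) : ℂ) = s := by
            rw [hu, map_neg, Complex.conj_conj, neg_neg, mul_div_cancel₀ _ hrc]
            ring
          have hure : u.re = (1 / 2 - s.re) / r := by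
            rw [hu, Complex.neg_re, Complex.conj_re, Complex.div_ofReal_re]
            simp
            ring
          have huim : u.im = (s.im - t) / r := by
            rw [hu, Complex.neg_im, Complex.conj_im, Complex.div_ofReal_im]
            simp
          have hu1 : 1 ≤ u.re := by rw [hure, le_div_iff₀ hr]; linarith
          have hu2 : u.re ≤ 2 := by rw [hure, div_le_iff₀ hr]; linarith
          have hu3 : |u.im| ≤ 1 := by
            rw [huim, abs_div, abs_of_pos hr, div_le_one hr, abs_sub_comm]
            exact h12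
          have hun : ‖u‖ ≤ 20 := by
            refine (Complex.norm_le_abs_re_add_abs_im u).trans ?_
            rw [abs_of_pos (by linarith)]
            linarith
          rw [h9, h10] at hN
          have him : (I * t + r * (-(conj u)) : ℂ).im = s.im := by
            have := congrArg Complex.im hsu
            simpa using this
          obtain ⟨-, g1, g2⟩ := h.nn_left (t := t) (a := a) (by linarith) hr (by linarith) hN (u := u)
            (by linarith) hun (by rw [him]; exact h13.2.2.le)
          rw [hsu] at g1 g2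
          have g3 := h.left (I * t + r * (-(conj u))) (by rw [him]; exact h13.2.2.le) (by
            have := congrArg Complex.re hsu
            rw [Complex.add_re] at this
            have e2 : ((1 / 2 : ℂ)).re = 1 / 2 := by norm_num
            rw [e2] at this
            linarith [h13.2.1])
          exact ne_of_re (lt_of_le_of_lt g2 (by linarith [g3.2.2])) h13.1
        rw [hemp, Finset.sum_empty] at ht
        exact absurd ht (Nat.not_lt_zero _)
      · have h9 : a' = k / C4 := by rw [ha']; exact max_eq_right h8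
        have h10 := hbd.count h.ua.an (S.filter (fun s => |t - s.im| ≤ r)) (by
          intro s hs
          obtain ⟨h11, h12⟩ := Finset.mem_filter.1 hs
          obtain ⟨h13, h14, h15, h16, h17⟩ := hS s h11
          rw [mem_closedBall, dist_eq_norm]
          refine (Complex.norm_le_abs_re_add_abs_im _).trans ?_
          rw [Complex.sub_re, Complex.sub_im]
          have e1 : |s.re - (1 / 2 - r')| ≤ r' := by
            rw [abs_le]
            constructor <;> linarith
          have e2 : |s.im - t| ≤ r := by rw [abs_sub_comm]; exact h12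
          linarith)
        have h11 : (k : ℝ) < ∑ s ∈ S.filter (fun s => |t - s.im| ≤ r), (analyticOrderNatAt (deriv Z) s : ℝ) := by
          exact_mod_cast ht
        have h12 : (k : ℝ) = C4 * a' := by rw [h9]; field_simp
        have h13 : 4 * (C2 * a' + 1) ≤ C4 * a' := by
          have : 4 * (C2 + 1) * a' ≤ C4 * a' := by gcongr
          nlinarith
        linarith
  have hsum := key.trans (ENNReal.tsum_le_tsum hk)
  rw [geo (by positivity) hq0.le hq1, ENNReal.ofReal_le_ofReal_iff (by positivity)] at hsum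
  -- conclusion
  have h1 : κ * Real.log T * (2 * r * ∑ s ∈ S, (analyticOrderNatAt (deriv Z) s : ℝ)) ≤
      κ * Real.log T * (Cg * T * Real.exp (-(cg / 2 * a)) / (1 - q)) := by
    gcongr
  have h2 : κ * Real.log T * (2 * r * ∑ s ∈ S, (analyticOrderNatAt (deriv Z) s : ℝ)) =
      2 * a * ∑ s ∈ S, (analyticOrderNatAt (deriv Z) s : ℝ) := by rw [hadef]; ring
  have h3 : (0 : ℝ) ≤ ∑ s ∈ S, (analyticOrderNatAt (deriv Z) s : ℝ) := Finset.sum_nonneg fun s _ => Nat.cast_nonneg _
  have h4 : ∑ s ∈ S, (analyticOrderNatAt (deriv Z) s : ℝ) ≤ 2 * a * ∑ s ∈ S, (analyticOrderNatAt (deriv Z) s : ℝ) := by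
    nlinarith
  refine h4.trans ?_
  rw [← h2]
  refine h1.trans (le_of_eq ?_)
  field_simp

end SD

end

end Pool.Agent.N831.SX
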