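import Pool.Agent.N831.SX.I

set_option autoImplicit false

/-!
# The density theorem for the zeros of the derivative to the left of the line: conclusion
-/

namespace Pool.Agent.N831.SX

open Complex Filter Topology Set MeasureTheory Metric
open scoped ComplexConjugate

noncomputable section

namespace SD

variable {κ B : ℝ} {H X Z : ℂ → ℂ}

lemma empty_of (h : SD κ B H X Z) {δ : ℝ} (hδ : 1 / 2 < δ) {S : Finset ℂ}
    (hS : ∀ s ∈ S, Zl Z B s ∧ δ ≤ 1 / 2 - s.re) : ∑ s ∈ S, (analyticOrderNatAt (deriv Z) s : ℝ) = 0 := by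
  have : S = ∅ := by
    rw [Finset.eq_empty_iff_forall_notMem]
    intro s hs
    obtain ⟨h1, h2⟩ := hS s hs
    have := h.zl_re h1
    linarith
  rw [this, Finset.sum_empty]

/-- far from the line -/
theorem top (h : SD κ B H X Z) {rm : ℝ} (hrm : 0 < rm) (hrm1 : rm ≤ 1) : ∃ c C T0 : ℝ, 0 < c ∧ c ≤ 1 ∧ 0 < C ∧
    2 ≤ T0 ∧ ∀ T : ℝ, T0 ≤ T → ∀ S : Finset ℂ,
    (∀ s ∈ S, Zl Z B s ∧ rm ≤ 1 / 2 - s.re ∧ T < s.im ∧ s.im ≤ 2 * T) →
    ∑ s ∈ S, (analyticOrderNatAt (deriv Z) s : ℝ) ≤ C * T ^ (1 - c) * Real.log T := by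
  obtain ⟨Ct, hCt, htr⟩ := h.transfer
  obtain ⟨cd, Cd, hcd, hCd, hD⟩ := h.dens
  obtain ⟨x, hx0, hx1, hx2⟩ : ∃ x : ℝ, 0 < x ∧ x ≤ 1 ∧ x ≤ cd * rm :=
    ⟨min 1 (cd * rm), lt_min one_pos (by positivity), min_le_left _ _, min_le_right _ _⟩
  refine ⟨x / 2, 36 * Ct * Cd / x, 2, by positivity, by linarith, by positivity, le_rfl, ?_⟩
  intro T hT S hS
  have hTp : 0 < T := by linarith
  have hL := log_ge_half hT
  have hLp : 0 < Real.log T := by linarith
  have h1 := htr rm (2 * T) hrm.le (by linarith) S (fun s hs => ⟨(hS s hs).1, (hS s hs).2.1, (hS s hs).2.2.2⟩)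
  obtain ⟨hf, hn⟩ := hD rm (2 * T + 1) hrm.le (by linarith)
  have h2 : ((Pool.Agent.Y22.RX.S X rm (2 * T + 1) ∩ {b | 0 < b.re}).ncard : ℝ) ≤
      Cd * (2 * T + 1) ^ (1 - cd * rm) * Real.log (2 * T + 1) := by
    refine le_trans ?_ hn
    exact_mod_cast Set.ncard_le_ncard inter_subset_left hf
  have h3 : Real.log (2 * T + 1) ≤ 3 * Real.log T := by
    have h5 : Real.log (2 * T + 1) ≤ Real.log (T ^ 3) := Real.log_le_log (by linarith) (by
      have : 4 ≤ T ^ 2 := by nlinarith
      nlinarith)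
    rw [Real.log_pow] at h5
    exact_mod_cast h5
  have h4 : Real.log (2 * T) ≤ 2 * Real.log T := by
    have h5 : Real.log (2 * T) ≤ Real.log (T ^ 2) := Real.log_le_log (by linarith) (by nlinarith)
    rw [Real.log_pow] at h5
    exact_mod_cast h5
  have h5 : (2 * T + 1) ^ (1 - cd * rm) ≤ 3 * T ^ (1 - x) := by
    calc (2 * T + 1) ^ (1 - cd * rm) ≤ (2 * T + 1) ^ (1 - x) :=
          Real.rpow_le_rpow_of_exponent_le (by linarith) (by linarith)
      _ ≤ (3 * T) ^ (1 - x) := Real.rpow_le_rpow (by linarith) (by linarith) (by linarith)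
      _ = 3 ^ (1 - x) * T ^ (1 - x) := Real.mul_rpow (by norm_num) hTp.le
      _ ≤ 3 ^ (1 : ℝ) * T ^ (1 - x) := by
          gcongr
          · norm_num
          · linarith
      _ = 3 * T ^ (1 - x) := by rw [Real.rpow_one]
  have h6 : Real.log T ≤ T ^ (x / 2) / (x / 2) := Real.log_le_rpow_div hTp.le (by positivity)
  have h7 : T ^ (1 - x) * T ^ (x / 2) = T ^ (1 - x / 2) := by
    rw [← Real.rpow_add hTp]
    congr 1
    ring
  have hp : 0 < T ^ (1 - x) := Real.rpow_pos_of_pos hTp _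
  have hl1 : 0 ≤ Real.log (2 * T + 1) := Real.log_nonneg (by linarith)
  have hl2 : 0 ≤ Real.log (2 * T) := Real.log_nonneg (by linarith)
  calc ∑ s ∈ S, (analyticOrderNatAt (deriv Z) s : ℝ)
      ≤ Ct * Real.log (2 * T) * (Cd * (2 * T + 1) ^ (1 - cd * rm) * Real.log (2 * T + 1)) :=
        h1.trans (by gcongr)
    _ ≤ Ct * (2 * Real.log T) * (Cd * (3 * T ^ (1 - x)) * (3 * Real.log T)) := by gcongr
    _ = 18 * Ct * Cd * (T ^ (1 - x) * Real.log T) * Real.log T := by ring
    _ ≤ 18 * Ct * Cd * (T ^ (1 - x) * (T ^ (x / 2) / (x / 2))) * Real.log T := by gcongr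
    _ = 36 * Ct * Cd / x * (T ^ (1 - x) * T ^ (x / 2)) * Real.log T := by field_simp; ring
    _ = _ := by rw [h7]

/-- one block -/
theorem block (h : SD κ B H X Z) : ∃ c C T0 : ℝ, 0 < c ∧ c ≤ 1 ∧ 0 < C ∧ 2 ≤ T0 ∧ ∀ δ T : ℝ, 0 ≤ δ → T0 ≤ T →
    ∀ S : Finset ℂ, (∀ s ∈ S, Zl Z B s ∧ δ ≤ 1 / 2 - s.re ∧ T < s.im ∧ s.im ≤ 2 * T) →
    ∑ s ∈ S, (analyticOrderNatAt (deriv Z) s : ℝ) ≤ C * T ^ (1 - c * δ) * Real.log T := by
  classical
  have hκ := h.κ_pos
  obtain ⟨rm, hrm, hrm1, hrm2⟩ : ∃ rm : ℝ, 0 < rm ∧ rm ≤ 1 / 400 ∧ κ * rm ≤ 1 / 400 := by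
    refine ⟨min (1 / 400) (1 / (400 * κ)), by positivity, min_le_left _ _, ?_⟩
    calc κ * min (1 / 400) (1 / (400 * κ)) ≤ κ * (1 / (400 * κ)) := by
          gcongr
          exact min_le_right _ _
      _ = 1 / 400 := by field_simp
  obtain ⟨ct, Ct, T1, hct, hct1, hCt, hT1, htop⟩ := h.top hrm (by linarith)
  obtain ⟨cb, Cb, a0, T2, hcb, hCb, ha0, hT2, hband⟩ := h.band
  obtain ⟨Ca, T3, hCa, hT3, htot⟩ := h.total
  obtain ⟨c, hc, hc1, hc2⟩ : ∃ c : ℝ, 0 < c ∧ c ≤ cb ∧ 2 * c * κ * rm ≤ ct := by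
    refine ⟨min cb (ct / (2 * κ * rm)), by positivity, min_le_left _ _, ?_⟩
    calc 2 * min cb (ct / (2 * κ * rm)) * κ * rm ≤ 2 * (ct / (2 * κ * rm)) * κ * rm := by
          gcongr
          exact min_le_right _ _
      _ = ct := by field_simp
  obtain ⟨a1, ha1, ha1'⟩ : ∃ a1 : ℝ, a0 ≤ a1 ∧ Real.log 2 / c ≤ a1 := ⟨max a0 (Real.log 2 / c), le_max_left _ _,
    le_max_right _ _⟩
  obtain ⟨K, hKt, hKb⟩ : ∃ K : ℝ, Ct ≤ K ∧ 2 * Cb ≤ K := ⟨max Ct (2 * Cb), le_max_left _ _, le_max_right _ _⟩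
  have hK : 0 < K := lt_of_lt_of_le hCt hKt
  obtain ⟨cf, hcf, hcf1, hcf2, hcf3⟩ : ∃ cf : ℝ, 0 < cf ∧ cf ≤ 1 ∧ cf ≤ c * κ ∧ cf ≤ 2 * ct :=
    ⟨min 1 (min (c * κ) (2 * ct)), by positivity, min_le_left _ _, (min_le_right _ _).trans (min_le_left _ _),
      (min_le_right _ _).trans (min_le_right _ _)⟩
  refine ⟨cf, K + Ca * Real.exp (c * a1), T1 + T2 + T3, hcf, hcf1, by positivity, by linarith, ?_⟩
  intro δ T hδ hT S hS
  have hTp : 0 < T := by linarith
  have hL := log_ge_half (T := T) (by linarith)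
  have hLp : 0 < Real.log T := by linarith
  have hexp : ∀ y : ℝ, T * Real.exp (-(c * (κ * y * Real.log T))) = T ^ (1 - c * κ * y) := by
    intro y
    rw [Real.rpow_def_of_pos hTp]
    have : Real.log T * (1 - c * κ * y) = Real.log T + -(c * (κ * y * Real.log T)) := by ring
    rw [this, Real.exp_add, Real.exp_log hTp]
  -- the recursion
  have key : ∀ n : ℕ, ∀ r : ℝ, rm / 2 ^ n ≤ r → r ≤ 2 * rm → a1 ≤ κ * r * Real.log T → ∀ S : Finset ℂ,
      (∀ s ∈ S, Zl Z B s ∧ r ≤ 1 / 2 - s.re ∧ T < s.im ∧ s.im ≤ 2 * T) →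
      ∑ s ∈ S, (analyticOrderNatAt (deriv Z) s : ℝ) ≤
        K * T * Real.log T * Real.exp (-(c * (κ * r * Real.log T))) := by
    have hbase : ∀ r : ℝ, rm ≤ r → r ≤ 2 * rm → ∀ S : Finset ℂ,
      (∀ s ∈ S, Zl Z B s ∧ r ≤ 1 / 2 - s.re ∧ T < s.im ∧ s.im ≤ 2 * T) →
      ∑ s ∈ S, (analyticOrderNatAt (deriv Z) s : ℝ) ≤
        K * T * Real.log T * Real.exp (-(c * (κ * r * Real.log T))) := by
      intro r hr1 hr2 S hS
      have h1 := htop T (by linarith) S (fun s hs => by
        obtain ⟨k1, k2, k3, k4⟩ := hS s hs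
        exact ⟨k1, by linarith, k3, k4⟩)
      refine h1.trans ?_
      have h2 : T ^ (1 - ct) ≤ T ^ (1 - c * κ * r) := by
        apply Real.rpow_le_rpow_of_exponent_le (by linarith)
        have : c * κ * r ≤ c * κ * (2 * rm) := by gcongr
        linarith
      calc Ct * T ^ (1 - ct) * Real.log T ≤ K * T ^ (1 - c * κ * r) * Real.log T := by gcongr
        _ = _ := by rw [← hexp]; ring
    intro n
    induction n with
    | zero =>
      intro r hr1 hr2 _ S hS
      rw [pow_zero, div_one] at hr1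
      exact hbase r hr1 hr2 S hS
    | succ n ih =>
      intro r hr1 hr2 hra S hS
      rcases le_or_gt rm r with h1 | h1
      · exact hbase r h1 hr2 S hS
      · have hrp : 0 < r := lt_of_lt_of_le (by positivity) hr1
        rw [← Finset.sum_filter_add_sum_filter_not S (fun s => 1 / 2 - s.re ≤ 2 * r)]
        have e1 := hband T r (by linarith) (by linarith) hrp (by linarith) (by
          have : κ * r ≤ κ * rm := by gcongr
          linarith) (S.filter (fun s => 1 / 2 - s.re ≤ 2 * r)) (fun s hs => by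
            obtain ⟨k1, k2⟩ := Finset.mem_filter.1 hs
            obtain ⟨k3, k4, k5, k6⟩ := hS s k1
            exact ⟨k3, k4, k2, k5, k6⟩)
        have e2 := ih (2 * r) (by
          rw [pow_succ] at hr1
          have : rm / 2 ^ n = 2 * (rm / (2 ^ n * 2)) := by field_simp
          rw [this]
          linarith) (by linarith) (by nlinarith) (S.filter (fun s => ¬ 1 / 2 - s.re ≤ 2 * r)) (fun s hs => by
            obtain ⟨k1, k2⟩ := Finset.mem_filter.1 hs
            obtain ⟨k3, k4, k5, k6⟩ := hS s k1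
            exact ⟨k3, by linarith, k5, k6⟩)
        obtain ⟨E, hE⟩ : ∃ E : ℝ, E = Real.exp (-(c * (κ * r * Real.log T))) := ⟨_, rfl⟩
        have hEp : 0 < E := by rw [hE]; exact Real.exp_pos _
        have hE1 : Real.exp (-(cb * (κ * r * Real.log T))) ≤ E := by
          rw [hE]
          apply Real.exp_le_exp.2
          have : c * (κ * r * Real.log T) ≤ cb * (κ * r * Real.log T) := by gcongr
          linarith
        have hE2 : Real.exp (-(c * (κ * (2 * r) * Real.log T))) = E * E := by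
          rw [hE, ← Real.exp_add]
          congr 1
          ring
        have hE3 : E ≤ 1 / 2 := by
          rw [hE]
          have h5 : Real.log 2 ≤ c * (κ * r * Real.log T) := by
            have : Real.log 2 / c ≤ κ * r * Real.log T := ha1'.trans hra
            rw [div_le_iff₀ hc] at this
            linarith
          calc Real.exp (-(c * (κ * r * Real.log T))) ≤ Real.exp (-Real.log 2) := Real.exp_le_exp.2 (by linarith)
            _ = 1 / 2 := by rw [Real.exp_neg, Real.exp_log (by norm_num)]; norm_num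
        rw [hE2] at e2
        rw [← hE]
        have hTL : 0 < T * Real.log T := by positivity
        calc _ ≤ Cb * T * Real.log T * Real.exp (-(cb * (κ * r * Real.log T))) +
              K * T * Real.log T * (E * E) := add_le_add e1 e2
          _ ≤ (K / 2) * T * Real.log T * E + K * T * Real.log T * (E * (1 / 2)) := by
              gcongr
              linarith
          _ = K * T * Real.log T * E := by ring
  have hKC : 0 ≤ Ca * Real.exp (c * a1) := by positivity
  have hpos : ∀ y : ℝ, 0 < T ^ y := fun y => Real.rpow_pos_of_pos hTp y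
  have hcmp : T ^ (1 - c * κ * δ) ≤ T ^ (1 - cf * δ) := by
    apply Real.rpow_le_rpow_of_exponent_le (by linarith)
    have : cf * δ ≤ c * κ * δ := by gcongr
    linarith
  rcases lt_or_ge (κ * δ * Real.log T) a1 with h1 | h1
  · have h2 := htot T (by linarith) S (fun s hs => ⟨(hS s hs).1, (hS s hs).2.2.1, (hS s hs).2.2.2⟩)
    have h3 : (1 : ℝ) ≤ Real.exp (c * a1) * Real.exp (-(c * (κ * δ * Real.log T))) := by
      rw [← Real.exp_add]
      apply Real.one_le_exp
      have : c * (κ * δ * Real.log T) ≤ c * a1 := by gcongr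
      linarith
    calc _ ≤ Ca * T * Real.log T := h2
      _ ≤ Ca * T * Real.log T * (Real.exp (c * a1) * Real.exp (-(c * (κ * δ * Real.log T)))) :=
          le_mul_of_one_le_right (by positivity) h3
      _ = Ca * Real.exp (c * a1) * (T * Real.exp (-(c * (κ * δ * Real.log T)))) * Real.log T := by ring
      _ = Ca * Real.exp (c * a1) * T ^ (1 - c * κ * δ) * Real.log T := by rw [hexp]
      _ ≤ (K + Ca * Real.exp (c * a1)) * T ^ (1 - cf * δ) * Real.log T := by
          gcongr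
          linarith
  · have hδp : 0 < δ := by
      by_contra hcon
      have : δ = 0 := by linarith
      rw [this] at h1
      have ha1p : 0 < a1 := by linarith
      simp at h1
      linarith
    rcases le_or_gt δ (2 * rm) with h2 | h2
    · obtain ⟨n, hn⟩ : ∃ n : ℕ, rm / δ < 2 ^ n := pow_unbounded_of_one_lt _ one_lt_two
      have h3 := key n δ (by
        rw [div_le_iff₀ (by positivity)]
        rw [div_lt_iff₀ hδp] at hn
        linarith) h2 h1 S hS
      calc _ ≤ K * T * Real.log T * Real.exp (-(c * (κ * δ * Real.log T))) := h3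
        _ = K * (T * Real.exp (-(c * (κ * δ * Real.log T)))) * Real.log T := by ring
        _ = K * T ^ (1 - c * κ * δ) * Real.log T := by rw [hexp]
        _ ≤ _ := by
            gcongr
            linarith
    · rcases lt_or_ge (1 / 2) δ with h3 | h3
      · rw [h.empty_of h3 (fun s hs => ⟨(hS s hs).1, (hS s hs).2.1⟩)]
        have := hpos (1 - cf * δ)
        positivity
      · have h4 := htop T (by linarith) S (fun s hs => by
          obtain ⟨k1, k2, k3, k4⟩ := hS s hs
          exact ⟨k1, by linarith, k3, k4⟩)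
        refine h4.trans ?_
        have h5 : T ^ (1 - ct) ≤ T ^ (1 - cf * δ) := by
          apply Real.rpow_le_rpow_of_exponent_le (by linarith)
          nlinarith
        calc Ct * T ^ (1 - ct) * Real.log T ≤ K * T ^ (1 - cf * δ) * Real.log T := by gcongr
          _ ≤ _ := by
            gcongr
            linarith

/-- **Density theorem** for the zeros of the derivative to the left of the line. -/
theorem dens_left (h : SD κ B H X Z) : ∃ c C : ℝ, 0 < c ∧ 0 < C ∧ ∀ δ T : ℝ, 0 ≤ δ → 2 ≤ T →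
    ∀ S : Finset ℂ, (∀ s ∈ S, Zl Z B s ∧ δ ≤ 1 / 2 - s.re ∧ s.im ≤ T) →
    ∑ s ∈ S, (analyticOrderNatAt (deriv Z) s : ℝ) ≤ C * T ^ (1 - c * δ) * Real.log T := by
  classical
  obtain ⟨c, C, T0, hc, hc1, hC, hT0, hb⟩ := h.block
  set K0 : ℝ := (NS (deriv Z) B (2 * T0) : ℝ) with hK0
  have hK0n : 0 ≤ K0 := Nat.cast_nonneg _
  obtain ⟨K, hK1, hK2⟩ : ∃ K : ℝ, 4 * C ≤ K ∧ 2 * K0 ≤ K := ⟨max (4 * C) (2 * K0), le_max_left _ _, le_max_right _ _⟩
  have hK : 0 < K := by linarith
  refine ⟨c, K, hc, hK, fun δ T hδ hT S hS => ?_⟩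
  rcases lt_or_ge (1 / 2) δ with h3 | h3
  · rw [h.empty_of h3 (fun s hs => ⟨(hS s hs).1, (hS s hs).2.1⟩)]
    have := Real.rpow_pos_of_pos (show 0 < T by linarith) (1 - c * δ)
    have := log_ge_half hT
    positivity
  have hcδ : c * δ ≤ 1 / 2 := by nlinarith
  have key : ∀ n : ℕ, ∀ T : ℝ, 2 ≤ T → T ≤ 2 ^ n → ∀ S : Finset ℂ,
      (∀ s ∈ S, Zl Z B s ∧ δ ≤ 1 / 2 - s.re ∧ s.im ≤ T) →
      ∑ s ∈ S, (analyticOrderNatAt (deriv Z) s : ℝ) ≤ K * T ^ (1 - c * δ) * Real.log T := by
    have hbase : ∀ T : ℝ, 2 ≤ T → T ≤ 2 * T0 → ∀ S : Finset ℂ,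
      (∀ s ∈ S, Zl Z B s ∧ δ ≤ 1 / 2 - s.re ∧ s.im ≤ T) →
      ∑ s ∈ S, (analyticOrderNatAt (deriv Z) s : ℝ) ≤ K * T ^ (1 - c * δ) * Real.log T := by
      intro T hT hT' S hS
      have h1 := h.low_le (2 * T0) S (fun s hs => ⟨(hS s hs).1, (hS s hs).2.2.trans hT'⟩)
      have h2 : 1 ≤ T ^ (1 - c * δ) := Real.one_le_rpow (by linarith) (by linarith)
      have h4 := log_ge_half hT
      refine h1.trans ?_
      calc K0 ≤ K * 1 * (1 / 2) := by linarith
        _ ≤ _ := by gcongr
    intro n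
    induction n with
    | zero =>
      intro T hT hT1
      rw [pow_zero] at hT1
      linarith
    | succ n ih =>
      intro T hT hT1 S hS
      rcases le_or_gt T (2 * T0) with h1 | h1
      · exact hbase T hT h1 S hS
      · have hTp : 0 < T := by linarith
        have hL := log_ge_half hT
        rw [← Finset.sum_filter_add_sum_filter_not S (fun s => s.im ≤ T / 2)]
        have e1 := ih (T / 2) (by linarith) (by rw [pow_succ] at hT1; linarith)
          (S.filter (fun s => s.im ≤ T / 2)) (fun s hs => by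
            obtain ⟨k1, k2⟩ := Finset.mem_filter.1 hs
            exact ⟨(hS s k1).1, (hS s k1).2.1, k2⟩)
        have e2 := hb δ (T / 2) hδ (by linarith) (S.filter (fun s => ¬ s.im ≤ T / 2)) (fun s hs => by
            obtain ⟨k1, k2⟩ := Finset.mem_filter.1 hs
            refine ⟨(hS s k1).1, (hS s k1).2.1, by linarith, ?_⟩
            have := (hS s k1).2.2
            linarith)
        have h4 : Real.log (T / 2) ≤ Real.log T := Real.log_le_log (by linarith) (by linarith)
        have h4' : 0 ≤ Real.log (T / 2) := Real.log_nonneg (by linarith)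
        have h5 : (T / 2) ^ (1 - c * δ) ≤ 3 / 4 * T ^ (1 - c * δ) := by
          rw [Real.div_rpow hTp.le (by norm_num)]
          have h6 : (4 : ℝ) / 3 ≤ 2 ^ (1 - c * δ) := by
            have h7 : (2 : ℝ) ^ (1 / 2 : ℝ) ≤ 2 ^ (1 - c * δ) :=
              Real.rpow_le_rpow_of_exponent_le (by norm_num) (by linarith)
            rw [← Real.sqrt_eq_rpow] at h7
            have h8 : (4 : ℝ) / 3 ≤ Real.sqrt 2 := Real.le_sqrt_of_sq_le (by norm_num)
            linarith
          have h9 : 0 < T ^ (1 - c * δ) := Real.rpow_pos_of_pos hTp _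
          rw [div_le_iff₀ (by positivity)]
          nlinarith
        have h5' : (T / 2) ^ (1 - c * δ) ≤ T ^ (1 - c * δ) :=
          Real.rpow_le_rpow (by linarith) (by linarith) (by linarith)
        have h9 : 0 < T ^ (1 - c * δ) := Real.rpow_pos_of_pos hTp _
        have h10 : 0 < (T / 2) ^ (1 - c * δ) := Real.rpow_pos_of_pos (by linarith) _
        calc _ ≤ K * (T / 2) ^ (1 - c * δ) * Real.log (T / 2) + C * (T / 2) ^ (1 - c * δ) * Real.log (T / 2) :=
              add_le_add e1 e2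
          _ ≤ K * (3 / 4 * T ^ (1 - c * δ)) * Real.log T + C * T ^ (1 - c * δ) * Real.log T := by gcongr
          _ ≤ K * (3 / 4 * T ^ (1 - c * δ)) * Real.log T + K / 4 * T ^ (1 - c * δ) * Real.log T := by
              gcongr
              linarith
          _ = _ := by ring
  obtain ⟨n, hn⟩ := pow_unbounded_of_one_lt T (one_lt_two)
  exact key n T hT hn.le S hS

end SD

end

end Pool.Agent.N831.SX
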