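import Pool.Agent.N831.SX.J

set_option autoImplicit false

/-!
# Summary of the abstract results
-/

namespace Pool.Agent.N831.SX

open Complex Filter Topology Set MeasureTheory Metric

noncomputable section

/-- zeros at distance at least `δ` to the left of the line -/
def ZD (F : ℂ → ℂ) (B δ T : ℝ) : Set ℂ := {s | F s = 0 ∧ s.re < 1 / 2 ∧ s.re ≤ 1 / 2 - δ ∧ B < s.im ∧ s.im ≤ T}

/-- their number, with multiplicity -/
def ND (F : ℂ → ℂ) (B δ T : ℝ) : ℕ := ∑ᶠ s ∈ ZD F B δ T, analyticOrderNatAt F s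

/-- the number of distinct zeros on the right, at distance at least `δ` -/
def NR (F : ℂ → ℂ) (δ T : ℝ) : ℕ := {s : ℂ | F s = 0 ∧ 1 / 2 < s.re ∧ 1 / 2 + δ ≤ s.re ∧ 0 < s.im ∧ s.im ≤ T}.ncard

/-- The results for one function. -/
structure Res (Z : ℂ → ℂ) (B : ℝ) : Prop where
  /-- finitely many zeros to the left of the line in bounded windows -/
  fin : ∀ T : ℝ, (ZS Z B T).Finite ∧ (ZS (deriv Z) B T).Finite
  /-- Jensen discs -/
  jen : ∀ s : ℂ, deriv Z s = 0 → s.re < 1 / 2 → B ≤ s.im →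
    ∃ ρ : ℂ, Z ρ = 0 ∧ 1 / 2 < ρ.re ∧ ρ.re ≤ 1 ∧ ‖s - ⟨1 / 2, ρ.im⟩‖ ≤ ρ.re - 1 / 2
  /-- exponential tails -/
  tails : ∃ c C : ℝ, 0 < c ∧ 0 < C ∧ ∀ l T : ℝ, 0 ≤ l → 0 ≤ T →
    volume {t : ℝ | B ≤ t ∧ t ≤ T ∧ l < |(NS (deriv Z) B t : ℝ) - NS Z B t|} ≤
      ENNReal.ofReal (C * Real.exp (-(c * l)) * T)
  /-- density theorem -/
  dens : ∃ c C : ℝ, 0 < c ∧ 0 < C ∧ ∀ δ T : ℝ, 0 ≤ δ → 2 ≤ T →
    (ND (deriv Z) B δ T : ℝ) ≤ C * T ^ (1 - c * δ) * Real.log T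
  /-- transfer -/
  tran : ∃ C : ℝ, 0 < C ∧ ∀ δ T : ℝ, 0 ≤ δ → 2 ≤ T →
    (ND (deriv Z) B δ T : ℝ) ≤ C * Real.log T * NR Z δ (T + 1)

namespace SD

variable {κ B : ℝ} {H X Z : ℂ → ℂ}

lemma zd_finite (h : SD κ B H X Z) (δ T : ℝ) : (ZD (deriv Z) B δ T).Finite :=
  (h.zs_finite (T1 := B) T le_rfl).2.subset fun _ hs => ⟨hs.1, hs.2.1, hs.2.2.2⟩

lemma nd_eq (h : SD κ B H X Z) (δ T : ℝ) :
    (ND (deriv Z) B δ T : ℝ) = ∑ s ∈ (h.zd_finite δ T).toFinset, (analyticOrderNatAt (deriv Z) s : ℝ) := by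
  unfold ND
  rw [finsum_mem_eq_finite_toFinset_sum _ (h.zd_finite δ T)]
  push_cast
  rfl

theorem res (h : SD κ B H X Z) : Res Z B where
  fin := fun T => h.zs_finite T le_rfl
  jen := fun _ h1 h2 h3 => h.jensen h1 h2 h3
  tails := h.tails
  dens := by
    obtain ⟨c, C, hc, hC, h1⟩ := h.dens_left
    refine ⟨c, C, hc, hC, fun δ T hδ hT => ?_⟩
    rw [h.nd_eq]
    refine h1 δ T hδ hT _ fun s hs => ?_
    rw [Set.Finite.mem_toFinset] at hs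
    obtain ⟨k1, k2, k3, k4, k5⟩ := hs
    exact ⟨⟨k1, k2, k4⟩, by linarith, k5⟩
  tran := by
    obtain ⟨C, hC, h1⟩ := h.transfer
    refine ⟨C, hC, fun δ T hδ hT => ?_⟩
    rw [h.nd_eq]
    have h2 := h1 δ T hδ hT (h.zd_finite δ T).toFinset (fun s hs => by
      rw [Set.Finite.mem_toFinset] at hs
      obtain ⟨k1, k2, k3, k4, k5⟩ := hs
      exact ⟨⟨k1, k2, k4⟩, by linarith, k5⟩)
    refine h2.trans ?_
    have hL := log_ge_half hT
    obtain ⟨-, -, -, -, hD⟩ := h.dens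
    have h3 : (Pool.Agent.Y22.RX.S X δ (T + 1) ∩ {b | 0 < b.re}).ncard ≤ NR Z δ (T + 1) := by
      unfold NR
      have hfin : {s : ℂ | Z s = 0 ∧ 1 / 2 < s.re ∧ 1 / 2 + δ ≤ s.re ∧ 0 < s.im ∧ s.im ≤ T + 1}.Finite := by
        obtain ⟨cd, Cd, hcd, hCd, hD⟩ := h.dens
        refine (((hD δ (T + 1) hδ (by linarith)).1).image (fun b : ℂ => 1 / 2 + b)).subset ?_
        rintro s ⟨k1, k2, k3, k4, k5⟩
        have hi : 0 < (s - 1 / 2 : ℂ).im := by simpa using k4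
        have hr : (s - 1 / 2 : ℂ).re = s.re - 1 / 2 := by simp
        refine ⟨s - 1 / 2, ⟨?_, ?_, hi, by simpa using k5⟩, by ring⟩
        · rw [h.eq _ hi]
          have e : (1 / 2 + (s - 1 / 2) : ℂ) = s := by ring
          rw [e, k1, mul_zero]
        · rw [hr, abs_of_nonneg (by linarith)]
          linarith
      have h4 : (fun b : ℂ => 1 / 2 + b) '' (Pool.Agent.Y22.RX.S X δ (T + 1) ∩ {b | 0 < b.re}) ⊆
          {s : ℂ | Z s = 0 ∧ 1 / 2 < s.re ∧ 1 / 2 + δ ≤ s.re ∧ 0 < s.im ∧ s.im ≤ T + 1} := by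
        rintro s ⟨b, ⟨⟨k1, k2, k3, k4⟩, k5⟩, rfl⟩
        have k5' : 0 < b.re := k5
        rw [abs_of_pos k5'] at k2
        have hr : (1 / 2 + b : ℂ).re = 1 / 2 + b.re := by simp
        have hi : (1 / 2 + b : ℂ).im = b.im := by simp
        refine ⟨?_, by rw [hr]; linarith, by rw [hr]; linarith, by rw [hi]; exact k3, by rw [hi]; exact k4⟩
        have h6 := h.eq b k3
        rw [k1] at h6
        exact (mul_eq_zero.1 h6.symm).resolve_left (h.Hne b k3)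
      rw [← Set.ncard_image_of_injective _ (add_right_injective (1 / 2 : ℂ))]
      exact Set.ncard_le_ncard h4 hfin
    have h5 : ((Pool.Agent.Y22.RX.S X δ (T + 1) ∩ {b | 0 < b.re}).ncard : ℝ) ≤ NR Z δ (T + 1) := by exact_mod_cast h3
    gcongr

end SD

end

end Pool.Agent.N831.SX
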