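import Pool.Agent.N831.SX.K
import Pool.Agent.N831.SP.D

set_option autoImplicit false

/-!
# Equal numbers of zeros between two heights outside of the shadows
-/

namespace Pool.Agent.N831.SX

open Complex Filter Topology Set MeasureTheory Metric
open scoped ComplexConjugate
open H370 (RI Bd)

noncomputable section

/-- a height outside of all the intervals of radius `β - 1/2` around the ordinates of the zeros `β + i γ` -/
def Clear (Z : ℂ → ℂ) (t : ℝ) : Prop := ∀ ρ : ℂ, Z ρ = 0 → 0 < ρ.im → ρ.re - 1 / 2 ≤ |t - ρ.im|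

namespace SD

variable {κ B : ℝ} {H X Z : ℂ → ℂ}

theorem of_clear (h : SD κ B H X Z) {t : ℝ} (ht : B ≤ t) (hc : Clear Z t) {s : ℂ} (hs : s.im = t)
    (hr : s.re < 1 / 2) : Z s ≠ 0 ∧ (deriv Z s / Z s).re < 0 := by
  have ht1 : 1 ≤ t := h.B_one.trans ht
  have hkey : ∀ b : ℂ, X b = 0 → 0 < b.re → b.re ≤ |t - b.im| := by
    intro b hb hb0
    rcases le_or_gt b.im 0 with h1 | h1
    · have h2 := h.strip b hb
      have h3 : b.re ≤ 1 / 2 := (le_abs_self _).trans h2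
      have h4 : t - b.im ≤ |t - b.im| := le_abs_self _
      linarith
    · have h2 := h.eq b h1
      rw [hb] at h2
      have h3 := (mul_eq_zero.1 h2.symm).resolve_left (h.Hne b h1)
      have h4 := hc _ h3 (by simpa using h1)
      have e1 : (1 / 2 + b : ℂ).re = 1 / 2 + b.re := by simp
      have e2 : (1 / 2 + b : ℂ).im = b.im := by simp
      rw [e1, e2] at h4
      linarith
  have hm : StrictMonoOn (fun x : ℝ => ‖X (x + t * I : ℂ)‖) (Set.Ici 0) := by
    refine h.sy.strict h.zero le_rfl fun b hb hb0 => ?_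
    rcases abs_pos.1 hb0 |>.lt_or_gt with h1 | h1
    · have h2 : X (-(conj b)) = 0 := by rw [h.sy.symm, hb, map_zero]
      have h3 := hkey _ h2 (by simpa using h1)
      rw [abs_of_neg h1]
      simpa using h3
    · rw [abs_of_pos h1]
      exact hkey b hb h1
  obtain ⟨-, -, h1, h2⟩ := h.left_of_mono (w := s - 1 / 2) (t := t) ht le_rfl hm (by simpa using hs)
    (by simp; linarith)
  have e : (1 / 2 + (s - 1 / 2) : ℂ) = s := by ring
  rw [e] at h1 h2
  obtain ⟨-, -, h3⟩ := h.left (s - 1 / 2) (by simp [hs]; exact ht) (by simp; linarith)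
  exact ⟨h1, lt_of_le_of_lt h2 (by linarith)⟩

/-- **Equality between heights outside of the shadows.** -/
theorem clear_equal (h : SD κ B H X Z) {T1 T2 : ℝ} (h1 : B ≤ T1) (h12 : T1 < T2) (g1 : Clear Z T1) (g2 : Clear Z T2) :
    NS Z T1 T2 = NS (deriv Z) T1 T2 := by
  obtain ⟨δ0, hδ0, hstrip⟩ := h.near_unif (T1 := T1) (T2 := T2) h1
  obtain ⟨δ, hδ, hδle, hδ1⟩ : ∃ δ : ℝ, 0 < δ ∧ δ < δ0 ∧ δ < 1 :=
    ⟨min (δ0 / 2) (1 / 2), lt_min (by linarith) (by norm_num), lt_of_le_of_lt (min_le_left _ _) (by linarith),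
      lt_of_le_of_lt (min_le_right _ _) (by norm_num)⟩
  set b : ℝ := 1 / 2 - δ with hb
  have hab : (-1 : ℝ) < b := by rw [hb]; linarith
  have hedge : ∀ s : ℂ, s.re < 1 / 2 → T1 ≤ s.im → s.im ≤ T2 → (s.re ≤ -1 ∨ b ≤ s.re ∨ s.im = T1 ∨ s.im = T2) →
      Z s ≠ 0 ∧ deriv Z s ≠ 0 ∧ (deriv Z s / Z s).re ≤ 0 := by
    intro s hs1 hs2 hs3 hs4
    have key : Z s ≠ 0 ∧ (deriv Z s / Z s).re < 0 := by
      rcases hs4 with h3 | h3 | h3 | h3
      · exact h.left_far (h1.trans hs2) (by linarith)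
      · exact hstrip s hs2 hs3 (by linarith) hs1
      · exact h.of_clear h1 g1 h3 hs1
      · exact h.of_clear (h1.trans h12.le) g2 h3 hs1
    exact ⟨key.1, ne_of_re key.2, key.2.le⟩
  have himK : ∀ s ∈ Icc (-1) b ×ℂ Icc T1 T2, 0 < s.im := by
    rintro s ⟨-, h3⟩
    rw [mem_preimage] at h3
    linarith [h3.1, h.B_one]
  obtain ⟨f1, f2, e⟩ := Pool.Agent.N831.SP.equal_of_bd (F := Z) (G := deriv Z) hab h12
    (fun s hs => an_upper h.dZ (himK s hs)) (fun s hs => (an_upper h.dZ (himK s hs)).deriv) (by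
      rintro s (⟨h3, h4⟩ | ⟨h3, h4⟩)
      · refine hedge s (by linarith [h3.2]) ?_ ?_ ?_
        · rcases h4 with h | h <;> rw [h] <;> linarith
        · rcases h4 with h | h <;> rw [h] <;> linarith
        · rcases h4 with h | h
          · exact Or.inr (Or.inr (Or.inl h))
          · exact Or.inr (Or.inr (Or.inr h))
      · refine hedge s ?_ h3.1 h3.2 ?_
        · rcases h4 with h | h <;> rw [h] <;> linarith
        · rcases h4 with h | h
          · exact Or.inl h.le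
          · exact Or.inr (Or.inl h.ge))
  have hset1 : ZS Z T1 T2 = {s | s ∈ Ioo (-1) b ×ℂ Ioo T1 T2 ∧ Z s = 0} := by
    ext s
    constructor
    · rintro ⟨h3, h4, h5, h6⟩
      have h7 : ¬ (s.re ≤ -1 ∨ b ≤ s.re ∨ s.im = T1 ∨ s.im = T2) := fun h => (hedge s h4 h5.le h6 h).1 h3
      push Not at h7
      exact ⟨⟨⟨h7.1, h7.2.1⟩, ⟨h5, lt_of_le_of_ne h6 h7.2.2.2⟩⟩, h3⟩
    · rintro ⟨⟨h3, h4⟩, h5⟩
      rw [mem_preimage] at h3 h4
      exact ⟨h5, by linarith [h3.2], h4.1, h4.2.le⟩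
  have hset2 : ZS (deriv Z) T1 T2 = {s | s ∈ Ioo (-1) b ×ℂ Ioo T1 T2 ∧ deriv Z s = 0} := by
    ext s
    constructor
    · rintro ⟨h3, h4, h5, h6⟩
      have h7 : ¬ (s.re ≤ -1 ∨ b ≤ s.re ∨ s.im = T1 ∨ s.im = T2) := fun h => (hedge s h4 h5.le h6 h).2.1 h3
      push Not at h7
      exact ⟨⟨⟨h7.1, h7.2.1⟩, ⟨h5, lt_of_le_of_ne h6 h7.2.2.2⟩⟩, h3⟩
    · rintro ⟨⟨h3, h4⟩, h5⟩
      rw [mem_preimage] at h3 h4
      exact ⟨h5, by linarith [h3.2], h4.1, h4.2.le⟩
  unfold NS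
  rw [hset1, hset2]
  exact e

end SD

end

end Pool.Agent.N831.SX
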