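import Pool.Agent.N831.SX.L
import Pool.Agent.R838.TW.Cnt
import Pool.Agent.Y22.LM4

set_option autoImplicit false

/-!
# L-functions of degree two and their products
-/

namespace Pool.Agent.N831.SX

open Complex Filter Topology Set MeasureTheory Metric
open scoped ComplexConjugate
open Pool.Agent.Y671.GL
open Pool.Agent.Y693.GL (GY gy_one gy_mul GoodY)
open Pool.Agent.Y24.GL (LFn)
open Pool.Agent.R838.TW (PL pl_of)
open Pool.Agent.N831.SP (re_ge_of_right logderiv_mul_of)

noncomputable section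

/-- the gamma factor to the left -/
def Lf (B : ℝ) (H : ℂ → ℂ) : Prop := 1 ≤ B ∧ ∀ w : ℂ, B ≤ w.im → AnalyticAt ℂ H w ∧ H w ≠ 0 ∧ 0 < (deriv H w / H w).re

/-- Properties of an L-function `Z` (critical line `Re s = 1/2`) with completed function `X`. -/
structure PQ (κ : ℝ) (X Z : ℂ → ℂ) : Prop where
  pl : PL κ X
  dat : ∃ (H : ℂ → ℂ) (B : ℝ), GY κ H X Z ∧ (∀ w : ℂ, 0 < w.im → H w ≠ 0) ∧ Lf B H

lemma Lf.mono {B B' : ℝ} {H : ℂ → ℂ} (h : Lf B H) (hB : B ≤ B') : Lf B' H :=
  ⟨h.1.trans hB, fun w hw => h.2 w (hB.trans hw)⟩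

lemma Lf.mul {B : ℝ} {H H' : ℂ → ℂ} (h : Lf B H) (h' : Lf B H') : Lf B (fun w => H w * H' w) := by
  refine ⟨h.1, fun w hw => ?_⟩
  obtain ⟨h1, h2, h3⟩ := h.2 w hw
  obtain ⟨k1, k2, k3⟩ := h'.2 w hw
  refine ⟨h1.mul k1, mul_ne_zero h2 k2, ?_⟩
  rw [logderiv_mul_of (F := fun w => H w * H' w) (G := H) (H := H') (Filter.Eventually.of_forall fun _ => rfl)
    h1.differentiableAt k1.differentiableAt h2 k2, Complex.add_re]
  linarith

/-- **Products.** -/
theorem PQ.mul {κ κ' : ℝ} {X X' Z Z' : ℂ → ℂ} (h1 : PQ κ X Z) (h2 : PQ κ' X' Z') :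
    PQ (κ + κ') (fun s => X s * X' s) (fun s => Z s * Z' s) where
  pl := h1.pl.mul h2.pl
  dat := by
    obtain ⟨H, B, hG, hH, hL⟩ := h1.dat
    obtain ⟨H', B', hG', hH', hL'⟩ := h2.dat
    exact ⟨_, max B B', gy_mul hG hG', fun w hw => mul_ne_zero (hH w hw) (hH' w hw),
      (hL.mono (le_max_left _ _)).mul (hL'.mono (le_max_right _ _))⟩

theorem pq_prod {ι : Type*} [DecidableEq ι] (s : Finset ι) (hs : s.Nonempty) (X Z : ι → ℂ → ℂ)
    (h : ∀ i ∈ s, PQ 1 (X i) (Z i)) : PQ (s.card : ℝ) (fun w => ∏ i ∈ s, X i w) (fun w => ∏ i ∈ s, Z i w) := by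
  induction hs using Finset.Nonempty.cons_induction with
  | singleton a =>
    simp only [Finset.card_singleton, Finset.prod_singleton, Nat.cast_one]
    exact h a (Finset.mem_singleton_self a)
  | cons a s ha hs ih =>
    have h1 := h a (Finset.mem_cons_self a s)
    have h2 := ih fun i hi => h i (Finset.mem_cons_of_mem hi)
    have h3 := h1.mul h2
    simp only [Finset.card_cons, Finset.prod_cons, Nat.cast_add, Nat.cast_one]
    rw [add_comm (s.card : ℝ) 1]
    exact h3

/-- one gamma factor -/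
theorem lf_Hg {u : ℂ} (hu : u ≠ 0) {c A : ℝ} (hc : 0 < c) (hA : 0 ≤ A) :
    (∀ w : ℂ, 0 < w.im → u * Hg c A w ≠ 0) ∧ ∃ B : ℝ, Lf B (fun w => u * Hg c A w) := by
  have hcc : (c : ℂ) ≠ 0 := by exact_mod_cast hc.ne'
  have hGne : ∀ w : ℂ, 0 < w.im → Complex.Gamma (w + (A : ℂ)) ≠ 0 := by
    intro w hw
    apply Complex.Gamma_ne_zero
    intro m hm
    have := congrArg Complex.im hm
    simp at this
    linarith
  have hne : ∀ w : ℂ, 0 < w.im → u * Hg c A w ≠ 0 := by
    intro w hw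
    unfold Hg
    refine mul_ne_zero hu (mul_ne_zero ?_ (hGne w hw))
    rw [Ne, Complex.cpow_eq_zero_iff]
    exact fun h => hcc h.1
  have hd : ∀ w : ℂ, 0 < w.im → DifferentiableAt ℂ (fun w => u * Hg c A w) w := by
    intro w hw
    unfold Hg
    have h1 : DifferentiableAt ℂ (fun w : ℂ => (c : ℂ) ^ w) w :=
      (differentiableAt_id).const_cpow (Or.inl hcc)
    have h2 : DifferentiableAt ℂ (fun w : ℂ => Complex.Gamma (w + (A : ℂ))) w := by
      have h3 : DifferentiableAt ℂ Complex.Gamma (w + (A : ℂ)) := by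
        apply Complex.differentiableAt_Gamma
        intro m hm
        have := congrArg Complex.im hm
        simp at this
        linarith
      exact h3.comp w (by fun_prop)
    exact (h1.mul h2).const_mul u
  refine ⟨hne, max 4 (Real.exp 2 / c), (by norm_num : (1 : ℝ) ≤ 4).trans (le_max_left _ _), fun w hw => ?_⟩
  have h4 : 4 ≤ w.im := (le_max_left _ _).trans hw
  have h5 : Real.exp 2 / c ≤ w.im := (le_max_right _ _).trans hw
  have hw0 : 0 < w.im := by linarith
  have hwe : w = w.re + w.im * I := (Complex.re_add_im w).symm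
  refine ⟨an_upper (F := fun w => u * Hg c A w) (fun s hs => hd s hs) hw0, hne w hw0, ?_⟩
  have hrate : 0 < Real.log c + Real.log w.im - Real.pi / w.im := by
    rw [div_le_iff₀ hc] at h5
    have h6 := Real.log_le_log (Real.exp_pos 2) h5
    rw [Real.log_exp, Real.log_mul hw0.ne' hc.ne'] at h6
    have h7 : Real.pi / w.im ≤ Real.pi / 4 := by
      apply div_le_div_of_nonneg_left Real.pi_pos.le (by norm_num) h4
    have h8 := Real.pi_lt_d2
    linarith
  refine lt_of_lt_of_le hrate ?_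
  have h9 := re_ge_of_right (f := fun w => u * Hg c A w) (σ := w.re) (t := w.im)
    (c := Real.log c + Real.log w.im - Real.pi / w.im) (by rw [← hwe]; exact hd w hw0) (by rw [← hwe]; exact hne w hw0) (by
      filter_upwards [self_mem_nhdsWithin] with x hx
      rw [Set.mem_Ioi] at hx
      have h1 := Pool.Agent.Y22.LM.gamma_left hw0 (w.re + A) (x - w.re) (by linarith)
      have e1 : (((w.re + A : ℝ) : ℂ) + w.im * I : ℂ) = w.re + w.im * I + (A : ℂ) := by push_cast; ring
      have e2 : ((((w.re + A) + (x - w.re) : ℝ) : ℂ) + w.im * I : ℂ) = x + w.im * I + (A : ℂ) := by push_cast; ring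
      rw [e1, e2] at h1
      have hn : ∀ y : ℝ, ‖(c : ℂ) ^ ((y : ℂ) + w.im * I)‖ = Real.exp (Real.log c * y) := by
        intro y
        rw [Complex.norm_cpow_eq_rpow_re_of_pos hc, Real.rpow_def_of_pos hc]
        simp
      have e3 : ∀ y : ℝ, ‖(fun w => u * Hg c A w) ((y : ℂ) + w.im * I)‖ =
          ‖u‖ * (Real.exp (Real.log c * y) * ‖Complex.Gamma (y + w.im * I + (A : ℂ))‖) := by
        intro y
        simp only
        unfold Hg
        rw [norm_mul, norm_mul, hn]
      rw [e3, e3]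
      set L1 := Real.log c
      set L2 := Real.log w.im - Real.pi / w.im
      calc ‖u‖ * (Real.exp (L1 * w.re) * ‖Complex.Gamma (w.re + w.im * I + (A : ℂ))‖) *
            Real.exp ((L1 + Real.log w.im - Real.pi / w.im) * (x - w.re))
          ≤ ‖u‖ * (Real.exp (L1 * w.re) * (‖Complex.Gamma (x + w.im * I + (A : ℂ))‖ *
              Real.exp (-L2 * (x - w.re)))) * Real.exp ((L1 + Real.log w.im - Real.pi / w.im) * (x - w.re)) := by
            gcongr
        _ = ‖u‖ * (Real.exp (L1 * x) * ‖Complex.Gamma (x + w.im * I + (A : ℂ))‖) := by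
            have e4 : Real.exp (L1 * w.re) * Real.exp (-L2 * (x - w.re)) *
                Real.exp ((L1 + Real.log w.im - Real.pi / w.im) * (x - w.re)) = Real.exp (L1 * x) := by
              rw [← Real.exp_add, ← Real.exp_add]
              congr 1
              simp only [L2]
              ring
            rw [← e4]
            ring)
  rw [← hwe] at h9
  exact h9

/-- **One form.** -/
theorem pq_of {k N : ℕ} [NeZero N] {ps lam : ℕ → ℂ} {u : ℂ} {X Z : ℂ → ℂ} (hk : 1 ≤ k)
    (hF : Frm k N ps lam) (hL : IsL lam Z) (hD : LData k (Real.sqrt N / (2 * Real.pi)) u X Z) (hlfn : LFn Z) :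
    PQ 1 X Z where
  pl := pl_of hk hF hL hD hlfn
  dat := by
    obtain ⟨h1, B, h2⟩ := lf_Hg (A := (k : ℝ) / 2) hD.u_ne hD.c_pos (by positivity)
    exact ⟨_, B, gy_one (gg_of hF hL hD), h1, h2⟩

theorem goodE_of {κ : ℝ} {X : ℂ → ℂ} (hκ : 0 < κ) (h : GoodY κ X) : GoodE κ X := by
  obtain ⟨c, C, a0, T0, hc, hC, ha0, hT0, h1⟩ := h (1 / 10) (by norm_num)
  refine ⟨c, C, a0, T0, hc, hC, ha0, hT0, fun T a r hT ha hr hr1 hr2 hra => ?_⟩
  exact h1 T a r hT ha hr (by linarith) (by linarith) (by rw [hra, sub_self, abs_zero]; positivity)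

/-- the data of the general theory -/
theorem PQ.sd {κ : ℝ} {X Z : ℂ → ℂ} (hκ : 1 / 2 ≤ κ) (h : PQ κ X Z) : ∃ (H : ℂ → ℂ) (B : ℝ), SD κ B H X Z := by
  obtain ⟨H, B, hG, hH, hL⟩ := h.dat
  have cf := hG.cg.cf
  refine ⟨H, B, ?_⟩
  exact {
    κ_pos := cf.κ_pos
    B_one := hL.1
    sy := h.pl.sy
    strip := h.pl.strip
    zero := h.pl.zero hκ
    eq := cf.eq
    Hne := hH
    dZ := fun s _ => cf.diffZ s
    left := fun w hw _ => hL.2 w hw
    gam := cf.gam
    gro := cf.gro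
    rgt := by
      obtain ⟨c, K, hc, -, h1⟩ := cf.rgt 1 one_pos
      exact ⟨c, 2, hc, by norm_num, fun s hs => (h1 s (by linarith)).1⟩
    good := goodE_of cf.κ_pos hG.good
    dens := by
      obtain ⟨C, hC, h1⟩ := h.pl.ncard_S (c := 1 / 2) (by norm_num)
      exact ⟨1 / 2, C, by norm_num, hC, fun δ T hδ hT => h1 δ T hδ hT⟩ }

end

end Pool.Agent.N831.SX
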