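import Pool.Agent.N831.SX.M

set_option autoImplicit false

/-!
# The results for L-functions with any critical line `Re s = x`
-/

namespace Pool.Agent.N831.SX

open Complex Filter Topology Set MeasureTheory Metric
open scoped ComplexConjugate

noncomputable section

/-- The zeros of `F` with `Re s < x` and `T₁ < Im s ≤ T₂`. -/
def ZX (F : ℂ → ℂ) (x T1 T2 : ℝ) : Set ℂ := {s | F s = 0 ∧ s.re < x ∧ T1 < s.im ∧ s.im ≤ T2}

/-- their number, with multiplicity -/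
def NX (F : ℂ → ℂ) (x T1 T2 : ℝ) : ℕ := ∑ᶠ s ∈ ZX F x T1 T2, analyticOrderNatAt F s

/-- zeros at distance at least `δ` to the left of the line -/
def ZDX (F : ℂ → ℂ) (x B δ T : ℝ) : Set ℂ := {s | F s = 0 ∧ s.re < x ∧ s.re ≤ x - δ ∧ B < s.im ∧ s.im ≤ T}

/-- their number, with multiplicity -/
def NDX (F : ℂ → ℂ) (x B δ T : ℝ) : ℕ := ∑ᶠ s ∈ ZDX F x B δ T, analyticOrderNatAt F s

/-- the number of distinct zeros on the right, at distance at least `δ` -/
def NRX (F : ℂ → ℂ) (x δ T : ℝ) : ℕ := {s : ℂ | F s = 0 ∧ x < s.re ∧ x + δ ≤ s.re ∧ 0 < s.im ∧ s.im ≤ T}.ncard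

/-- The results for one L-function with critical line `Re s = x`. -/
structure ResX (L : ℂ → ℂ) (x B : ℝ) : Prop where
  B_one : 1 ≤ B
  /-- Jensen discs -/
  jen : ∀ s : ℂ, deriv L s = 0 → s.re < x → B ≤ s.im →
    ∃ ρ : ℂ, L ρ = 0 ∧ x < ρ.re ∧ ‖s - ⟨x, ρ.im⟩‖ ≤ ρ.re - x
  /-- equality outside of the shadows -/
  eqn : ∀ T1 T2 : ℝ, B ≤ T1 → T1 < T2 → (∀ ρ : ℂ, L ρ = 0 → ρ.re - x ≤ |T1 - ρ.im|) →
    (∀ ρ : ℂ, L ρ = 0 → ρ.re - x ≤ |T2 - ρ.im|) → NX L x T1 T2 = NX (deriv L) x T1 T2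
  /-- finitely many zeros to the left of the line in bounded windows -/
  fin : ∀ T : ℝ, (ZX L x B T).Finite ∧ (ZX (deriv L) x B T).Finite
  /-- exponential tails -/
  tails : ∃ c C : ℝ, 0 < c ∧ 0 < C ∧ ∀ l T : ℝ, 0 ≤ l → 0 ≤ T →
    volume {t : ℝ | B ≤ t ∧ t ≤ T ∧ l < |(NX (deriv L) x B t : ℝ) - NX L x B t|} ≤
      ENNReal.ofReal (C * Real.exp (-(c * l)) * T)
  /-- density theorem -/
  dens : ∃ c C : ℝ, 0 < c ∧ 0 < C ∧ ∀ δ T : ℝ, 0 ≤ δ → 2 ≤ T →
    (NDX (deriv L) x B δ T : ℝ) ≤ C * T ^ (1 - c * δ) * Real.log T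
  /-- transfer -/
  tran : ∃ C : ℝ, 0 < C ∧ ∀ δ T : ℝ, 0 ≤ δ → 2 ≤ T →
    (NDX (deriv L) x B δ T : ℝ) ≤ C * Real.log T * NRX L x δ (T + 1)

lemma order_shift (F : ℂ → ℂ) (a s : ℂ) :
    analyticOrderNatAt (fun s => F (s - a)) s = analyticOrderNatAt F (s - a) := by
  have h : analyticOrderAt (F ∘ (fun s : ℂ => s - a)) s = analyticOrderAt F (s - a) := by
    rw [analyticOrderAt_comp_of_deriv_ne_zero]
    · fun_prop
    · have : deriv (fun s : ℂ => s - a) s = 1 := by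
        rw [deriv_sub_const]
        exact deriv_id s
      rw [this]
      exact one_ne_zero
  unfold analyticOrderNatAt
  rw [← h]
  rfl

lemma sum_shift (F : ℂ → ℂ) (a : ℂ) {P Q : Set ℂ} (h : ∀ s, s ∈ P ↔ s - a ∈ Q) :
    ∑ᶠ s ∈ P, analyticOrderNatAt (fun s => F (s - a)) s = ∑ᶠ s ∈ Q, analyticOrderNatAt F s := by
  refine finsum_mem_eq_of_bijOn (fun s => s - a) ⟨fun s hs => (h s).1 hs, fun s _ t _ hst => sub_left_injective hst,
    fun t ht => ⟨t + a, (h _).2 (by rwa [add_sub_cancel_right]), by simp⟩⟩ fun s _ => order_shift F a s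

/-- **The shifted results.** -/
theorem resX {κ : ℝ} {X Z L : ℂ → ℂ} (hκ : 1 / 2 ≤ κ) (h : PQ κ X Z) {x : ℝ}
    (hL : ∀ s, L s = Z (s - ((x - 1 / 2 : ℝ) : ℂ))) : ∃ B : ℝ, ResX L x B := by
  obtain ⟨H, B, hS⟩ := h.sd hκ
  have hR := hS.res
  set a : ℂ := ((x - 1 / 2 : ℝ) : ℂ) with ha
  have har : a.re = x - 1 / 2 := by rw [ha, Complex.ofReal_re]
  have hai : a.im = 0 := by rw [ha, Complex.ofReal_im]
  have hLf : L = fun s => Z (s - a) := funext hL
  have hdL : deriv L = fun s => deriv Z (s - a) := by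
    funext s
    rw [hLf]
    exact deriv_comp_sub_const _ _ _
  have hsub : ∀ s : ℂ, (s - a).re = s.re - (x - 1 / 2) ∧ (s - a).im = s.im := fun s => by
    rw [Complex.sub_re, Complex.sub_im, har, hai, sub_zero]
    exact ⟨rfl, rfl⟩
  -- zeros
  have hZX : ∀ (F G : ℂ → ℂ), (F = fun s => G (s - a)) → ∀ T1 T2 : ℝ, ∀ s, s ∈ ZX F x T1 T2 ↔ s - a ∈ ZS G T1 T2 := by
    intro F G hFG T1 T2 s
    obtain ⟨h1, h2⟩ := hsub s
    unfold ZX ZS
    rw [hFG]
    simp only [Set.mem_setOf_eq, h1, h2]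
    constructor
    · rintro ⟨k1, k2, k3, k4⟩
      exact ⟨k1, by linarith, k3, k4⟩
    · rintro ⟨k1, k2, k3, k4⟩
      exact ⟨k1, by linarith, k3, k4⟩
  have hNX : ∀ (F G : ℂ → ℂ), (F = fun s => G (s - a)) → ∀ T1 T2 : ℝ, NX F x T1 T2 = NS G T1 T2 := by
    intro F G hFG T1 T2
    have h1 := hZX F G hFG T1 T2
    unfold NX NS
    subst hFG
    exact sum_shift G a h1
  have hND : ∀ (F G : ℂ → ℂ), (F = fun s => G (s - a)) → ∀ δ T : ℝ, NDX F x B δ T = ND G B δ T := by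
    intro F G hFG δ T
    have h1 : ∀ s, s ∈ ZDX F x B δ T ↔ s - a ∈ ZD G B δ T := by
      intro s
      obtain ⟨h1, h2⟩ := hsub s
      unfold ZDX ZD
      rw [hFG]
      simp only [Set.mem_setOf_eq, h1, h2]
      constructor
      · rintro ⟨k1, k2, k3, k4, k5⟩
        exact ⟨k1, by linarith, by linarith, k4, k5⟩
      · rintro ⟨k1, k2, k3, k4, k5⟩
        exact ⟨k1, by linarith, by linarith, k4, k5⟩
    unfold NDX ND
    subst hFG
    exact sum_shift G a h1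
  have hNR : ∀ δ T : ℝ, NRX L x δ T = NR Z δ T := by
    intro δ T
    unfold NRX NR
    have h1 : {s : ℂ | Z s = 0 ∧ 1 / 2 < s.re ∧ 1 / 2 + δ ≤ s.re ∧ 0 < s.im ∧ s.im ≤ T} = (fun s => s - a) ''
        {s : ℂ | L s = 0 ∧ x < s.re ∧ x + δ ≤ s.re ∧ 0 < s.im ∧ s.im ≤ T} := by
      ext s
      constructor
      · rintro ⟨k1, k2, k3, k4, k5⟩
        have e1 : (s + a).re = s.re + (x - 1 / 2) := by rw [Complex.add_re, har]
        have e2 : (s + a).im = s.im := by rw [Complex.add_im, hai, add_zero]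
        refine ⟨s + a, ⟨?_, by rw [e1]; linarith, by rw [e1]; linarith, by rw [e2]; exact k4, by rw [e2]; exact k5⟩,
          by simp⟩
        rw [hL, add_sub_cancel_right]
        exact k1
      · rintro ⟨w, ⟨k1, k2, k3, k4, k5⟩, rfl⟩
        obtain ⟨h1, h2⟩ := hsub w
        rw [hL] at k1
        show Z (w - a) = 0 ∧ 1 / 2 < (w - a).re ∧ 1 / 2 + δ ≤ (w - a).re ∧ 0 < (w - a).im ∧ (w - a).im ≤ T
        rw [h1, h2]
        exact ⟨k1, by linarith, by linarith, k4, k5⟩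
    rw [h1, Set.ncard_image_of_injective _ sub_left_injective]
  refine ⟨B, ?_⟩
  exact {
    B_one := hS.B_one
    jen := by
      intro s h1 h2 h3
      obtain ⟨e1, e2⟩ := hsub s
      rw [hdL] at h1
      obtain ⟨ρ, g1, g2, -, g4⟩ := hR.jen (s - a) h1 (by rw [e1]; linarith) (by rw [e2]; exact h3)
      have e3 : (ρ + a).re = ρ.re + (x - 1 / 2) := by rw [Complex.add_re, har]
      have e4 : (ρ + a).im = ρ.im := by rw [Complex.add_im, hai, add_zero]
      refine ⟨ρ + a, ?_, by rw [e3]; linarith, ?_⟩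
      · rw [hL, add_sub_cancel_right]
        exact g1
      · rw [e3, e4]
        have e5 : s - (⟨x, ρ.im⟩ : ℂ) = s - a - ⟨1 / 2, ρ.im⟩ := by
          apply Complex.ext
          · rw [Complex.sub_re, Complex.sub_re, Complex.sub_re, har]
            ring
          · rw [Complex.sub_im, Complex.sub_im, Complex.sub_im, hai]
            ring
        rw [e5]
        linarith
    eqn := by
      intro T1 T2 h1 h2 h3 h4
      have key : ∀ T : ℝ, (∀ ρ : ℂ, L ρ = 0 → ρ.re - x ≤ |T - ρ.im|) → Clear Z T := by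
        intro T hT ρ hρ _
        have e3 : (ρ + a).re = ρ.re + (x - 1 / 2) := by rw [Complex.add_re, har]
        have e4 : (ρ + a).im = ρ.im := by rw [Complex.add_im, hai, add_zero]
        have h5 := hT (ρ + a) (by rw [hL, add_sub_cancel_right]; exact hρ)
        rw [e3, e4] at h5
        linarith
      rw [hNX L Z hLf, hNX (deriv L) (deriv Z) hdL]
      exact hS.clear_equal h1 h2 (key _ h3) (key _ h4)
    fin := by
      intro T
      obtain ⟨f1, f2⟩ := hR.fin T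
      have hinj : ∀ (P Q : Set ℂ), (∀ s, s ∈ P ↔ s - a ∈ Q) → Q.Finite → P.Finite := by
        intro P Q hPQ hQ
        refine (hQ.image (fun s => s + a)).subset fun s hs => ⟨s - a, (hPQ s).1 hs, by simp⟩
      exact ⟨hinj _ _ (hZX L Z hLf B T) f1, hinj _ _ (hZX (deriv L) (deriv Z) hdL B T) f2⟩
    tails := by
      obtain ⟨c, C, hc, hC, h1⟩ := hR.tails
      refine ⟨c, C, hc, hC, fun l T hl hT => ?_⟩
      have h2 := h1 l T hl hT
      simp only [hNX L Z hLf, hNX (deriv L) (deriv Z) hdL]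
      exact h2
    dens := by
      obtain ⟨c, C, hc, hC, h1⟩ := hR.dens
      refine ⟨c, C, hc, hC, fun δ T hδ hT => ?_⟩
      rw [hND (deriv L) (deriv Z) hdL]
      exact h1 δ T hδ hT
    tran := by
      obtain ⟨C, hC, h1⟩ := hR.tran
      refine ⟨C, hC, fun δ T hδ hT => ?_⟩
      rw [hND (deriv L) (deriv Z) hdL, hNR]
      exact h1 δ T hδ hT }

end

end Pool.Agent.N831.SX
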